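import Pool.Agent.H973.SR.Stm

/-!
`S_ALLOC`: `k` allocation steps for the same agent, from the single step `S_FP`.
-/

namespace Pool.Agent.H973.SR

open Finset

theorem alloc (h : S_FP) : S_ALLOC := by
  intro α β _ _ _ N b c m k Z a hN hZ hG w
  induction k with
  | zero =>
    intro _
    refine ⟨∅, Finset.empty_subset _, Finset.card_empty, ?_⟩
    rw [Finset.union_empty, Nat.add_zero, Function.update_eq_self]
    exact hG
  | succ k ih =>
    intro hw
    obtain ⟨S, hS, hSk, hSG⟩ := ih (by omega) (by omega)
    have hcard : (Z ∪ S).card < c * m := by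
      have := Finset.card_union_le Z S
      omega
    have haw : Function.update a w (a w + k) w = a w + k := Function.update_self ..
    obtain ⟨S', hS', hSc, hu⟩ := h α β N b c m (Z ∪ S) (Function.update a w (a w + k)) hN hcard hSG w
      (by rw [haw]; omega)
    rw [haw] at hSc hu
    have hne : S'.Nonempty := by
      rw [← Finset.card_pos]
      omega
    obtain ⟨u, huS⟩ := hne
    have hu1 := Finset.mem_sdiff.1 (hS' huS)
    have huZ : u ∉ Z := fun hc => hu1.2 (Finset.mem_union_left _ hc)
    have huS2 : u ∉ S := fun hc => hu1.2 (Finset.mem_union_right _ hc)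
    refine ⟨insert u S, ?_, ?_, ?_⟩
    · exact Finset.insert_subset (Finset.mem_sdiff.2 ⟨hu1.1, huZ⟩) hS
    · rw [Finset.card_insert_of_notMem huS2, hSk]
    · have h1 := hu u huS
      rw [Function.update_idem] at h1
      rw [Finset.union_insert]
      exact h1

end Pool.Agent.H973.SR
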