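import Pool.Agent.H973.SR.Stm2

/-!
Leaf Arr of project SR: from the bipartite embedding to the arrow relation, and the assembly of
the main statement.
-/

namespace Pool.Agent.H973.SR

open Finset

namespace ArrL

/-- the bipartite host graph -/
def host {N1 N2 : ℕ} (S : Fin N1 → Finset (Fin N2)) : SimpleGraph (Fin (N1 + N2)) where
  Adj a b := (∃ u w, w ∈ S u ∧ a = finSumFinEquiv (Sum.inl u) ∧ b = finSumFinEquiv (Sum.inr w)) ∨
    ∃ u w, w ∈ S u ∧ b = finSumFinEquiv (Sum.inl u) ∧ a = finSumFinEquiv (Sum.inr w)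
  symm := ⟨fun _ _ h => h.symm⟩
  loopless := ⟨by
    rintro a (⟨u, w, _, h1, h2⟩ | ⟨u, w, _, h1, h2⟩)
    · exact Sum.inl_ne_inr (finSumFinEquiv.injective (h1.symm.trans h2))
    · exact Sum.inl_ne_inr (finSumFinEquiv.injective (h1.symm.trans h2))⟩

theorem host_adj {N1 N2 : ℕ} {S : Fin N1 → Finset (Fin N2)} {u : Fin N1} {w : Fin N2}
    (h : w ∈ S u) :
    (host S).Adj (finSumFinEquiv (Sum.inl u)) (finSumFinEquiv (Sum.inr w)) :=
  Or.inl ⟨u, w, h, rfl, rfl⟩

theorem host_card {N1 N2 s : ℕ} (S : Fin N1 → Finset (Fin N2)) (hS : ∀ u, (S u).card = s) :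
    (host S).edgeSet.ncard = N1 * s := by
  classical
  let P : Finset ((_ : Fin N1) × Fin N2) := univ.sigma S
  let g : ((_ : Fin N1) × Fin N2) → Sym2 (Fin (N1 + N2)) :=
    fun p => s(finSumFinEquiv (Sum.inl p.1), finSumFinEquiv (Sum.inr p.2))
  have hP : P.card = N1 * s := by
    rw [Finset.card_sigma]
    simp [hS]
  have hg : Function.Injective g := by
    rintro ⟨u, w⟩ ⟨u', w'⟩ h
    rcases Sym2.eq_iff.1 h with ⟨h1, h2⟩ | ⟨h1, _⟩
    · have e1 : u = u' := Sum.inl_injective (finSumFinEquiv.injective h1)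
      have e2 : w = w' := Sum.inr_injective (finSumFinEquiv.injective h2)
      subst e1 e2
      rfl
    · exact absurd (finSumFinEquiv.injective h1) Sum.inl_ne_inr
  have he : (host S).edgeSet = g '' (P : Set ((_ : Fin N1) × Fin N2)) := by
    ext x
    induction x using Sym2.ind with
    | _ a b =>
      rw [SimpleGraph.mem_edgeSet]
      constructor
      · rintro (⟨u, w, h, rfl, rfl⟩ | ⟨u, w, h, rfl, rfl⟩)
        · exact ⟨⟨u, w⟩, by simp [P, h], rfl⟩
        · exact ⟨⟨u, w⟩, by simp [P, h], Sym2.eq_swap⟩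
      · rintro ⟨⟨u, w⟩, hp, h⟩
        have hw : w ∈ S u := by simpa [P] using hp
        rcases Sym2.eq_iff.1 h with ⟨h1, h2⟩ | ⟨h1, h2⟩
        · exact Or.inl ⟨u, w, hw, h1.symm, h2.symm⟩
        · exact Or.inr ⟨u, w, hw, h1.symm, h2.symm⟩
  rw [he, Set.ncard_image_of_injective _ hg, Set.ncard_coe_finset, hP]

end ArrL

open ArrL in
theorem arr : S_ARR := by
  classical
  intro V _ T κ N1 N2 s r S hr hκ hS hT
  refine ⟨N1 + N2, host S, host_card S hS, ?_⟩
  intro c
  let c' : Fin N1 → Fin N2 → Fin r := fun u w =>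
    if h : w ∈ S u then c ⟨s(finSumFinEquiv (Sum.inl u), finSumFinEquiv (Sum.inr w)), host_adj h⟩
    else ⟨0, hr⟩
  obtain ⟨i, fc, fw, hc, hw, ha⟩ := hT c'
  let f : V → Fin (N1 + N2) := fun v =>
    if κ v = true then finSumFinEquiv (Sum.inr (fw v)) else finSumFinEquiv (Sum.inl (fc v))
  have ft : ∀ v, κ v = true → f v = finSumFinEquiv (Sum.inr (fw v)) := fun v hv => by
    simp only [f, hv, if_true]
  have ff : ∀ v, κ v = false → f v = finSumFinEquiv (Sum.inl (fc v)) := fun v hv => by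
    simp [f, hv]
  have main : ∀ x y, κ x = true → κ y = false → T.Adj x y →
      ∃ h : (host S).Adj (f y) (f x), c ⟨s(f y, f x), h⟩ = i := by
    intro x y hx hy hxy
    have h := ha x y hx hy hxy
    rw [colN, Finset.mem_filter] at h
    obtain ⟨_, h1, h2⟩ := h
    simp only [c', dif_pos h1] at h2
    have hadj : (host S).Adj (f y) (f x) := by
      rw [ft x hx, ff y hy]
      exact host_adj h1
    refine ⟨hadj, ?_⟩
    rw [← h2]
    refine congrArg c (Subtype.ext ?_)
    show s(f y, f x) = s(finSumFinEquiv (Sum.inl (fc y)), finSumFinEquiv (Sum.inr (fw x)))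
    rw [ft x hx, ff y hy]
  refine ⟨i, f, ?_, ?_⟩
  · intro x y h
    rcases hx : κ x with _ | _ <;> rcases hy : κ y with _ | _
    · rw [ff x hx, ff y hy] at h
      exact hc x y hx hy (Sum.inl_injective (finSumFinEquiv.injective h))
    · rw [ff x hx, ft y hy] at h
      exact absurd (finSumFinEquiv.injective h) Sum.inl_ne_inr
    · rw [ft x hx, ff y hy] at h
      exact absurd (finSumFinEquiv.injective h) Sum.inr_ne_inl
    · rw [ft x hx, ft y hy] at h
      exact hw x y hx hy (Sum.inr_injective (finSumFinEquiv.injective h))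
  · intro a b hab
    have hne := hκ a b hab
    rcases ha' : κ a with _ | _ <;> rcases hb' : κ b with _ | _
    · rw [ha', hb'] at hne
      exact absurd rfl hne
    · exact main b a hb' ha' hab.symm
    · obtain ⟨h, h2⟩ := main a b ha' hb' hab
      refine ⟨h.symm, ?_⟩
      rw [← h2]
      exact congrArg c (Subtype.ext Sym2.eq_swap)
    · rw [ha', hb'] at hne
      exact absurd rfl hne

theorem main (h1 : S_HOST) (h2 : S_EMB0) (h3 : S_EMB1) (h4 : S_EMB2) (h5 : S_ARR) : S_MAIN := by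
  intro V _ _ T _ κ v0 r l L D d hr hl hrl hlr hL hd hdD hT
  by_cases hlL : l ≤ L
  · have hpar : Par r l L D d := ⟨hr, hl, hrl, hlr, hlL, hd, hdD⟩
    obtain ⟨S, hS, hP1, hP2, hP3⟩ := h1 r l L D d hpar
    have key : ∀ c : Fin (B * r * L * D) → Fin (B * r * L * d) → Fin r,
        ∃ i, TreeIn (colN S c i) T κ := by
      by_cases hD : D < 2 ^ 60 * r ^ 4
      · exact h3 V T κ v0 r l L D d S hpar hT hS hP1 (hP2 hD)
      · exact h4 V T κ v0 r l L D d S hpar hT hS hP1 (hP3 (not_lt.1 hD))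
    obtain ⟨n, G, hG, hA⟩ := h5 V T κ _ _ (B * r * l * d) r S (by omega) hT.col hS key
    refine ⟨n, G, ?_, hA⟩
    rw [hG]
    have e : B * r * L * D * (B * r * l * d) = 2 ^ 40 * r ^ 2 * l * L * D * d := by
      have hB : B * B = 2 ^ 40 := by
        unfold B
        norm_num
      calc B * r * L * D * (B * r * l * d) = (B * B) * r ^ 2 * l * L * D * d := by ring
        _ = _ := by rw [hB]
    exact e.le
  · have key : ∀ c : Fin (4 * r * L * D) → Fin (4 * r * L * d) → Fin r,
        ∃ i, TreeIn (colN (fun _ => univ) c i) T κ :=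
      h2 V T κ v0 r L D d (by omega) hL hd (by omega) hT
    obtain ⟨n, G, hG, hA⟩ := h5 V T κ _ _ (4 * r * L * d) r (fun _ => univ) (by omega) hT.col
      (fun _ => by rw [Finset.card_univ, Fintype.card_fin]) key
    refine ⟨n, G, ?_, hA⟩
    rw [hG]
    have hLl : L ≤ l := by omega
    calc 4 * r * L * D * (4 * r * L * d) = 16 * r ^ 2 * L * L * D * d := by ring
      _ ≤ 2 ^ 40 * r ^ 2 * l * L * D * d := by
        gcongr
        norm_num

end Pool.Agent.H973.SR
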