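import Pool.Agent.H973.SR.Stm2

/-!
# Probability of the bad event 1
-/

namespace Pool.Agent.H973.SR

open Finset

namespace Bad1L

theorem Pr_mono {Ω : Type} [Fintype Ω] {E F : Ω → Prop} (h : ∀ ω, E ω → F ω) : Pr E ≤ Pr F := by
  classical
  unfold Pr
  refine div_le_div_of_nonneg_right ?_ (Nat.cast_nonneg _)
  exact_mod_cast Finset.card_le_card (Finset.monotone_filter_right _ (fun ω _ => h ω))

theorem Pr_union {Ω : Type} [Fintype Ω] {ι : Type} (I : Finset ι) (E : ι → Ω → Prop) :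
    Pr (fun ω => ∃ i ∈ I, E i ω) ≤ ∑ i ∈ I, Pr (E i) := by
  classical
  unfold Pr
  rw [← Finset.sum_div]
  refine div_le_div_of_nonneg_right ?_ (Nat.cast_nonneg _)
  have h1 : (univ.filter (fun ω => ∃ i ∈ I, E i ω)).card ≤
      ∑ i ∈ I, (univ.filter (E i)).card := by
    refine (Finset.card_le_card ?_).trans Finset.card_biUnion_le
    intro ω hω
    obtain ⟨i, hi, hE⟩ := (Finset.mem_filter.1 hω).2
    exact Finset.mem_biUnion.2 ⟨i, hi, Finset.mem_filter.2 ⟨Finset.mem_univ _, hE⟩⟩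
  have h2 := (Nat.cast_le (α := ℝ)).2 h1
  rw [Nat.cast_sum] at h2
  refine le_trans (le_of_eq ?_) (le_trans h2 (le_of_eq ?_))
  · congr
  · refine Finset.sum_congr rfl fun i _ => ?_
    congr

/-- the witnesses with `x` agents, `f` connectors and `e` pairs -/
noncomputable def wit (N1 N2 x f e : ℕ) : Finset (Finset (Fin N1 × Fin N2)) :=
  open Classical in (powersetCard x (univ : Finset (Fin N2))).biUnion fun X =>
    (powersetCard f (univ : Finset (Fin N1))).biUnion fun F => powersetCard e (F ×ˢ X)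

theorem mem_wit {N1 N2 x f e : ℕ} {E : Finset (Fin N1 × Fin N2)} :
    E ∈ wit N1 N2 x f e ↔ ∃ X : Finset (Fin N2), X.card = x ∧ ∃ F : Finset (Fin N1),
      F.card = f ∧ E ⊆ F ×ˢ X ∧ E.card = e := by
  classical
  simp [wit, Finset.mem_powersetCard]

theorem card_wit (N1 N2 x f e : ℕ) :
    (wit N1 N2 x f e).card ≤ N2.choose x * (N1.choose f * (f * x).choose e) := by
  classical
  unfold wit
  have h1 : (powersetCard x (univ : Finset (Fin N2))).card = N2.choose x := by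
    rw [Finset.card_powersetCard, Finset.card_univ, Fintype.card_fin]
  have h2 : (powersetCard f (univ : Finset (Fin N1))).card = N1.choose f := by
    rw [Finset.card_powersetCard, Finset.card_univ, Fintype.card_fin]
  rw [← h1, ← h2]
  refine Finset.card_biUnion_le_card_mul _ _ _ fun X hX => ?_
  refine Finset.card_biUnion_le_card_mul _ _ _ fun F hF => ?_
  rw [Finset.card_powersetCard, Finset.card_product, (Finset.mem_powersetCard.1 hX).2,
    (Finset.mem_powersetCard.1 hF).2]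

/-- a bad pair `(X, F)` gives a witness -/
theorem exists_wit {N1 N2 : ℕ} (S : Fin N1 → Finset (Fin N2)) (X : Finset (Fin N2))
    (F : Finset (Fin N1)) {f e : ℕ} (hF : F.card ≤ f) (hf : f ≤ N1)
    (h : e ≤ ∑ u ∈ F, ((S u) ∩ X).card) :
    ∃ E ∈ wit N1 N2 X.card f e, ∀ p ∈ E, p.2 ∈ S p.1 := by
  classical
  obtain ⟨F', hFF, hF'⟩ := Finset.exists_superset_card_eq hF
    (by rw [Fintype.card_fin]; exact hf)
  have h1 : e ≤ ((F' ×ˢ X).filter (fun p => p.2 ∈ S p.1)).card := by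
    have h2 : ((F' ×ˢ X).filter (fun p => p.2 ∈ S p.1)).card = ∑ u ∈ F', ((S u) ∩ X).card := by
      rw [Finset.card_filter, Finset.sum_product]
      refine Finset.sum_congr rfl fun u _ => ?_
      rw [← Finset.card_filter]
      show (X.filter (fun w => w ∈ S u)).card = _
      rw [Finset.filter_mem_eq_inter, Finset.inter_comm]
    rw [h2]
    exact h.trans (Finset.sum_le_sum_of_subset hFF)
  obtain ⟨E, hE, hEc⟩ := Finset.exists_subset_card_eq h1
  refine ⟨E, mem_wit.2 ⟨X, rfl, F', hF', fun p hp => (Finset.mem_filter.1 (hE hp)).1, hEc⟩,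
    fun p hp => (Finset.mem_filter.1 (hE hp)).2⟩

theorem geo (n : ℕ) : ∑ x ∈ Icc 1 n, (1 / 8 : ℝ) ^ x ≤ 1 / 7 - 1 / 7 * (1 / 8) ^ n := by
  induction n with
  | zero => simp
  | succ n ih =>
    rw [Finset.sum_Icc_succ_top (by omega)]
    have h1 : (1 / 8 : ℝ) ^ (n + 1) = (1 / 8) * (1 / 8) ^ n := by rw [pow_succ]; ring
    rw [h1]
    linarith

theorem geo' (n : ℕ) : ∑ x ∈ Icc 1 n, (1 / 8 : ℝ) ^ x ≤ 1 / 4 := by
  have h1 := geo n
  have h2 : (0 : ℝ) < (1 / 8) ^ n := by positivity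
  linarith

end Bad1L

open Bad1L in
theorem bad1 (h1 : S_WIT) (h2 : S_NUM1) : S_BAD1 := by
  classical
  intro r l L D d hp
  set N1 : ℕ := B * r * L * D with hN1
  set N2 : ℕ := B * r * L * d with hN2
  set s : ℕ := B * r * l * d with hs
  set h : ℕ := 2 ^ 18 * l * D with hh
  have hr0 : 0 < r := by have := hp.hr; omega
  have hL0 : 0 < L := lt_of_lt_of_le hp.hl hp.hlL
  have hd0 : 0 < d := hp.hd
  have hB0 : 0 < B := by unfold B; positivity
  have hsN : s ≤ N2 := by
    rw [hs, hN2]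
    exact Nat.mul_le_mul_right _ (Nat.mul_le_mul_left _ hp.hlL)
  have hratio : (s : ℝ) / N2 = (l : ℝ) / L := by
    rw [hs, hN2]
    push_cast
    have e1 : (B : ℝ) ≠ 0 := by exact_mod_cast hB0.ne'
    have e2 : (r : ℝ) ≠ 0 := by exact_mod_cast hr0.ne'
    have e3 : (d : ℝ) ≠ 0 := by exact_mod_cast hd0.ne'
    have e4 : (L : ℝ) ≠ 0 := by exact_mod_cast hL0.ne'
    field_simp
  -- the union over `x`
  have key : ∀ S : Om N1 N2 s, ¬ P1 L D h (fun u => (S u).1) →
      ∃ x ∈ Icc 1 (6 * L), ∃ E ∈ wit N1 N2 x (9 * D * x) (h * x), ∀ p ∈ E, p.2 ∈ (S p.1).1 := by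
    intro S hS
    unfold P1 at hS
    push Not at hS
    obtain ⟨X, F, hX, hX6, hF, hge⟩ := hS
    refine ⟨X.card, Finset.mem_Icc.2 ⟨Finset.card_pos.2 hX, hX6⟩, ?_⟩
    refine exists_wit (fun u => (S u).1) X F hF ?_ hge
    calc 9 * D * X.card ≤ 9 * D * (6 * L) := Nat.mul_le_mul_left _ hX6
      _ = 54 * (L * D) := by ring
      _ ≤ (B * r) * (L * D) := Nat.mul_le_mul_right _ (by
          calc 54 ≤ B := by unfold B; norm_num
            _ = B * 1 := (mul_one _).symm
            _ ≤ B * r := Nat.mul_le_mul_left _ hr0)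
      _ = N1 := by rw [hN1]; ring
  calc Pr (fun S : Om N1 N2 s => ¬ P1 L D h (fun u => (S u).1))
      ≤ Pr (fun S : Om N1 N2 s => ∃ x ∈ Icc 1 (6 * L),
          ∃ E ∈ wit N1 N2 x (9 * D * x) (h * x), ∀ p ∈ E, p.2 ∈ (S p.1).1) := Pr_mono key
    _ ≤ ∑ x ∈ Icc 1 (6 * L), Pr (fun S : Om N1 N2 s =>
          ∃ E ∈ wit N1 N2 x (9 * D * x) (h * x), ∀ p ∈ E, p.2 ∈ (S p.1).1) := Pr_union _ _
    _ ≤ ∑ x ∈ Icc 1 (6 * L), (1 / 8 : ℝ) ^ x := by
        refine Finset.sum_le_sum fun x hx => ?_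
        obtain ⟨hx1, hx6⟩ := Finset.mem_Icc.1 hx
        have h3 := h1 N1 N2 s (h * x) (wit N1 N2 x (9 * D * x) (h * x)) hsN (fun E hE => by
          obtain ⟨_, _, _, _, _, hE⟩ := mem_wit.1 hE
          exact hE)
        refine h3.trans ?_
        rw [hratio]
        have h4 : ((wit N1 N2 x (9 * D * x) (h * x)).card : ℝ) ≤
            ((N2.choose x : ℕ) : ℝ) * ((N1.choose (9 * D * x) : ℕ) : ℝ) *
              (((9 * D * x * x).choose (h * x) : ℕ) : ℝ) := by
          have h5 := card_wit N1 N2 x (9 * D * x) (h * x)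
          rw [← mul_assoc] at h5
          exact_mod_cast h5
        refine le_trans (mul_le_mul_of_nonneg_right h4 (by positivity)) ?_
        exact h2 r l L D d x hp hx1 hx6
    _ ≤ 1 / 4 := geo' _

end Pool.Agent.H973.SR
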