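import Pool.Agent.H973.SR.Stm2

/-! Leaf Bad2 of project SR (helper973), by helper286. -/

set_option autoImplicit false

namespace Pool.Agent.H973.SR

open Finset

namespace Bad2L

theorem Pr_mono {Ω : Type} [Fintype Ω] {E F : Ω → Prop} (h : ∀ ω, E ω → F ω) : Pr E ≤ Pr F := by
  classical
  unfold Pr
  refine div_le_div_of_nonneg_right ?_ (Nat.cast_nonneg _)
  have : (univ.filter E).card ≤ (univ.filter F).card :=
    card_le_card fun ω hω => by
      rw [mem_filter] at hω ⊢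
      exact ⟨hω.1, h ω hω.2⟩
  exact_mod_cast this

theorem Pr_union {Ω ι : Type} [Fintype Ω] (I : Finset ι) (F : ι → Ω → Prop) :
    Pr (fun ω => ∃ i ∈ I, F i ω) ≤ ∑ i ∈ I, Pr (F i) := by
  classical
  unfold Pr
  rw [← sum_div]
  refine div_le_div_of_nonneg_right ?_ (Nat.cast_nonneg _)
  rw [← Nat.cast_sum]
  refine Nat.cast_le.2 ((card_le_card fun ω hω => ?_).trans card_biUnion_le)
  obtain ⟨_, i, hi, hF⟩ := (@Finset.mem_filter _ _ (fun a => Classical.propDecidable _) _ _).1 hω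
  exact mem_biUnion.2 ⟨i, hi, mem_filter.2 ⟨mem_univ _, hF⟩⟩

theorem geo (n : ℕ) : ∑ x ∈ Icc 1 n, (1 / 8 : ℝ) ^ x ≤ 1 / 4 := by
  have h : ∀ n : ℕ, ∑ x ∈ Icc 1 n, (1 / 8 : ℝ) ^ x = 1 / 7 - 1 / 7 * (1 / 8 : ℝ) ^ n := by
    intro n
    induction n with
    | zero => simp
    | succ n ih =>
      rw [Finset.sum_Icc_succ_top (by omega), ih, pow_succ]
      ring
  rw [h n]
  have : (0 : ℝ) ≤ (1 / 8 : ℝ) ^ n := by positivity
  linarith

open Classical in
/-- the witnesses for given `x`, `y`, `k` -/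
noncomputable def Wf (N1 N2 x y k : ℕ) : Finset (Finset (Fin N1 × Fin N2)) :=
  ((powersetCard x (univ : Finset (Fin N1))) ×ˢ (powersetCard y (univ : Finset (Fin N2)))).biUnion
    fun p => powersetCard k (p.1 ×ˢ p.2)

theorem Wf_card (N1 N2 x y k : ℕ) :
    (Wf N1 N2 x y k).card ≤ N1.choose x * N2.choose y * (y * x).choose k := by
  classical
  unfold Wf
  refine card_biUnion_le.trans ?_
  have h1 : ∀ p ∈ (powersetCard x (univ : Finset (Fin N1))) ×ˢ
      (powersetCard y (univ : Finset (Fin N2))),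
      (powersetCard k (p.1 ×ˢ p.2)).card = (y * x).choose k := by
    intro p hp
    rw [mem_product, mem_powersetCard, mem_powersetCard] at hp
    rw [card_powersetCard, card_product, hp.1.2, hp.2.2, mul_comm x y]
  rw [sum_congr rfl h1, sum_const, card_product, card_powersetCard, card_powersetCard, card_univ,
    card_univ, Fintype.card_fin, Fintype.card_fin, smul_eq_mul]

theorem Wf_mem_card {N1 N2 x y k : ℕ} : ∀ E ∈ Wf N1 N2 x y k, E.card = k := by
  classical
  intro E hE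
  unfold Wf at hE
  obtain ⟨p, _, hp⟩ := mem_biUnion.1 hE
  exact (mem_powersetCard.1 hp).2

/-- a violation gives a witness -/
theorem wit_ex {N1 N2 : ℕ} (S : Fin N1 → Finset (Fin N2)) (X : Finset (Fin N1))
    (Y : Finset (Fin N2)) (y k : ℕ) (hY : Y.card ≤ y) (hy : y ≤ N2)
    (hk : k ≤ ∑ u ∈ X, ((S u) ∩ Y).card) :
    ∃ E ∈ Wf N1 N2 X.card y k, ∀ p ∈ E, p.2 ∈ S p.1 := by
  classical
  obtain ⟨Y', hYY, hY'⟩ := Finset.exists_superset_card_eq hY (by rwa [Fintype.card_fin])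
  have h1 : k ≤ ((X ×ˢ Y').filter fun p => p.2 ∈ S p.1).card := by
    refine hk.trans ?_
    rw [card_filter, sum_product]
    refine sum_le_sum fun u _ => ?_
    rw [← card_filter]
    refine card_le_card fun w hw => ?_
    rw [mem_inter] at hw
    rw [mem_filter]
    exact ⟨hYY hw.2, hw.1⟩
  obtain ⟨E, hE, hEk⟩ := Finset.exists_subset_card_eq h1
  refine ⟨E, ?_, fun p hp => (mem_filter.1 (hE hp)).2⟩
  unfold Wf
  rw [mem_biUnion]
  refine ⟨(X, Y'), ?_, ?_⟩
  · rw [mem_product, mem_powersetCard, mem_powersetCard]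
    exact ⟨⟨subset_univ _, rfl⟩, subset_univ _, hY'⟩
  · rw [mem_powersetCard]
    exact ⟨hE.trans (filter_subset _ _), hEk⟩

end Bad2L

open Bad2L in
theorem bad2 (h1 : S_WIT) (h2 : S_NUM2) : S_BAD2 := by
  classical
  intro r l L D d hP hD
  have hL : 1 ≤ L := hP.hl.trans hP.hlL
  have hLr : (0 : ℝ) < L := by exact_mod_cast hL
  have hB : (0 : ℝ) < (B : ℕ) := by unfold B; positivity
  have hB8 : 8 ≤ B := by unfold B; norm_num
  have hrr : (0 : ℝ) < r := by exact_mod_cast (by have := hP.hr; omega : 0 < r)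
  have hdr : (0 : ℝ) < d := by exact_mod_cast (by have := hP.hd; omega : 0 < d)
  set N1 := B * r * L * D with hN1
  set N2 := B * r * L * d with hN2
  set s := B * r * l * d with hs
  have hsN : s ≤ N2 := Nat.mul_le_mul_right _ (Nat.mul_le_mul_left _ hP.hlL)
  have hratio : (s : ℝ) / N2 = (l : ℝ) / L := by
    rw [hs, hN2]
    push_cast
    field_simp
  have hy : ∀ x, x ≤ 4 * L → 2 * d * x ≤ N2 := by
    intro x hx
    calc 2 * d * x ≤ 2 * d * (4 * L) := Nat.mul_le_mul_left _ hx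
      _ = 8 * 1 * L * d := by ring
      _ ≤ B * r * L * d := by
          have := hP.hr
          gcongr
          omega
  have hmono : Pr (fun S : Om N1 N2 s => ¬ P2 L d (2 ^ 18 * l * d) (fun u => (S u).1)) ≤
      Pr (fun S : Om N1 N2 s => ∃ x ∈ Icc 1 (4 * L),
        ∃ E ∈ Wf N1 N2 x (2 * d * x) (2 ^ 18 * l * d * x), ∀ p ∈ E, p.2 ∈ (S p.1).1) := by
    refine Pr_mono fun S hS => ?_
    unfold P2 at hS
    push Not at hS
    obtain ⟨X, Y, hX, hXc, hYc, hsum⟩ := hS
    refine ⟨X.card, mem_Icc.2 ⟨hX.card_pos, hXc⟩, ?_⟩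
    exact wit_ex (fun u => (S u).1) X Y _ _ hYc (hy _ hXc) hsum
  refine hmono.trans ((Pr_union _ _).trans ((sum_le_sum fun x hx => ?_).trans (geo (4 * L))))
  rw [mem_Icc] at hx
  refine (h1 N1 N2 s (2 ^ 18 * l * d * x) _ hsN Wf_mem_card).trans ?_
  rw [hratio]
  refine le_trans ?_ (h2 r l L D d x hP hD hx.1 hx.2)
  refine mul_le_mul_of_nonneg_right ?_ (by positivity)
  have h3 := Wf_card N1 N2 x (2 * d * x) (2 ^ 18 * l * d * x)
  exact_mod_cast h3

end Pool.Agent.H973.SR
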