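import Pool.Agent.H973.SR.Stm2

/-!
# Probability of the bad event 3 (witness counting)
-/

namespace Pool.Agent.H973.SR

open Finset

namespace Bad3L

open Classical in
lemma pr_union {Ω ι : Type} [Fintype Ω] (t : Finset ι) (A : Ω → Prop) (E : ι → Ω → Prop)
    (h : ∀ ω, A ω → ∃ i ∈ t, E i ω) : Pr A ≤ ∑ i ∈ t, Pr (E i) := by
  unfold Pr
  rw [← Finset.sum_div]
  apply div_le_div_of_nonneg_right _ (Nat.cast_nonneg _)
  rw [← Nat.cast_sum]
  norm_cast
  refine le_trans (Finset.card_le_card (t := t.biUnion fun i => univ.filter (E i)) ?_)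
    Finset.card_biUnion_le
  intro ω hω
  simp only [mem_filter, mem_univ, true_and] at hω
  obtain ⟨i, hi, hE⟩ := h ω hω
  simp only [mem_biUnion, mem_filter, mem_univ, true_and]
  exact ⟨i, hi, hE⟩

lemma geom (m : ℕ) : ∑ x ∈ Icc 1 m, ((1 : ℝ) / 8) ^ x ≤ 1 / 4 := by
  have h : ∑ x ∈ Icc 1 m, ((1 : ℝ) / 8) ^ x = (1 - (1 / 8) ^ m) / 7 := by
    induction m with
    | zero => simp
    | succ k ih =>
      rw [Finset.sum_Icc_succ_top (by omega), ih, pow_succ]
      ring
  rw [h]
  have : (0 : ℝ) ≤ (1 / 8) ^ m := by positivity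
  linarith

/-- index data of the witnesses -/
def Z (N1 N2 x y f k : ℕ) : Finset (Σ t : Finset (Fin N2) × Finset (Fin N2) × Finset (Fin N1),
    ((u : Fin N1) → u ∈ t.2.2 → Fin N2 × Finset (Fin N2))) :=
  ((powersetCard x univ) ×ˢ ((powersetCard y univ) ×ˢ (powersetCard f univ))).sigma
    (fun t => t.2.2.pi (fun _ => t.1 ×ˢ powersetCard k t.2.1))

lemma card_Z (N1 N2 x y f k : ℕ) :
    (Z N1 N2 x y f k).card = N2.choose x * N2.choose y * N1.choose f * (x * y.choose k) ^ f := by
  unfold Z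
  rw [Finset.card_sigma]
  have : ∀ t ∈ (powersetCard x (univ : Finset (Fin N2))) ×ˢ
      ((powersetCard y (univ : Finset (Fin N2))) ×ˢ (powersetCard f (univ : Finset (Fin N1)))),
      (t.2.2.pi (fun _ => t.1 ×ˢ powersetCard k t.2.1)).card = (x * y.choose k) ^ f := by
    intro t ht
    simp only [mem_product, mem_powersetCard] at ht
    rw [Finset.card_pi]
    simp only [card_product, card_powersetCard, ht.1.2, ht.2.1.2, prod_const, ht.2.2.2]
  rw [Finset.sum_congr rfl this]
  simp only [sum_const, card_product, card_powersetCard, card_univ, Fintype.card_fin, smul_eq_mul]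
  ring

open Classical in
/-- the witness of an index -/
noncomputable def Em {N1 N2 : ℕ} (z : Σ t : Finset (Fin N2) × Finset (Fin N2) × Finset (Fin N1),
    ((u : Fin N1) → u ∈ t.2.2 → Fin N2 × Finset (Fin N2))) : Finset (Fin N1 × Fin N2) :=
  univ.filter (fun p => ∃ h : p.1 ∈ z.1.2.2, p.2 = (z.2 p.1 h).1 ∨ p.2 ∈ (z.2 p.1 h).2)

open Classical in
/-- the witness family -/
noncomputable def Wit (N1 N2 x y f k m : ℕ) : Finset (Finset (Fin N1 × Fin N2)) :=
  ((Z N1 N2 x y f k).image Em).filter (fun E => E.card = m)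

lemma card_Wit (N1 N2 x y f k m : ℕ) : (Wit N1 N2 x y f k m).card ≤
    N2.choose x * N2.choose y * N1.choose f * (x * y.choose k) ^ f := by
  unfold Wit
  exact (Finset.card_filter_le _ _).trans (Finset.card_image_le.trans (card_Z N1 N2 x y f k).le)

open Classical in
/-- existence of a witness -/
lemma exists_wit {N1 N2 : ℕ} (S : Fin N1 → Finset (Fin N2)) (X Y : Finset (Fin N2))
    (F : Finset (Fin N1)) (q : ℕ) (hq : 1 ≤ q)
    (hF : ∀ u ∈ F, (S u ∩ X).Nonempty ∧ q ≤ (S u ∩ Y).card) :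
    ∃ E ∈ Wit N1 N2 X.card Y.card F.card (q - 1) (q * F.card), ∀ p ∈ E, p.2 ∈ S p.1 := by
  have h1 : ∀ u ∈ F, ∃ w ∈ S u ∩ X, ∃ T ⊆ (S u ∩ Y).erase w, T.card = q - 1 := by
    intro u hu
    obtain ⟨⟨w, hw⟩, hc⟩ := hF u hu
    refine ⟨w, hw, ?_⟩
    apply Finset.exists_subset_card_eq
    have := Finset.pred_card_le_card_erase (s := S u ∩ Y) (a := w)
    omega
  choose w hw T hT hTc using h1
  have hwT : ∀ u (hu : u ∈ F), w u hu ∉ T u hu := fun u hu h => by
    have := hT u hu h
    simp at this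
  set z : Σ t : Finset (Fin N2) × Finset (Fin N2) × Finset (Fin N1),
    ((u : Fin N1) → u ∈ t.2.2 → Fin N2 × Finset (Fin N2)) :=
      ⟨(X, Y, F), fun u hu => (w u hu, T u hu)⟩ with hz
  have hEm : ∀ p : Fin N1 × Fin N2, p ∈ Em z ↔
      ∃ h : p.1 ∈ F, (p.2 = w p.1 h ∨ p.2 ∈ T p.1 h) := by
    intro p
    unfold Em
    simp only [mem_filter, mem_univ, true_and]
    exact Iff.rfl
  have hcard : (Em z).card = q * F.card := by
    have : Em z = (F.attach.sigma (fun u => insert (w u.1 u.2) (T u.1 u.2))).image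
        (fun s => (s.1.1, s.2)) := by
      ext p
      rw [hEm]
      simp only [mem_image, mem_sigma, mem_insert, mem_attach, true_and]
      constructor
      · rintro ⟨h, h'⟩
        exact ⟨⟨⟨p.1, h⟩, p.2⟩, h', rfl⟩
      · rintro ⟨⟨⟨a, ha⟩, b⟩, h', rfl⟩
        exact ⟨ha, h'⟩
    rw [this, Finset.card_image_of_injOn]
    · rw [Finset.card_sigma]
      have : ∀ u ∈ F.attach, (insert (w u.1 u.2) (T u.1 u.2)).card = q := by
        intro u _
        rw [Finset.card_insert_of_notMem (hwT u.1 u.2), hTc u.1 u.2]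
        omega
      rw [Finset.sum_congr rfl this, sum_const, card_attach, smul_eq_mul, mul_comm]
    · rintro ⟨⟨a, ha⟩, b⟩ _ ⟨⟨a', ha'⟩, b'⟩ _ h
      simp only [Prod.mk.injEq] at h
      obtain ⟨rfl, rfl⟩ := h
      rfl
  refine ⟨Em z, ?_, ?_⟩
  · unfold Wit
    rw [mem_filter, mem_image]
    refine ⟨⟨z, ?_, rfl⟩, hcard⟩
    unfold Z
    simp only [hz, mem_sigma, mem_product, mem_powersetCard, subset_univ, true_and, mem_pi,
      and_self]
    intro u hu
    refine ⟨(mem_inter.1 (hw u hu)).2, ?_, hTc u hu⟩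
    intro a ha
    have := hT u hu ha
    exact (mem_inter.1 (mem_of_mem_erase this)).2
  · intro p hp
    rw [hEm] at hp
    obtain ⟨hu, h | h⟩ := hp
    · rw [h]
      exact (mem_inter.1 (hw _ hu)).1
    · exact (mem_inter.1 (mem_of_mem_erase (hT _ hu h))).1

/-- the deterministic part -/
lemma det {N1 N2 L D d q : ℕ} (S : Fin N1 → Finset (Fin N2)) (hD : 4 ≤ D) (hL : 1 ≤ L) (hq : 1 ≤ q)
    (hN2 : 3 * L * d ≤ N2) (h4 : P4 L D S) (h3 : ¬ P3 L D d q S) :
    ∃ x ∈ Icc 1 (L + 1), ∃ E ∈ Wit N1 N2 x (min (24 * D * d * x) (3 * L * d)) ((D / 4) * x)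
      (q - 1) (q * ((D / 4) * x)), ∀ p ∈ E, p.2 ∈ S p.1 := by
  classical
  unfold P3 at h3
  push Not at h3
  obtain ⟨X0, Y0, hX0, hY0, hY0', hdeg0⟩ := h3
  -- reduction to small `X`
  obtain ⟨X, hXX0, hX1, hXs, hXY⟩ : ∃ X ⊆ X0, 1 ≤ X.card ∧ (X.card = 1 ∨ 4 * D * X.card ≤ L) ∧
      Y0.card ≤ 24 * D * d * X.card := by
    by_cases hc : X0.card = 1 ∨ 4 * D * X0.card ≤ L
    · exact ⟨X0, Subset.rfl, hX0.card_pos, hc, hY0⟩
    · push Not at hc
      obtain ⟨hc1, hc2⟩ := hc
      have hX2 : 2 ≤ X0.card := by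
        have := hX0.card_pos
        omega
      by_cases hLD : L ≤ 8 * D
      · obtain ⟨X, hX, hXc⟩ := Finset.exists_subset_card_eq (s := X0) (n := 1) (by omega)
        refine ⟨X, hX, by omega, Or.inl hXc, ?_⟩
        rw [hXc]
        calc Y0.card ≤ 3 * L * d := hY0'
          _ ≤ 3 * (8 * D) * d := by gcongr
          _ = 24 * D * d * 1 := by ring
      · push Not at hLD
        -- n = L / (8 D) + 1
        set n := L / (8 * D) + 1 with hn
        have hn1 : L ≤ 8 * D * n := by
          rw [hn]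
          have := Nat.lt_mul_div_succ L (show 0 < 8 * D by omega)
          have h2 : 8 * D * (L / (8 * D) + 1) = 8 * D * (L / (8 * D)).succ := rfl
          rw [h2]
          exact this.le
        have hn2 : 4 * D * n ≤ L := by
          rw [hn]
          have h2 : 8 * D * (L / (8 * D)) ≤ L := Nat.mul_div_le L (8 * D)
          have h3 : 1 ≤ L / (8 * D) := (Nat.one_le_div_iff (by omega)).2 hLD.le
          nlinarith
        have hn0 : 1 ≤ n := by
          rw [hn]
          exact Nat.le_add_left 1 _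
        have hn3 : n ≤ X0.card := by
          by_contra hlt
          push Not at hlt
          have : 4 * D * X0.card ≤ 4 * D * n := by gcongr
          omega
        obtain ⟨X, hX, hXc⟩ := Finset.exists_subset_card_eq hn3
        refine ⟨X, hX, by omega, Or.inr (by rw [hXc]; exact hn2), ?_⟩
        rw [hXc]
        calc Y0.card ≤ 3 * L * d := hY0'
          _ ≤ 3 * (8 * D * n) * d := by gcongr
          _ = 24 * D * d * n := by ring
  -- extend `Y`
  obtain ⟨Y, hY0Y, hYc⟩ : ∃ Y, Y0 ⊆ Y ∧ Y.card = min (24 * D * d * X.card) (3 * L * d) := by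
    obtain ⟨Y, h1, -, h2⟩ := Finset.exists_subsuperset_card_eq (s := Y0)
      (t := (univ : Finset (Fin N2))) (n := min (24 * D * d * X.card) (3 * L * d))
      (subset_univ _) (le_min hXY hY0') (by
        rw [card_univ, Fintype.card_fin]
        exact (min_le_right _ _).trans hN2)
    exact ⟨Y, h1, h2⟩
  -- the set `F`
  set F := univ.filter (fun u => (S u ∩ X).Nonempty ∧ q ≤ (S u ∩ Y).card) with hFdef
  have hsum : D * X.card ≤ ∑ u ∈ F, (S u ∩ X).card := by
    have h1 : ∑ u ∈ F, (S u ∩ X).card = ∑ w ∈ X, (F.filter (fun u => w ∈ S u)).card := by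
      have : ∀ u ∈ F, (S u ∩ X).card = ∑ w ∈ X, if w ∈ S u then 1 else 0 := by
        intro u _
        rw [inter_comm, ← Finset.filter_mem_eq_inter, Finset.card_filter]
      rw [Finset.sum_congr rfl this, Finset.sum_comm]
      refine Finset.sum_congr rfl fun w _ => ?_
      rw [Finset.card_filter]
    rw [h1, mul_comm, ← smul_eq_mul]
    apply Finset.card_nsmul_le_sum
    intro w hw
    refine (hdeg0 w (hXX0 hw)).trans (Finset.card_le_card ?_)
    intro u hu
    simp only [mem_filter, mem_univ, true_and] at hu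
    simp only [mem_filter, hFdef, mem_univ, true_and]
    refine ⟨⟨⟨w, mem_inter.2 ⟨hu.1, hw⟩⟩, hu.2.trans (Finset.card_le_card ?_)⟩, hu.1⟩
    exact inter_subset_inter Subset.rfl hY0Y
  have hFc : (D / 4) * X.card ≤ F.card := by
    by_contra hlt
    push Not at hlt
    rcases hXs with h | h
    · -- `|X| = 1`
      have h1 : ∑ u ∈ F, (S u ∩ X).card ≤ F.card := by
        calc ∑ u ∈ F, (S u ∩ X).card ≤ ∑ u ∈ F, 1 := by
              refine Finset.sum_le_sum fun u _ => ?_
              exact (Finset.card_le_card inter_subset_right).trans h.le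
          _ = F.card := by simp
      rw [h] at hsum hlt
      have : D / 4 ≤ D := Nat.div_le_self _ _
      omega
    · by_cases hX2 : 2 ≤ X.card
      · have := h4 X F hX2 h hlt.le
        omega
      · have hx1 : X.card = 1 := by omega
        have h1 : ∑ u ∈ F, (S u ∩ X).card ≤ F.card := by
          calc ∑ u ∈ F, (S u ∩ X).card ≤ ∑ u ∈ F, 1 := by
                refine Finset.sum_le_sum fun u _ => ?_
                exact (Finset.card_le_card inter_subset_right).trans hx1.le
            _ = F.card := by simp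
        rw [hx1] at hsum hlt
        have : D / 4 ≤ D := Nat.div_le_self _ _
        omega
  obtain ⟨F0, hF0, hF0c⟩ := Finset.exists_subset_card_eq hFc
  obtain ⟨E, hE, hES⟩ := exists_wit S X Y F0 q hq (fun u hu => by
    have := hF0 hu
    simp only [hFdef, mem_filter, mem_univ, true_and] at this
    exact this)
  refine ⟨X.card, ?_, E, ?_, hES⟩
  · rw [mem_Icc]
    refine ⟨hX1, ?_⟩
    rcases hXs with h | h
    · omega
    · have : X.card ≤ 4 * D * X.card := Nat.le_mul_of_pos_left _ (by omega)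
      omega
  · rw [← hYc, ← hF0c]
    exact hE

end Bad3L

theorem bad3 (h1 : S_WIT) (h2 : S_NUM3) : S_BAD3 := by
  intro r l L D d hp hD
  have hr := hp.hr
  have hl := hp.hl
  have hlL := hp.hlL
  have hd := hp.hd
  have hL : 1 ≤ L := hl.trans hlL
  have hD4 : 4 ≤ D := by
    have : 1 ≤ r ^ 4 := Nat.one_le_pow _ _ (by omega)
    have : 2 ^ 60 * 1 ≤ 2 ^ 60 * r ^ 4 := by gcongr
    norm_num at this
    omega
  have hq : 1 ≤ 2 ^ 16 * l * d := by
    have : 1 * 1 * 1 ≤ 2 ^ 16 * l * d := by gcongr; norm_num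
    simpa using this
  have hN2 : 3 * L * d ≤ B * r * L * d := by
    have : 3 ≤ B * r := by
      unfold B
      have : 2 ^ 20 * 2 ≤ 2 ^ 20 * r := by gcongr
      omega
    calc 3 * L * d ≤ (B * r) * L * d := by gcongr
      _ = B * r * L * d := rfl
  refine (Bad3L.pr_union (Icc 1 (L + 1)) _ (fun x S => ∃ E ∈ Bad3L.Wit (B * r * L * D)
    (B * r * L * d) x (min (24 * D * d * x) (3 * L * d)) ((D / 4) * x)
      (2 ^ 16 * l * d - 1) (2 ^ 16 * l * d * ((D / 4) * x)), ∀ p ∈ E, p.2 ∈ (S p.1).1) ?_).trans ?_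
  · rintro S ⟨h4, h3⟩
    exact Bad3L.det (fun u => (S u).1) hD4 hL hq hN2 h4 h3
  · refine le_trans (Finset.sum_le_sum (fun x hx => ?_)) (Bad3L.geom (L + 1))
    rw [mem_Icc] at hx
    refine le_trans (h1 (B * r * L * D) (B * r * L * d) (B * r * l * d)
      (2 ^ 16 * l * d * ((D / 4) * x)) (Bad3L.Wit (B * r * L * D)
    (B * r * L * d) x (min (24 * D * d * x) (3 * L * d)) ((D / 4) * x)
      (2 ^ 16 * l * d - 1) (2 ^ 16 * l * d * ((D / 4) * x))) ?_ ?_) ?_
    · gcongr
    · intro E hE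
      exact (mem_filter.1 hE).2
    · have hs : (((B * r * l * d : ℕ) : ℝ) / ((B * r * L * d : ℕ) : ℝ)) = (l : ℝ) / L := by
        have hB : (0 : ℝ) < (B : ℝ) := by unfold B; positivity
        have hr0 : (0 : ℝ) < (r : ℝ) := by exact_mod_cast (by omega : 0 < r)
        have hd0 : (0 : ℝ) < (d : ℝ) := by exact_mod_cast (by omega : 0 < d)
        have hL0 : (0 : ℝ) < (L : ℝ) := by exact_mod_cast (by omega : 0 < L)
        push_cast
        field_simp
      rw [hs]
      refine le_trans ?_ (h2 r l L D d x hp hD hx.1)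
      refine mul_le_mul_of_nonneg_right ?_ (by positivity)
      have := Bad3L.card_Wit (B * r * L * D) (B * r * L * d) x (min (24 * D * d * x) (3 * L * d))
        ((D / 4) * x) (2 ^ 16 * l * d - 1) (2 ^ 16 * l * d * ((D / 4) * x))
      exact_mod_cast this

end Pool.Agent.H973.SR
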