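import Pool.Agent.H973.SR.Stm2

/-!
# Probability of the bad event 4
-/

namespace Pool.Agent.H973.SR

open Finset

namespace Bad4L

theorem Pr_mono {Ω : Type} [Fintype Ω] {E E' : Ω → Prop} (h : ∀ ω, E ω → E' ω) :
    Pr E ≤ Pr E' := by
  classical
  unfold Pr
  refine div_le_div_of_nonneg_right ?_ (Nat.cast_nonneg _)
  exact_mod_cast Finset.card_le_card fun ω hω => by
    rw [Finset.mem_filter] at hω ⊢
    exact ⟨hω.1, h ω hω.2⟩

theorem Pr_union {Ω : Type} [Fintype Ω] (s : Finset ℕ) (E : ℕ → Ω → Prop) :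
    Pr (fun ω => ∃ x ∈ s, E x ω) ≤ ∑ x ∈ s, Pr (E x) := by
  classical
  unfold Pr
  rw [← Finset.sum_div]
  refine div_le_div_of_nonneg_right ?_ (Nat.cast_nonneg _)
  rw [← Nat.cast_sum]
  refine Nat.cast_le.2 (le_trans (Finset.card_le_card ?_) Finset.card_biUnion_le)
  intro ω hω
  obtain ⟨_, x, hx, hE⟩ := (@Finset.mem_filter _ _ (_) _ _).1 hω
  rw [Finset.mem_biUnion]
  refine ⟨x, hx, ?_⟩
  rw [Finset.mem_filter]
  exact ⟨Finset.mem_univ _, hE⟩

theorem geo (n : ℕ) : ∑ x ∈ Finset.Ico 1 (n + 1), (1 / 8 : ℝ) ^ x = (1 - (1 / 8) ^ n) / 7 := by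
  induction n with
  | zero => simp
  | succ n ih =>
    rw [Finset.sum_Ico_succ_top (by omega), ih]
    ring

theorem geo_le (s : Finset ℕ) (n : ℕ) (hs : s ⊆ Finset.Ico 1 (n + 1)) :
    ∑ x ∈ s, (1 / 8 : ℝ) ^ x ≤ 1 / 4 := by
  refine (Finset.sum_le_sum_of_subset_of_nonneg hs fun _ _ _ => by positivity).trans ?_
  rw [geo]
  have : (0 : ℝ) ≤ (1 / 8) ^ n := by positivity
  linarith

/-- the family of witnesses -/
theorem fam (N1 N2 x f k : ℕ) : ∃ 𝒲 : Finset (Finset (Fin N1 × Fin N2)),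
    (∀ E ∈ 𝒲, E.card = k) ∧ 𝒲.card ≤ N2.choose x * (N1.choose f * (f * x).choose k) ∧
    ∀ (X : Finset (Fin N2)) (F : Finset (Fin N1)), X.card = x → F.card = f →
      ∀ S : Fin N1 → Finset (Fin N2), k ≤ ∑ u ∈ F, (S u ∩ X).card →
        ∃ E ∈ 𝒲, ∀ p ∈ E, p.2 ∈ S p.1 := by
  classical
  refine ⟨(Finset.powersetCard x univ).biUnion fun X => (Finset.powersetCard f univ).biUnion
    fun F => Finset.powersetCard k (F ×ˢ X), ?_, ?_, ?_⟩
  · intro E hE
    obtain ⟨X, _, hE⟩ := Finset.mem_biUnion.1 hE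
    obtain ⟨F, _, hE⟩ := Finset.mem_biUnion.1 hE
    exact (Finset.mem_powersetCard.1 hE).2
  · have h1 : (Finset.powersetCard x (univ : Finset (Fin N2))).card = N2.choose x := by
      rw [Finset.card_powersetCard, Finset.card_univ, Fintype.card_fin]
    have h2 : (Finset.powersetCard f (univ : Finset (Fin N1))).card = N1.choose f := by
      rw [Finset.card_powersetCard, Finset.card_univ, Fintype.card_fin]
    rw [← h1]
    refine Finset.card_biUnion_le_card_mul _ _ _ fun X hX => ?_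
    rw [← h2]
    refine Finset.card_biUnion_le_card_mul _ _ _ fun F hF => ?_
    rw [Finset.card_powersetCard, Finset.card_product, (Finset.mem_powersetCard.1 hX).2,
      (Finset.mem_powersetCard.1 hF).2]
  · intro X F hX hF S hS
    have hP : ((F ×ˢ X).filter fun p => p.2 ∈ S p.1).card = ∑ u ∈ F, (S u ∩ X).card := by
      rw [Finset.card_filter, Finset.sum_product]
      refine Finset.sum_congr rfl fun u _ => ?_
      rw [← Finset.card_filter]
      have h3 : (X.filter fun w => w ∈ S u) = X ∩ S u := Finset.filter_mem_eq_inter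
      rw [Finset.inter_comm, ← h3]
    rw [← hP] at hS
    obtain ⟨E, hE, hEk⟩ := Finset.exists_subset_card_eq hS
    refine ⟨E, ?_, fun p hp => (Finset.mem_filter.1 (hE hp)).2⟩
    refine Finset.mem_biUnion.2 ⟨X, Finset.mem_powersetCard.2 ⟨Finset.subset_univ _, hX⟩, ?_⟩
    refine Finset.mem_biUnion.2 ⟨F, Finset.mem_powersetCard.2 ⟨Finset.subset_univ _, hF⟩, ?_⟩
    exact Finset.mem_powersetCard.2 ⟨hE.trans (Finset.filter_subset _ _), hEk⟩

end Bad4L

open Bad4L in
theorem bad4 (h1 : S_WIT) (h2 : S_NUM4) : S_BAD4 := by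
  intro r l L D d hp hD
  have hr := hp.hr
  have hl := hp.hl
  have hlL := hp.hlL
  have hd := hp.hd
  have hdD := hp.hdD
  have hB : 0 < B := by unfold B; positivity
  have hs : B * r * l * d ≤ B * r * L * d := by gcongr
  have hfam := fun x => fam (B * r * L * D) (B * r * L * d) x ((D / 4) * x) (D * x)
  choose 𝒲 hW1 hW2 hW3 using hfam
  obtain ⟨s, hsd⟩ : ∃ s, s = (Finset.Ico 1 (L + 1)).filter fun x => 2 ≤ x ∧ 4 * D * x ≤ L :=
    ⟨_, rfl⟩
  have hfrac : ((B * r * l * d : ℕ) : ℝ) / ((B * r * L * d : ℕ) : ℝ) = (l : ℝ) / L := by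
    have a1 : (0 : ℝ) < (B : ℝ) := by exact_mod_cast hB
    have a2 : (0 : ℝ) < (r : ℝ) := by exact_mod_cast (by omega : 0 < r)
    have a3 : (0 : ℝ) < (d : ℝ) := by exact_mod_cast (by omega : 0 < d)
    have a4 : (0 : ℝ) < (L : ℝ) := by exact_mod_cast (by omega : 0 < L)
    push_cast
    field_simp
  calc Pr (fun S : Om (B * r * L * D) (B * r * L * d) (B * r * l * d) =>
        ¬ P4 L D (fun u => (S u).1))
      ≤ Pr (fun S : Om (B * r * L * D) (B * r * L * d) (B * r * l * d) =>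
          ∃ x ∈ s, ∃ E ∈ 𝒲 x, ∀ p ∈ E, p.2 ∈ (S p.1).1) := by
        refine Pr_mono fun S hS => ?_
        unfold P4 at hS
        push Not at hS
        obtain ⟨X, F, hX2, hXL, hF, hsum⟩ := hS
        have hXle : X.card ≤ L := by
          have : X.card * 1 ≤ X.card * (4 * D) := Nat.mul_le_mul_left _ (by omega)
          calc X.card = X.card * 1 := (mul_one _).symm
            _ ≤ X.card * (4 * D) := this
            _ = 4 * D * X.card := mul_comm _ _
            _ ≤ L := hXL
        have hcard : (D / 4) * X.card ≤ Fintype.card (Fin (B * r * L * D)) := by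
          rw [Fintype.card_fin]
          calc (D / 4) * X.card ≤ D * L := Nat.mul_le_mul (Nat.div_le_self _ _) hXle
            _ = 1 * 1 * L * D := by ring
            _ ≤ B * r * L * D := by
              gcongr <;> omega
        obtain ⟨F', hFF', hF'⟩ := Finset.exists_superset_card_eq hF hcard
        refine ⟨X.card, ?_, hW3 X.card X F' rfl hF' (fun u => (S u).1) (hsum.trans ?_)⟩
        · rw [hsd, Finset.mem_filter, Finset.mem_Ico]
          exact ⟨⟨by omega, by omega⟩, hX2, hXL⟩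
        · exact Finset.sum_le_sum_of_subset hFF'
    _ ≤ ∑ x ∈ s, Pr (fun S : Om (B * r * L * D) (B * r * L * d) (B * r * l * d) =>
          ∃ E ∈ 𝒲 x, ∀ p ∈ E, p.2 ∈ (S p.1).1) := Pr_union s _
    _ ≤ ∑ x ∈ s, (1 / 8 : ℝ) ^ x := by
        refine Finset.sum_le_sum fun x hx => ?_
        rw [hsd, Finset.mem_filter] at hx
        refine (h1 _ _ _ (D * x) (𝒲 x) hs (hW1 x)).trans ?_
        refine le_trans ?_ (h2 r l L D d x hp hD hx.2.1 hx.2.2)
        rw [hfrac]
        refine mul_le_mul_of_nonneg_right ?_ (by positivity)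
        have h3 := hW2 x
        have h4 : ((𝒲 x).card : ℝ) ≤ (((B * r * L * d).choose x *
            ((B * r * L * D).choose ((D / 4) * x) * ((D / 4) * x * x).choose (D * x)) : ℕ) : ℝ) := by
          exact_mod_cast h3
        refine h4.trans (le_of_eq ?_)
        push_cast
        ring
    _ ≤ 1 / 4 := geo_le s L (by rw [hsd]; exact Finset.filter_subset _ _)

end Pool.Agent.H973.SR
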