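import Mathlib

/-!
# Multicolour size-Ramsey numbers of trees (MP_366c56_co): statements of the project

Conventions.  `W` = type of AGENTS (locations for the tree vertices of the class of large degree
`D`), `C` = type of CONNECTORS (locations for the class of small degree `d`).  A bipartite graph is
a function `N : W → Finset C` (neighbours of an agent); `Nr N u` is the set of agents adjacent to
the connector `u`.
-/

namespace Pool.Agent.H973.SR

open Finset

/-- agents adjacent to the connector `u` -/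
def Nr {C W : Type} [Fintype W] [DecidableEq C] (N : W → Finset C) (u : C) : Finset W :=
  univ.filter (fun w => u ∈ N w)

/-- Friedman-Pippenger invariant of the one sided allocation process: `Z` = forbidden resources
(everything allocated so far and more), `a w` = number of resources allocated so far to `w`,
`b` = budget of each agent; only sets of at most `M` agents are considered. -/
def Good {α β : Type} [DecidableEq β] (N : α → Finset β) (b M : ℕ) (Z : Finset β) (a : α → ℕ) :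
    Prop :=
  ∀ X : Finset α, X.card ≤ M → b * X.card ≤ ((X.biUnion N) \ Z).card + ∑ w ∈ X, a w

/-- one step of the allocation process: at least `b - a w` resources may be given to `w`.
PROOF.  `F X := |N(X) \ Z| + a(X) - b |X| ≥ 0` for `|X| ≤ 2m`; call `X` tight if `|X| ≤ 2m` and
`F X = 0`.  If `m ≤ |X| ≤ 2m` then `|N(X) \ Z| ≥ (b+c)|X| - |Z| > b|X|` (as `|Z| < c m`), so tight
sets have `< m` elements, and the union of two tight sets is tight (submodularity
`F(X ∪ X') + F(X ∩ X') ≤ F X + F X'`, `|X ∪ X'| < 2m`).  Let `X*` be the union of all tight sets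
not containing `w` (a tight set not containing `w`, or `∅`; note `∅` is tight).
Let `S := (N w \ N(X*)) \ Z`.
`F(X* ∪ {w}) ≥ 0` and `F(X*) = 0` give `|S| ≥ b - a w`.  For `u ∈ S` the new state is good: for
`X ∋ w` the first term drops by at most one and `a(X)` grows by one; for `X ∌ w` either `u ∉ N(X)`
(nothing changes) or `u ∈ N(X)`, then `X` is not tight (else `X ⊆ X*`), so `F X ≥ 1`. -/
def S_FP : Prop :=
  ∀ (α β : Type) [Fintype α] [DecidableEq α] [DecidableEq β] (N : α → Finset β) (b c m : ℕ)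
    (Z : Finset β) (a : α → ℕ),
    (∀ X : Finset α, X.card ≤ 2 * m → (b + c) * X.card ≤ (X.biUnion N).card) →
    Z.card < c * m → Good N b (2 * m) Z a →
    ∀ w, a w < b → ∃ S ⊆ N w \ Z, b - a w ≤ S.card ∧
      ∀ u ∈ S, Good N b (2 * m) (insert u Z) (Function.update a w (a w + 1))

/-- `k` allocation steps for the same agent.  PROOF: induction on `k` with `S_FP`
(`Z ∪ insert u S = insert u (Z ∪ S)`, `Function.update_idem`). -/
def S_ALLOC : Prop :=
  ∀ (α β : Type) [Fintype α] [DecidableEq α] [DecidableEq β] (N : α → Finset β) (b c m k : ℕ)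
    (Z : Finset β) (a : α → ℕ),
    (∀ X : Finset α, X.card ≤ 2 * m → (b + c) * X.card ≤ (X.biUnion N).card) →
    Z.card + k ≤ c * m → Good N b (2 * m) Z a →
    ∀ w, a w + k ≤ b → ∃ S ⊆ N w \ Z, S.card = k ∧
      Good N b (2 * m) (Z ∪ S) (Function.update a w (a w + k))

/-- `d`-fold Hall theorem.  PROOF: Hall (`Finset.all_card_le_biUnion_card_iff_exists_injective`)
for the index type `{u // u ∈ Q} × Fin d`, sets `nb u`; `T u := image of {u} × Fin d`. -/
def S_HALLD : Prop :=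
  ∀ (γ β : Type) [DecidableEq γ] [DecidableEq β] (nb : γ → Finset β) (d : ℕ) (Q : Finset γ),
    (∀ V ⊆ Q, d * V.card ≤ (V.biUnion nb).card) →
    ∃ T : γ → Finset β, (∀ u ∈ Q, T u ⊆ nb u ∧ (T u).card = d) ∧
      ∀ u ∈ Q, ∀ v ∈ Q, u ≠ v → Disjoint (T u) (T v)

/-- Packing lemma.  Every agent `w ∈ A` owns the connectors `P w`; it needs `q w` of them, each with
`d` private children in `nb u`.
PROOF: induction on `∑ w ∈ A, |P w|`.  Put `U := A.biUnion P`,
`μ(V) := |nb(V)| - d |V|` for `V ⊆ U` (integer); let `U'` be a minimiser of `μ` over subsets of `U`.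
If `μ(U') ≥ 0`, `S_HALLD` for `Q = U` gives the result with `F = P`.
Otherwise (`U' ≠ ∅`) let `A' := {w ∈ A : |P w \ U'| < q w}`, `P' w := P w ∩ U'`,
`q' w := q w - |P w \ U'|`.  The hypothesis is inherited by `(A', P', q')` because for
`V w ⊆ P' w` with `|P' w| < |V w| + q' w` we have `|P w| < |V w| + q w`.  The sum decreases: else
`U' = A'.biUnion P'`, the hypothesis with `X = {w ∈ A' : P' w ≠ ∅}` and `V w = P' w` gives
`μ(U') ≥ 0`, contradiction (for `w ∈ A'`, `|P w| = |P w \ U'| + |P' w| < |P' w| + q w`).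
By induction we get `F'`, `T'` for `(A', P', q')`.  The set `U \ U'`
satisfies Hall's condition for the sets `nb u \ nb(U')`: for `V ⊆ U \ U'`,
`|nb(V) \ nb(U')| = |nb(V ∪ U')| - |nb(U')| ≥ d |V|` by minimality; so `S_HALLD` gives `T''`.  Put
`F w := (P w \ U') ∪ (F' w if w ∈ A' else ∅)`, `T := T''` outside `U'`, `T'` on `U'`.  The sets are
disjoint since `T' u ⊆ nb u ⊆ nb(U')` for `u ∈ U'`. -/
def S_PACK0 : Prop :=
  ∀ (α γ β : Type) [DecidableEq α] [DecidableEq γ] [DecidableEq β] (A : Finset α)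
    (P : α → Finset γ) (q : α → ℕ) (nb : γ → Finset β) (d : ℕ),
    (∀ w ∈ A, ∀ w' ∈ A, w ≠ w' → Disjoint (P w) (P w')) →
    (∀ w ∈ A, q w ≤ (P w).card) →
    (∀ X ⊆ A, X.Nonempty → ∀ V : α → Finset γ,
      (∀ w ∈ X, V w ⊆ P w ∧ (P w).card < (V w).card + q w) →
      d * (X.biUnion V).card ≤ ((X.biUnion V).biUnion nb).card) →
    ∃ (F : α → Finset γ) (T : γ → Finset β),
      (∀ w ∈ A, F w ⊆ P w ∧ q w ≤ (F w).card) ∧
      (∀ w ∈ A, ∀ u ∈ F w, T u ⊆ nb u ∧ (T u).card = d) ∧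
      (∀ w ∈ A, ∀ u ∈ F w, ∀ w' ∈ A, ∀ u' ∈ F w', u ≠ u' → Disjoint (T u) (T u'))

/-- the set `R` of children can be distributed over the connectors in `Q`, each connector getting
at most `d` of its neighbours -/
def Mat {γ β : Type} [DecidableEq β] (nb : γ → Finset β) (d : ℕ) (Q : Finset γ) (R : Finset β) :
    Prop :=
  ∃ T : γ → Finset β, (∀ u ∈ Q, T u ⊆ nb u ∧ (T u).card ≤ d) ∧
    (∀ u ∈ Q, ∀ v ∈ Q, u ≠ v → Disjoint (T u) (T v)) ∧ R ⊆ Q.biUnion T

/-- Hall's theorem for `Mat`.  PROOF: `→` counting.  `←`: Hall's theorem for the index type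
`{y // y ∈ R}` and the sets `{u ∈ Q : y ∈ nb u} × Fin d`. -/
def S_MATHALL : Prop :=
  ∀ (γ β : Type) [DecidableEq γ] [DecidableEq β] (nb : γ → Finset β) (d : ℕ)
    (Q : Finset γ) (R : Finset β),
    Mat nb d Q R ↔ ∀ S ⊆ R, S.card ≤ d * (Q.filter (fun u => ∃ y ∈ S, y ∈ nb u)).card

/-- Structure of an inclusion-maximal matchable set `R` (disjoint from `Z`).
PROOF.  For `S ⊆ R` let `Γ(S) := {u ∈ Q : ∃ y ∈ S, y ∈ nb u}`.  By `S_MATHALL` `|S| ≤ d |Γ(S)|`;
`S` is tight if equality holds; unions of tight sets are tight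
(`|S ∪ S'| = |S| + |S'| - |S ∩ S'| ≥ d|Γ(S)| + d|Γ(S')| - d|Γ(S ∩ S')| ≥ d|Γ(S ∪ S')|`).  If
`y ∉ Z ∪ R` then `insert y R` is not matchable, so some `S₁ ⊆ insert y R` has
`|S₁| > d |Γ(S₁)|`; necessarily `y ∈ S₁`, and with `S := S₁ \ {y}`:
`|S| + 1 > d |Γ(S₁)| ≥ d |Γ(S)| ≥ |S|`, hence `S` is tight and `Γ(S₁) = Γ(S)` (`d ≥ 1`), so all
`u ∈ Q` with `y ∈ nb u` are in `Γ(S)`.  Let `S*` be the union of all tight subsets of `R` (tight),
`Qg := Γ(S*)`.  Take the sets `T` of `Mat` for `R` (intersected with `S*`): the elements of `S*`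
are distributed over `Qg` with at most `d` for each; `|S*| = d |Qg|`, hence exactly `d` each.
For `u ∈ Q \ Qg`: `nb u \ Z ⊆ R` by the above and `nb u` is disjoint from `S*`. -/
def S_TIGHT : Prop :=
  ∀ (γ β : Type) [DecidableEq γ] [DecidableEq β] (nb : γ → Finset β) (d : ℕ)
    (Q : Finset γ) (Z R : Finset β),
    1 ≤ d → Disjoint R Z → Mat nb d Q R → (∀ y, y ∉ Z → y ∉ R → ¬ Mat nb d Q (insert y R)) →
    ∃ (Qg : Finset γ) (T : γ → Finset β) (S : Finset β), Qg ⊆ Q ∧ S ⊆ R ∧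
      (∀ u ∈ Qg, T u ⊆ nb u ∩ S ∧ (T u).card = d) ∧
      (∀ u ∈ Qg, ∀ v ∈ Qg, u ≠ v → Disjoint (T u) (T v)) ∧
      (∀ u ∈ Q, u ∉ Qg → nb u \ Z ⊆ R \ S)

/-- Packing inside a maximal matchable region `R`.
PROOF.  Let `Q := A.biUnion P` and apply `S_TIGHT` to get `Qg, Tg, S`.  Apply `S_PACK0` to
`A₁ := {w ∈ A : |P w ∩ Qg| < D}`, `P₁ w := P w \ Qg`, `q w := D - |P w ∩ Qg|` and the sets
`nb u \ Z` (⊆ `R \ S` for `u ∈ Q \ Qg`); its hypothesis follows from the present one since for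
`V w ⊆ P₁ w` with `|P₁ w| < |V w| + q w` one has `|P w| < |V w| + D`; `q w ≤ |P₁ w|` since
`D ≤ |P w|`.  Take for `F w` a subset of size `D` of
`(P w ∩ Qg) ∪ F₁ w` (for `w ∈ A₁`), of `P w ∩ Qg` otherwise. -/
def S_PACK : Prop :=
  ∀ (α γ β : Type) [DecidableEq α] [DecidableEq γ] [DecidableEq β] (A : Finset α)
    (P : α → Finset γ) (D : ℕ) (nb : γ → Finset β) (d : ℕ) (Z R : Finset β),
    1 ≤ d →
    (∀ w ∈ A, ∀ w' ∈ A, w ≠ w' → Disjoint (P w) (P w')) →
    (∀ w ∈ A, D ≤ (P w).card) →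
    Disjoint R Z → Mat nb d (A.biUnion P) R →
    (∀ y, y ∉ Z → y ∉ R → ¬ Mat nb d (A.biUnion P) (insert y R)) →
    (∀ X ⊆ A, X.Nonempty → ∀ V : α → Finset γ,
      (∀ w ∈ X, V w ⊆ P w ∧ (P w).card < (V w).card + D) →
      d * (X.biUnion V).card ≤ (((X.biUnion V).biUnion nb) \ Z).card) →
    ∃ (F : α → Finset γ) (T : γ → Finset β),
      (∀ w ∈ A, F w ⊆ P w ∧ (F w).card = D) ∧
      (∀ w ∈ A, ∀ u ∈ F w, T u ⊆ nb u ∩ R ∧ (T u).card = d) ∧
      (∀ w ∈ A, ∀ u ∈ F w, ∀ w' ∈ A, ∀ u' ∈ F w', u ≠ u' → Disjoint (T u) (T u'))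

/-! ### Trees and the serving game -/

/-- the tree `T` with proper 2-colouring `κ` (`true` = agents, `false` = connectors) is contained
in the bipartite graph `N` -/
def TreeIn {C W V : Type} (N : W → Finset C) (T : SimpleGraph V) (κ : V → Bool) : Prop :=
  ∃ (fc : V → C) (fw : V → W),
    (∀ x y, κ x = false → κ y = false → fc x = fc y → x = y) ∧
    (∀ x y, κ x = true → κ y = true → fw x = fw y → x = y) ∧
    ∀ x y, κ x = true → κ y = false → T.Adj x y → fc y ∈ N (fw x)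

/-- One move of the serving game.  `UC`, `UW` = used connectors / agents, `P` = placed agents that
have not been served.  Serving `w ∈ P` means: choose new connectors `u i ∈ N w` (`i ∈ I`) and for
every `i` a set `t i` of `K i` new agents adjacent to `u i`. -/
def Step {C W : Type} [DecidableEq C] [DecidableEq W] (N : W → Finset C)
    (Inv : Finset C → Finset W → Finset W → Prop) (n1 n2 D d : ℕ) : Prop :=
  ∀ UC UW P, Inv UC UW P → ∀ w ∈ P, ∀ (ι : Type) [DecidableEq ι] (I : Finset ι) (K : ι → ℕ),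
    I.card ≤ D → (∀ i ∈ I, K i ≤ d) → UC.card + I.card ≤ n1 → UW.card + ∑ i ∈ I, K i ≤ n2 →
    ∃ (u : ι → C) (t : ι → Finset W),
      (∀ i ∈ I, u i ∈ N w ∧ u i ∉ UC) ∧
      (∀ i ∈ I, ∀ j ∈ I, u i = u j → i = j) ∧
      (∀ i ∈ I, (t i).card = K i ∧ Disjoint (t i) UW ∧ ∀ y ∈ t i, u i ∈ N y) ∧
      (∀ i ∈ I, ∀ j ∈ I, i ≠ j → Disjoint (t i) (t j)) ∧
      Inv (UC ∪ I.image u) (UW ∪ I.biUnion t) ((P.erase w) ∪ I.biUnion t)

/-- Parent function of a rooted tree.  PROOF: `par v` = the neighbour of `v` on the path from `v` to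
the root `v0` (distance `dist v0 v - 1`); in a tree every edge joins a vertex with its parent
(unique paths / `IsAcyclic`; or count: the `n-1` edges `{v, par v}` are all the edges). -/
def S_PARENT : Prop :=
  ∀ (V : Type) [Fintype V] [DecidableEq V] (T : SimpleGraph V) (v0 : V), T.IsTree →
    ∃ (par : V → V) (ht : V → ℕ), ht v0 = 0 ∧ (∀ v, v ≠ v0 → T.Adj v (par v) ∧ ht v = ht (par v) + 1)
      ∧ ∀ x y, T.Adj x y → (x ≠ v0 ∧ par x = y) ∨ (y ≠ v0 ∧ par y = x)

/-- A winning serving game embeds every tree.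
PROOF.  Take `par, ht` from `S_PARENT` with root `v0` (`κ v0 = true`).  Agents are the vertices with
`κ = true`.  By induction on `|𝒮|`, build `𝒮` (set of served agents; closed: `v ∈ 𝒮`, `v ≠ v0`
implies `par (par v) ∈ 𝒮`) and partial maps `fc`, `fw` on
`DC := {c connector : par c ∈ 𝒮}` and `DW := {v0} ∪ {v agent ≠ v0 : par (par v) ∈ 𝒮}` which are
injective, preserve adjacency (`fc c ∈ N (fw (par c))` for `c ∈ DC`, `fc (par v) ∈ N (fw v)` for
`v ∈ DW \ {v0}`), with `Inv (image of DC) (image of DW) (image of DW \ 𝒮)`.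
If some agent is not in `𝒮`, choose one, `v`, of least height; then `v ∈ DW`.  Serve `fw v` with
`I := {c : c ≠ v0, κ c = false, par c = v}` and `K c := #{x : x ≠ v0, par x = c}`;
`|I| ≤ degree v ≤ D`, `K c ≤ degree c ≤ d`.  The counting conditions hold since
`DC ∪ I` is a set of connectors of `T` and `DW ∪ ⋃ children` a set of agents of `T`.  Extend `fc` on
`I` by `u` and `fw` on the children of `c ∈ I` by a bijection onto `t c`.  At the end `𝒮` = all
agents, every edge of `T` joins a vertex with its parent. -/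
def S_TREE : Prop :=
  ∀ (C W V : Type) [DecidableEq C] [DecidableEq W] [Fintype V] [DecidableEq V]
    (N : W → Finset C) (T : SimpleGraph V) [DecidableRel T.Adj] (κ : V → Bool)
    (Inv : Finset C → Finset W → Finset W → Prop) (n1 n2 D d : ℕ) (v0 : V) (w0 : W) (_u0 : C),
    T.IsTree → (∀ x y, T.Adj x y → κ x ≠ κ y) → κ v0 = true →
    (univ.filter (fun v => κ v = false)).card ≤ n1 →
    (univ.filter (fun v => κ v = true)).card ≤ n2 →
    (∀ v, κ v = true → T.degree v ≤ D) → (∀ v, κ v = false → T.degree v ≤ d) →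
    Inv ∅ {w0} {w0} → Step N Inv n1 n2 D d → TreeIn N T κ

/-! ### Case 0: complete bipartite like host (minimum degrees at least the size of the tree) -/

/-- PROOF: `Inv UC UW P := P ⊆ UW`; `Step`: choose the connectors `u i` in `N w \ UC`
(at least `n1 - |UC| ≥ |I|` elements), then the sets `t i` one after the other in
`Nr N (u i) \ UW \ (previous)` (at least `n2 - |UW| - ...` elements). Then `S_TREE`. -/
def S_CASE0 : Prop :=
  ∀ (C W V : Type) [DecidableEq C] [DecidableEq W] [Fintype C] [Fintype W] [Fintype V]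
    [DecidableEq V] (N : W → Finset C) (T : SimpleGraph V) [DecidableRel T.Adj] (κ : V → Bool)
    (n1 n2 : ℕ) (v0 : V) (_w0 : W) (_u0 : C),
    T.IsTree → (∀ x y, T.Adj x y → κ x ≠ κ y) → κ v0 = true →
    (univ.filter (fun v => κ v = false)).card ≤ n1 →
    (univ.filter (fun v => κ v = true)).card ≤ n2 →
    (∀ w, n1 ≤ (N w).card) → (∀ u, n2 ≤ (Nr N u).card) → TreeIn N T κ

/-! ### Case 1: both sides expand -/

/-- PROOF.  `Inv UC UW P := P ⊆ UW ∧ ∃ (a1 : W → ℕ) (a2 : C → ℕ),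
Good N D (2*(L+1)) UC a1 ∧ Good (Nr N) d (2*(L+1)) UW a2 ∧ (∀ w, (w ∈ P ∨ w ∉ UW) → a1 w = 0) ∧
∀ u, u ∉ UC → a2 u = 0`.
Initially: `Good N D _ ∅ 0` and `Good (Nr N) d _ {w0} 0` from the expansion hypotheses.
`Step` (numbers `n1 = L*D`, `n2 = L*d`): induction over `I`; for each `i` choose `u i` with `S_FP`
(`b = D, c = D, m = L+1`: the forbidden set has `< D*(L+1)` elements, `a1 w < D` since
`|I| ≤ D`), then `K i` times a child of `u i` with
`S_ALLOC` for `Nr N` (`b = d, c = d, m = L+1`, agent `u i`, `a2 (u i) = 0`, `k = K i`).  Then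
`S_TREE`. -/
def S_CASE1 : Prop :=
  ∀ (C W V : Type) [DecidableEq C] [DecidableEq W] [Fintype C] [Fintype W] [Fintype V]
    [DecidableEq V] (N : W → Finset C) (T : SimpleGraph V) [DecidableRel T.Adj] (κ : V → Bool)
    (L D d : ℕ) (v0 : V) (_w0 : W) (_u0 : C),
    1 ≤ L → 1 ≤ d → 1 ≤ D →
    T.IsTree → (∀ x y, T.Adj x y → κ x ≠ κ y) → κ v0 = true →
    (univ.filter (fun v => κ v = false)).card ≤ L * D →
    (univ.filter (fun v => κ v = true)).card ≤ L * d →
    (∀ v, κ v = true → T.degree v ≤ D) → (∀ v, κ v = false → T.degree v ≤ d) →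
    (∀ X : Finset W, X.card ≤ 2 * (L + 1) → 2 * D * X.card ≤ (X.biUnion N).card) →
    (∀ X : Finset C, X.card ≤ 2 * (L + 1) → 2 * d * X.card ≤ (X.biUnion (Nr N)).card) →
    TreeIn N T κ

/-! ### Case 2: `D` much larger than `d` and `r`; two level scheme with reservations -/

/-- the agent `w` is critical with respect to the set `Z` of forbidden agents: at least `D` of its
connectors have fewer than `2q` neighbours outside `Z` -/
def Critical {C W : Type} [Fintype W] [DecidableEq C] [DecidableEq W] (N : W → Finset C)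
    (D q : ℕ) (Z : Finset W) (w : W) : Prop :=
  D ≤ ((N w).filter (fun u => ((Nr N u) \ Z).card < 2 * q)).card

/-- hypotheses on the graph in case 2 -/
structure Exp2 {C W : Type} [Fintype W] [DecidableEq C] [DecidableEq W] (N : W → Finset C)
    (L D d q : ℕ) : Prop where
  hL : 1 ≤ L
  hd : 1 ≤ d
  hdD : 1 ≤ D
  hq : d ≤ q
  deg : ∀ u, 4 * q ≤ (Nr N u).card
  e1 : ∀ X : Finset W, X.card ≤ 2 * (2 * L + 1) → (8 * D + D) * X.card ≤ (X.biUnion N).card
  e3 : ∀ X Y : Finset W, X.Nonempty → Y.card ≤ 24 * D * d * X.card → Y.card ≤ 3 * L * d →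
    ∃ w ∈ X, ((N w).filter (fun u => q ≤ ((Nr N u) ∩ Y).card)).card < D

/-- State of the case 2 process.  `UC, UW, P` as in the game.  `ZC ⊇ UC` allocated connectors,
`ZW ⊇ UW` forbidden agents (used or reserved), `Cr` = closed critical agents; every `w ∈ Cr` has
the reserved connectors `F w` and every `u ∈ F w` has the reserved children `T u`; `a` =
number of connectors allocated to each agent. -/
structure St {C W : Type} [Fintype W] [DecidableEq C] [DecidableEq W] (N : W → Finset C)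
    (L D d q : ℕ) (UC : Finset C) (UW P : Finset W) (ZC : Finset C) (ZW Cr : Finset W)
    (a : W → ℕ) (F : W → Finset C) (T : C → Finset W) : Prop where
  good : Good N (8 * D) (2 * (2 * L + 1)) ZC a
  subC : UC ⊆ ZC
  subW : UW ⊆ ZW
  subP : P ⊆ UW
  cardC : ZC.card ≤ UC.card + 8 * D * Cr.card
  cardW : ZW.card ≤ UW.card + 8 * D * d * Cr.card
  cardCr : 8 * D * d * Cr.card ≤ L * d
  crit : ∀ w ∈ Cr, Critical N D q ZW w
  ncrit : ∀ w, w ∉ Cr → (w ∈ P ∨ w ∉ UW) → a w = 0 ∧ ¬ Critical N D q ZW w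
  resF : ∀ w ∈ Cr, F w ⊆ N w ∩ ZC ∧ (F w).card = D
  resT : ∀ w ∈ Cr, ∀ u ∈ F w, T u ⊆ Nr N u ∩ ZW ∧ (T u).card = d
  disF : ∀ w ∈ Cr, ∀ w' ∈ Cr, w ≠ w' → Disjoint (F w) (F w')
  disT : ∀ w ∈ Cr, ∀ u ∈ F w, ∀ w' ∈ Cr, ∀ u' ∈ F w', u ≠ u' → Disjoint (T u) (T u')
  free : ∀ w ∈ Cr, (w ∈ P ∨ w ∉ UW) → Disjoint (F w) UC ∧ ∀ u ∈ F w, Disjoint (T u) UW

/-- initial state: `UC = ZC = Cr = ∅`, `UW = P = ZW = {w0}`, `a = 0`.  PROOF: `good` from `e1`; an
agent critical w.r.t. `{w0}` would have (as `D ≥ 1`) a connector `u` with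
`|Nr u \ {w0}| < 2q`, but `|Nr u| ≥ 4q` and `q ≥ 1`. -/
def S_INIT : Prop :=
  ∀ (C W : Type) [Fintype W] [DecidableEq C] [DecidableEq W] (N : W → Finset C)
    (L D d q : ℕ) (w0 : W), Exp2 N L D d q →
    St N L D d q ∅ {w0} {w0} ∅ {w0} ∅ (fun _ => 0) (fun _ => ∅) (fun _ => ∅)

/-- serving a NON-critical placed agent (before closing up).
PROOF.  Induction over `I` (as a Finset; strengthen: the chosen sets for a subset `J ⊆ I`).  Suppose
`j < D` connectors `u` have been chosen, with children sets of union `Y` (`|Y| ≤ D d`, and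
`|Y| ≤ L d`).  `S_FP` with `b = 8D, c = D, m = 2L+1`
(forbidden set `ZC ∪ {chosen}` has `< D(2L+1)` elements:
`|ZC| ≤ |UC| + 8D|Cr|`, `|UC| + |I| ≤ L D`, `8D|Cr| ≤ L` from `cardCr`) gives
`≥ 8D - j ≥ 7D` candidates in `N w`; fewer than `D` of them have `|Nr u \ ZW| < 2q` (`w` is not
critical), fewer than `D` have `|Nr u ∩ Y| ≥ q` (`e3` with `X = {w}`).  Take another one:
`|Nr u \ ZW \ Y| > q ≥ d`: choose its `K i` children there. -/
def S_SERVE : Prop :=
  ∀ (C W ι : Type) [Fintype W] [DecidableEq C] [DecidableEq W] [DecidableEq ι]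
    (N : W → Finset C) (L D d q : ℕ) (UC : Finset C) (UW P : Finset W) (ZC : Finset C)
    (ZW Cr : Finset W) (a : W → ℕ) (F : W → Finset C) (T : C → Finset W) (w : W)
    (I : Finset ι) (K : ι → ℕ),
    Exp2 N L D d q → St N L D d q UC UW P ZC ZW Cr a F T → w ∈ P → w ∉ Cr →
    I.card ≤ D → (∀ i ∈ I, K i ≤ d) → UC.card + I.card ≤ L * D → UW.card + ∑ i ∈ I, K i ≤ L * d →
    ∀ _u0 : C, ∃ (u : ι → C) (t : ι → Finset W),
      (∀ i ∈ I, u i ∈ N w ∧ u i ∉ ZC) ∧
      (∀ i ∈ I, ∀ j ∈ I, u i = u j → i = j) ∧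
      (∀ i ∈ I, (t i).card = K i ∧ Disjoint (t i) ZW ∧ ∀ y ∈ t i, u i ∈ N y) ∧
      (∀ i ∈ I, ∀ j ∈ I, i ≠ j → Disjoint (t i) (t j)) ∧
      Good N (8 * D) (2 * (2 * L + 1)) (ZC ∪ I.image u) (Function.update a w I.card)

/-- Closing up after a non-critical agent `w` has been served with the new connectors `NC` and the
new agents `Y`.
PROOF.  Put `ZC1 := ZC ∪ NC`, `ZW1 := ZW ∪ Y`, `UW1 := UW ∪ Y`, `P1 := P.erase w ∪ Y`,
`a1 := update a w |NC|`.  A configuration is `(A, Pf, R)` with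
`A ⊆ {x ∉ Cr : x ∈ P1 ∨ x ∉ UW1}`, `Pf x ⊆ N x \ ZC1`, `|Pf x| = 8D` (`x ∈ A`), pairwise disjoint,
`Good N (8D) (2(2L+1)) (ZC1 ∪ A.biUnion Pf) (a1 changed to 8D on A)`, `R` disjoint from `ZW1`,
`Mat (Nr N) d (A.biUnion Pf) R`, every `x ∈ A` is critical w.r.t. `ZW1 ∪ R`, and
`8 D d (|Cr| + |A|) ≤ L d`.  (`(∅, _, ∅)` is one.)  Take a configuration with `|A| + |R|` maximal.
(0) Every `x ∉ Cr` with `x ∈ P1 ∨ x ∉ UW1` satisfies `x ∉ Cr ∧ (x ∈ P ∨ x ∉ UW)`, `x ≠ w`
(since `Y` is disjoint from `ZW ⊇ UW ∋ w`), so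
`a1 x = a x = 0` and `x` is not critical w.r.t. `ZW` (by `ncrit`).
(1) No such `x ∉ A` is critical w.r.t. `ZW1 ∪ R`: otherwise all elements of
`X := Cr ∪ A ∪ {x}` are critical w.r.t. `Z' := ZW1 ∪ R` (monotone), so each has at least `D`
connectors `u` with `|Nr u ∩ Z'| ≥ 4q - 2q ≥ q`; `|Z'| ≤ |UW1| + 8Dd|Cr| + 8Dd|A| ≤ 2 L d`
(`|R| ≤ d |A.biUnion Pf|`); by `e3` `24 D d |X| < |Z'| ≤ 2 L d`, so `8 D d |X| ≤ L d`.  Then
`S_ALLOC` (`b = 8D, c = D, m = 2L+1, k = 8D`, agent `x`,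
`|ZC1 ∪ A.biUnion Pf| + 8D ≤ L D + 8D(|Cr|+|A|+1) ≤ L D + L ≤ D (2L+1)`) gives `Pf x`, and
`(A ∪ {x}, ...)` is a larger configuration.
(2) `R` is maximal: for `y ∉ ZW1 ∪ R`, `¬ Mat (Nr N) d (A.biUnion Pf) (insert y R)`.
(3) Hypothesis of `S_PACK` (`P := Pf`, `nb := Nr N`, `Z := ZW1`): let `∅ ≠ X ⊆ A`,
`V x ⊆ Pf x`, `8D < |V x| + D`, and suppose `A' := nb(X.biUnion V) \ ZW1` has
`|A'| < d |X.biUnion V| ≤ 8 D d |X|`.  `Y'' := A' ∪ Y` has `|Y''| ≤ 8Dd|X| + Dd ≤ 24 D d |X|`,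
and `≤ 3 L d`.  By `e3` some `x ∈ X` has fewer than `D`
connectors with `|Nr u ∩ Y''| ≥ q`; it has fewer than `D` connectors with
`|Nr u \ ZW| < 2q` (not critical w.r.t. `ZW`); as `|V x| > 7D`, some `u ∈ V x` has
`|Nr u \ ZW| ≥ 2q` and `|Nr u ∩ Y''| < q`; but `Nr u \ ZW ⊆ Y''`; contradiction.
(4) `S_PACK` gives `F₁, T₁`.  New state: `ZC' = ZC1 ∪ A.biUnion Pf`, `ZW' = ZW1 ∪ R`,
`Cr' = Cr ∪ A`, `a'` = `a1` changed to `8D` on `A`, `F' = F₁` on `A`, `F` elsewhere, `T' = T₁` on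
`A.biUnion Pf`, `T` elsewhere. -/
def S_CLOSE : Prop :=
  ∀ (C W : Type) [Fintype W] [DecidableEq C] [DecidableEq W]
    (N : W → Finset C) (L D d q : ℕ) (UC : Finset C) (UW P : Finset W) (ZC : Finset C)
    (ZW Cr : Finset W) (a : W → ℕ) (F : W → Finset C) (T : C → Finset W) (w : W)
    (NC : Finset C) (Y : Finset W),
    Exp2 N L D d q → St N L D d q UC UW P ZC ZW Cr a F T → w ∈ P → w ∉ Cr →
    Disjoint NC ZC → Disjoint Y ZW → Y.card ≤ D * d → (UW ∪ Y).card ≤ L * d →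
    (UC ∪ NC).card ≤ L * D →
    Good N (8 * D) (2 * (2 * L + 1)) (ZC ∪ NC) (Function.update a w NC.card) →
    ∃ (ZC' : Finset C) (ZW' Cr' : Finset W) (a' : W → ℕ) (F' : W → Finset C) (T' : C → Finset W),
      St N L D d q (UC ∪ NC) (UW ∪ Y) ((P.erase w) ∪ Y) ZC' ZW' Cr' a' F' T'

/-- PROOF.  `Inv UC UW P := ∃ ZC ZW Cr a F T, St N L D d q UC UW P ZC ZW Cr a F T`; initial state
`S_INIT`.  `Step` for `w ∉ Cr`: `S_SERVE`, then `S_CLOSE` with `NC := I.image u`,
`Y := I.biUnion t`.  `Step` for `w ∈ Cr`: injection of `I` into `F w` (`|F w| = D`), `t i` := subset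
of size `K i` of `T (u i)`; the same `ZC, ZW, Cr, a, F, T` form a state (`free` for
`w' ≠ w` from `disF`, `disT`; note `w ∈ UW \ P'` afterwards). Then `S_TREE`. -/
def S_CASE2 : Prop :=
  ∀ (C W V : Type) [DecidableEq C] [DecidableEq W] [Fintype C] [Fintype W] [Fintype V]
    [DecidableEq V] (N : W → Finset C) (T : SimpleGraph V) [DecidableRel T.Adj] (κ : V → Bool)
    (L D d q : ℕ) (v0 : V) (_w0 : W) (_u0 : C),
    Exp2 N L D d q →
    T.IsTree → (∀ x y, T.Adj x y → κ x ≠ κ y) → κ v0 = true →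
    (univ.filter (fun v => κ v = false)).card ≤ L * D →
    (univ.filter (fun v => κ v = true)).card ≤ L * d →
    (∀ v, κ v = true → T.degree v ≤ D) → (∀ v, κ v = false → T.degree v ≤ d) →
    TreeIn N T κ

end Pool.Agent.H973.SR
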