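import Mathlib
import Pool.Agent.H973.SR.Stm

namespace Pool.Agent.H973.SR

open Finset

namespace Case0L

lemma choose_t {C W ι : Type} [DecidableEq C] [DecidableEq W] [Fintype W] [DecidableEq ι]
    (N : W → Finset C) (n2 : ℕ) (hN : ∀ u, n2 ≤ (Nr N u).card) (u : ι → C) (K : ι → ℕ)
    (J : Finset ι) :
    ∀ UW : Finset W, UW.card + ∑ i ∈ J, K i ≤ n2 → ∃ t : ι → Finset W,
      (∀ i ∈ J, (t i).card = K i ∧ Disjoint (t i) UW ∧ ∀ y ∈ t i, u i ∈ N y) ∧
      (∀ i ∈ J, ∀ j ∈ J, i ≠ j → Disjoint (t i) (t j)) := by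
  induction J using Finset.induction_on with
  | empty =>
    intro UW _
    exact ⟨fun _ => ∅, by simp, by simp⟩
  | insert a s ha ih =>
    intro UW hUW
    rw [Finset.sum_insert ha] at hUW
    have h1 : K a ≤ (Nr N (u a) \ UW).card := by
      have h2 := Finset.le_card_sdiff UW (Nr N (u a))
      have h3 := hN (u a)
      omega
    obtain ⟨ta, hta, htac⟩ := Finset.exists_subset_card_eq h1
    have hdis : Disjoint ta UW := by
      rw [Finset.disjoint_left]
      intro y hy hy2
      exact (Finset.mem_sdiff.1 (hta hy)).2 hy2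
    have hmem : ∀ y ∈ ta, u a ∈ N y := by
      intro y hy
      have := (Finset.mem_sdiff.1 (hta hy)).1
      simpa [Nr] using this
    obtain ⟨t, ht1, ht2⟩ := ih (UW ∪ ta) (by
      have := Finset.card_union_le UW ta
      omega)
    have hne : ∀ i ∈ s, i ≠ a := fun i hi h => ha (h ▸ hi)
    refine ⟨Function.update t a ta, ?_, ?_⟩
    · intro i hi
      rcases Finset.mem_insert.1 hi with rfl | hi
      · rw [Function.update_self]
        exact ⟨htac, hdis, hmem⟩
      · rw [Function.update_of_ne (hne i hi)]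
        obtain ⟨h1, h2, h3⟩ := ht1 i hi
        exact ⟨h1, (Finset.disjoint_union_right.1 h2).1, h3⟩
    · intro i hi j hj hij
      rcases Finset.mem_insert.1 hi with rfl | hi
      · rcases Finset.mem_insert.1 hj with rfl | hj
        · exact absurd rfl hij
        · rw [Function.update_self, Function.update_of_ne (hne j hj)]
          exact ((Finset.disjoint_union_right.1 (ht1 j hj).2.1).2).symm
      · rcases Finset.mem_insert.1 hj with rfl | hj
        · rw [Function.update_self, Function.update_of_ne hij]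
          exact (Finset.disjoint_union_right.1 (ht1 i (by assumption)).2.1).2
        · rw [Function.update_of_ne (hne i hi), Function.update_of_ne (hne j hj)]
          exact ht2 i hi j hj hij

end Case0L

theorem case0 (h : S_TREE) : S_CASE0 := by
  intro C W V _ _ _ _ _ _ N T _ κ n1 n2 v0 w0 u0 hT hprop hv0 hn1 hn2 hN1 hN2
  refine h C W V N T κ (fun _ _ _ => True) n1 n2 (Fintype.card V) (Fintype.card V) v0 w0 u0 hT
    hprop hv0 hn1 hn2 (fun v _ => (T.degree_lt_card_verts v).le)
    (fun v _ => (T.degree_lt_card_verts v).le) trivial ?_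
  intro UC UW P _ w _ ι _ I K _ _ hc1 hc2
  have h1 : I.card ≤ (N w \ UC).card := by
    have h2 := Finset.le_card_sdiff UC (N w)
    have h3 := hN1 w
    omega
  obtain ⟨S, hS, hSc⟩ := Finset.exists_subset_card_eq h1
  let e : I ≃ S := Finset.equivOfCardEq hSc.symm
  let u : ι → C := fun i => if hi : i ∈ I then (e ⟨i, hi⟩ : C) else u0
  have hu : ∀ i (hi : i ∈ I), u i = (e ⟨i, hi⟩ : C) := fun i hi => dif_pos hi
  obtain ⟨t, ht1, ht2⟩ := Case0L.choose_t N n2 hN2 u K I UW hc2
  refine ⟨u, t, ?_, ?_, ht1, ht2, trivial⟩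
  · intro i hi
    rw [hu i hi]
    have := Finset.mem_sdiff.1 (hS (e ⟨i, hi⟩).2)
    exact this
  · intro i hi j hj hij
    rw [hu i hi, hu j hj] at hij
    have h4 := e.injective (Subtype.ext hij)
    exact congrArg Subtype.val h4

end Pool.Agent.H973.SR
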