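import Pool.Agent.H973.SR.Stm

/-!
# Case 1: both sides expand
-/

set_option autoImplicit false

namespace Pool.Agent.H973.SR

open Finset

namespace Case1L

/-- all requests of `J` have been served -/
def Srv {C W : Type} [DecidableEq C] [DecidableEq W] [Fintype W] (N : W → Finset C)
    (L D d : ℕ) (UC : Finset C) (UW : Finset W) (a1 : W → ℕ) (w : W) {ι : Type}
    (K : ι → ℕ) (J : Finset ι) (u : ι → C) (t : ι → Finset W) (a2 : C → ℕ) : Prop :=
  (∀ i ∈ J, u i ∈ N w ∧ u i ∉ UC) ∧
  (∀ i ∈ J, ∀ j ∈ J, u i = u j → i = j) ∧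
  (∀ i ∈ J, (t i).card = K i ∧ Disjoint (t i) UW ∧ ∀ y ∈ t i, u i ∈ N y) ∧
  (∀ i ∈ J, ∀ j ∈ J, i ≠ j → Disjoint (t i) (t j)) ∧
  Good N D (2 * (L + 1)) (UC ∪ J.image u) (Function.update a1 w J.card) ∧
  Good (Nr N) d (2 * (L + 1)) (UW ∪ J.biUnion t) a2 ∧
  ∀ v, v ∉ UC ∪ J.image u → a2 v = 0

theorem srv_insert (h1 : S_FP) (h2 : S_ALLOC) {C W : Type} [DecidableEq C] [DecidableEq W]
    [Fintype C] [Fintype W] (N : W → Finset C) {L D d : ℕ} (hD : 1 ≤ D)
    (e1 : ∀ X : Finset W, X.card ≤ 2 * (L + 1) → 2 * D * X.card ≤ (X.biUnion N).card)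
    (e2 : ∀ X : Finset C, X.card ≤ 2 * (L + 1) → 2 * d * X.card ≤ (X.biUnion (Nr N)).card)
    {UC : Finset C} {UW : Finset W} {a1 : W → ℕ} {w : W} {ι : Type} [DecidableEq ι]
    {K : ι → ℕ} {J : Finset ι} {j : ι} (hj : j ∉ J) (hJ : J.card < D) (hK : K j ≤ d)
    (hUC : UC.card + J.card ≤ L * D) (hUW : UW.card + (∑ i ∈ J, K i + K j) ≤ L * d)
    {u : ι → C} {t : ι → Finset W} {a2 : C → ℕ} (h : Srv N L D d UC UW a1 w K J u t a2) :
    ∃ u' t' a2', Srv N L D d UC UW a1 w K (insert j J) u' t' a2' := by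
  obtain ⟨g1, g2, g3, g4, g5, g6, g7⟩ := h
  have hZ : (UC ∪ J.image u).card < D * (L + 1) := by
    have i1 := card_union_le UC (J.image u)
    have i2 : (J.image u).card ≤ J.card := card_image_le
    have i3 : L * D + D = D * (L + 1) := by ring
    omega
  obtain ⟨S, hS, hSc, hSg⟩ := h1 W C N D D (L + 1) (UC ∪ J.image u) (Function.update a1 w J.card)
    (fun X hX => by have := e1 X hX; rwa [two_mul] at this) hZ g5 w
    (by rw [Function.update_self]; exact hJ)
  rw [Function.update_self] at hSc hSg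
  have hSn : S.Nonempty := card_pos.1 (by omega)
  obtain ⟨u0, hu0⟩ := hSn
  have hu0' := mem_sdiff.1 (hS hu0)
  have hgood := hSg u0 hu0
  rw [Function.update_idem] at hgood
  have hbt : (UW ∪ J.biUnion t).card ≤ UW.card + ∑ i ∈ J, K i := by
    refine (card_union_le _ _).trans (Nat.add_le_add_left ?_ _)
    refine card_biUnion_le.trans (le_of_eq (sum_congr rfl fun i hi => (g3 i hi).1))
  obtain ⟨T, hT, hTc, hTg⟩ := h2 C W (Nr N) d d (L + 1) (K j) (UW ∪ J.biUnion t) a2
    (fun X hX => by have := e2 X hX; rwa [two_mul] at this)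
    (by have i3 : L * d + d = d * (L + 1) := by ring
        omega) g6 u0 (by rw [g7 u0 hu0'.2]; omega)
  have hne : ∀ i ∈ J, i ≠ j := fun i hi h => hj (h ▸ hi)
  have huj : ∀ i ∈ J, Function.update u j u0 i = u i := fun i hi =>
    Function.update_of_ne (hne i hi) _ _
  have htj : ∀ i ∈ J, Function.update t j T i = t i := fun i hi =>
    Function.update_of_ne (hne i hi) _ _
  have him : (insert j J).image (Function.update u j u0) = insert u0 (J.image u) := by
    rw [image_insert, Function.update_self]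
    congr 1
    exact image_congr fun i hi => huj i hi
  have hbi : (insert j J).biUnion (Function.update t j T) = T ∪ J.biUnion t := by
    rw [biUnion_insert, Function.update_self]
    congr 1
    exact biUnion_congr rfl fun i hi => htj i hi
  have hT' : ∀ y ∈ T, y ∈ Nr N u0 ∧ y ∉ UW ∧ ∀ i ∈ J, y ∉ t i := by
    intro y hy
    have h3 := mem_sdiff.1 (hT hy)
    refine ⟨h3.1, fun h => h3.2 (mem_union_left _ h), fun i hi h => h3.2 (mem_union_right _ ?_)⟩
    exact mem_biUnion.2 ⟨i, hi, h⟩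
  have hu0J : ∀ i ∈ J, u i ≠ u0 := fun i hi h =>
    hu0'.2 (mem_union_right _ (mem_image.2 ⟨i, hi, h⟩))
  refine ⟨Function.update u j u0, Function.update t j T,
    Function.update a2 u0 (a2 u0 + K j), ?_, ?_, ?_, ?_, ?_, ?_, ?_⟩
  · intro i hi
    rcases mem_insert.1 hi with rfl | hi
    · rw [Function.update_self]
      exact ⟨hu0'.1, fun h => hu0'.2 (mem_union_left _ h)⟩
    · rw [huj i hi]
      exact g1 i hi
  · intro i hi i' hi' he
    rcases mem_insert.1 hi with h5 | h5 <;> rcases mem_insert.1 hi' with h6 | h6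
    · rw [h5, h6]
    · rw [h5, Function.update_self, huj i' h6] at he
      exact absurd he.symm (hu0J i' h6)
    · rw [h6, Function.update_self, huj i h5] at he
      exact absurd he (hu0J i h5)
    · rw [huj i h5, huj i' h6] at he
      exact g2 i h5 i' h6 he
  · intro i hi
    rcases mem_insert.1 hi with rfl | hi
    · rw [Function.update_self, Function.update_self]
      refine ⟨hTc, disjoint_left.2 fun y hy => (hT' y hy).2.1, fun y hy => ?_⟩
      exact (mem_filter.1 (hT' y hy).1).2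
    · rw [huj i hi, htj i hi]
      exact g3 i hi
  · intro i hi i' hi' hii
    rcases mem_insert.1 hi with h5 | h5 <;> rcases mem_insert.1 hi' with h6 | h6
    · exact absurd (h5.trans h6.symm) hii
    · rw [h5, Function.update_self, htj i' h6]
      exact disjoint_left.2 fun y hy => (hT' y hy).2.2 i' h6
    · rw [h6, Function.update_self, htj i h5]
      exact (disjoint_left.2 fun y hy => (hT' y hy).2.2 i h5).symm
    · rw [htj i h5, htj i' h6]
      exact g4 i h5 i' h6 hii
  · rw [him, card_insert_of_notMem hj, union_insert]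
    exact hgood
  · rw [hbi, union_left_comm, union_comm T]
    exact hTg
  · intro v hv
    rw [him] at hv
    have hv0 : v ≠ u0 := fun h => hv (mem_union_right _ (h ▸ mem_insert_self _ _))
    rw [Function.update_of_ne hv0]
    refine g7 v fun h => hv ?_
    rcases mem_union.1 h with h | h
    · exact mem_union_left _ h
    · exact mem_union_right _ (mem_insert_of_mem h)

theorem srv (h1 : S_FP) (h2 : S_ALLOC) {C W : Type} [DecidableEq C] [DecidableEq W]
    [Fintype C] [Fintype W] (N : W → Finset C) {L D d : ℕ} (hD : 1 ≤ D)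
    (e1 : ∀ X : Finset W, X.card ≤ 2 * (L + 1) → 2 * D * X.card ≤ (X.biUnion N).card)
    (e2 : ∀ X : Finset C, X.card ≤ 2 * (L + 1) → 2 * d * X.card ≤ (X.biUnion (Nr N)).card)
    {UC : Finset C} {UW : Finset W} {a1 : W → ℕ} {a2 : C → ℕ} {w : W} (u0 : C)
    (hg1 : Good N D (2 * (L + 1)) UC a1) (hg2 : Good (Nr N) d (2 * (L + 1)) UW a2)
    (hw : a1 w = 0) (ha2 : ∀ u, u ∉ UC → a2 u = 0) {ι : Type} [DecidableEq ι]
    (K : ι → ℕ) (J : Finset ι) :
    J.card ≤ D → (∀ i ∈ J, K i ≤ d) → UC.card + J.card ≤ L * D →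
    UW.card + ∑ i ∈ J, K i ≤ L * d → ∃ u t a2', Srv N L D d UC UW a1 w K J u t a2' := by
  induction J using Finset.induction_on with
  | empty =>
    intro _ _ _ _
    refine ⟨fun _ => u0, fun _ => ∅, a2, by simp, by simp, by simp, by simp, ?_, ?_, ?_⟩
    · rw [image_empty, union_empty, card_empty]
      have : Function.update a1 w 0 = a1 := by
        conv_rhs => rw [← Function.update_eq_self w a1, hw]
      rw [this]
      exact hg1
    · rw [biUnion_empty, union_empty]
      exact hg2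
    · intro v hv
      rw [image_empty, union_empty] at hv
      exact ha2 v hv
  | insert j J hj ih =>
    intro c1 c2 c3 c4
    rw [card_insert_of_notMem hj] at c1 c3
    rw [sum_insert hj] at c4
    obtain ⟨u, t, a2', h⟩ := ih (by omega) (fun i hi => c2 i (mem_insert_of_mem hi)) (by omega)
      (by omega)
    exact srv_insert h1 h2 N hD e1 e2 hj (by omega) (c2 j (mem_insert_self _ _)) (by omega)
      (by omega) h

end Case1L

open Case1L in
theorem case1 (h1 : S_FP) (h2 : S_ALLOC) (h3 : S_TREE) : S_CASE1 := by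
  intro C W V _ _ _ _ _ _ N T _ κ L D d v0 w0 u0 hL hd hD hT hκ hv0 hn1 hn2 hd1 hd2 e1 e2
  refine h3 C W V N T κ (fun UC UW P => P ⊆ UW ∧ ∃ (a1 : W → ℕ) (a2 : C → ℕ),
    Good N D (2 * (L + 1)) UC a1 ∧ Good (Nr N) d (2 * (L + 1)) UW a2 ∧
    (∀ w, (w ∈ P ∨ w ∉ UW) → a1 w = 0) ∧ ∀ u, u ∉ UC → a2 u = 0)
    (L * D) (L * d) D d v0 w0 u0 hT hκ hv0 hn1 hn2 hd1 hd2 ?_ ?_
  · refine ⟨subset_rfl, fun _ => 0, fun _ => 0, ?_, ?_, fun _ _ => rfl, fun _ _ => rfl⟩
    · intro X hX
      have i1 := e1 X hX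
      have i2 : D * X.card ≤ 2 * D * X.card := by nlinarith
      simp only [sdiff_empty, sum_const_zero, add_zero]
      omega
    · intro X hX
      have i1 := e2 X hX
      have i2 : (X.biUnion (Nr N)).card ≤ ((X.biUnion (Nr N)) \ {w0}).card + 1 := by
        have := le_card_sdiff {w0} (X.biUnion (Nr N))
        rw [card_singleton] at this
        omega
      simp only [sum_const_zero, add_zero]
      rcases Nat.eq_zero_or_pos X.card with h0 | h0
      · rw [h0]
        simp
      · have i3 : 1 ≤ d * X.card := Nat.mul_pos hd h0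
        have i4 : 2 * d * X.card = 2 * (d * X.card) := by ring
        omega
  · rintro UC UW P ⟨hP, a1, a2, hg1, hg2, ha1, ha2⟩ w hw ι _ I K hI hK hUC hUW
    obtain ⟨u, t, a2', g1, g2, g3, g4, g5, g6, g7⟩ := srv h1 h2 N hD e1 e2 u0 hg1 hg2
      (ha1 w (Or.inl hw)) ha2 K I hI hK hUC hUW
    refine ⟨u, t, g1, g2, g3, g4, ?_, Function.update a1 w I.card, a2', g5, g6, ?_, g7⟩
    · refine union_subset ((erase_subset _ _).trans (hP.trans subset_union_left)) ?_
      exact subset_union_right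
    · intro x hx
      have hxw : x ≠ w ∧ (x ∈ P ∨ x ∉ UW) := by
        rcases hx with hx | hx
        · rcases mem_union.1 hx with hx | hx
          · exact ⟨(mem_erase.1 hx).1, Or.inl (mem_erase.1 hx).2⟩
          · obtain ⟨i, hi, hxi⟩ := mem_biUnion.1 hx
            have h4 : x ∉ UW := disjoint_left.1 (g3 i hi).2.1 hxi
            exact ⟨fun h => h4 (h ▸ hP hw), Or.inr h4⟩
        · have h4 : x ∉ UW := fun h => hx (mem_union_left _ h)
          exact ⟨fun h => h4 (h ▸ hP hw), Or.inr h4⟩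
      rw [Function.update_of_ne hxw.1]
      exact ha1 x hxw.2

end Pool.Agent.H973.SR
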