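import Pool.Agent.H973.SR.Stm

/-!
Assembly of case 2: the serving game is won with the two level scheme with reservations.
-/

namespace Pool.Agent.H973.SR

open Finset

namespace Case2L

/-- choice of the connectors and children inside the reservation -/
lemma choose_res {C W ι : Type} [DecidableEq C] [DecidableEq W] [DecidableEq ι]
    (I : Finset ι) (K : ι → ℕ) (Fw : Finset C) (T : C → Finset W) (D d : ℕ) (u0 : C)
    (hI : I.card ≤ D) (hK : ∀ i ∈ I, K i ≤ d) (hF : Fw.card = D)
    (hT : ∀ u ∈ Fw, (T u).card = d) :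
    ∃ (u : ι → C) (t : ι → Finset W), (∀ i ∈ I, u i ∈ Fw) ∧
      (∀ i ∈ I, ∀ j ∈ I, u i = u j → i = j) ∧
      (∀ i ∈ I, (t i).card = K i ∧ t i ⊆ T (u i)) := by
  classical
  have hc : Fintype.card {i // i ∈ I} ≤ Fintype.card {u // u ∈ Fw} := by
    rw [Fintype.card_coe, Fintype.card_coe, hF]
    exact hI
  obtain ⟨e⟩ := Function.Embedding.nonempty_of_card_le hc
  obtain ⟨u, hu⟩ : ∃ u : ι → C, u = fun i => if h : i ∈ I then (e ⟨i, h⟩).1 else u0 := ⟨_, rfl⟩
  have hue : ∀ i (h : i ∈ I), u i = (e ⟨i, h⟩).1 := by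
    intro i h
    rw [hu]
    simp only [h, dif_pos]
  have huF : ∀ i ∈ I, u i ∈ Fw := by
    intro i h
    rw [hue i h]
    exact (e ⟨i, h⟩).2
  have ht : ∀ i, ∃ s : Finset W, i ∈ I → s.card = K i ∧ s ⊆ T (u i) := by
    intro i
    by_cases h : i ∈ I
    · obtain ⟨s, hs, hsc⟩ := Finset.exists_subset_card_eq
        (show K i ≤ (T (u i)).card by rw [hT _ (huF i h)]; exact hK i h)
      exact ⟨s, fun _ => ⟨hsc, hs⟩⟩
    · exact ⟨∅, fun h' => absurd h' h⟩
  choose t ht using ht
  refine ⟨u, t, huF, ?_, fun i hi => ht i hi⟩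
  intro i hi j hj hij
  rw [hue i hi, hue j hj] at hij
  have := e.injective (Subtype.ext hij)
  exact congrArg Subtype.val this

end Case2L

theorem case2 (h1 : S_INIT) (h2 : S_SERVE) (h3 : S_CLOSE) (h4 : S_TREE) : S_CASE2 := by
  intro C W V _ _ _ _ _ _ N Tr _ κ L D d q v0 w0 u0 hE hTr hκ hv0 hn1 hn2 hd1 hd2
  refine h4 C W V N Tr κ (fun UC UW P => ∃ (ZC : Finset C) (ZW Cr : Finset W) (a : W → ℕ)
    (F : W → Finset C) (T : C → Finset W), St N L D d q UC UW P ZC ZW Cr a F T)
    (L * D) (L * d) D d v0 w0 u0 hTr hκ hv0 hn1 hn2 hd1 hd2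
    ⟨_, _, _, _, _, _, h1 C W N L D d q w0 hE⟩ ?_
  rintro UC UW P ⟨ZC, ZW, Cr, a, F, T, hS⟩ w hw ι _ I K hI hK hUC hUW
  by_cases hwc : w ∈ Cr
  · -- serving a critical agent from its reservation
    obtain ⟨hF1, hF2⟩ := hS.resF w hwc
    obtain ⟨u, t, hu, huinj, ht⟩ := Case2L.choose_res I K (F w) T D d u0 hI hK hF2
      (fun u hu => (hS.resT w hwc u hu).2)
    obtain ⟨hf1, hf2⟩ := hS.free w hwc (Or.inl hw)
    have hwU : w ∈ UW := hS.subP hw
    have htU : ∀ i ∈ I, Disjoint (t i) UW := fun i hi =>
      Finset.disjoint_of_subset_left (ht i hi).2 (hf2 _ (hu i hi))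
    have hYU : ∀ x ∈ I.biUnion t, x ∉ UW := by
      intro x hx
      obtain ⟨i, hi, hxi⟩ := Finset.mem_biUnion.1 hx
      exact Finset.disjoint_left.1 (htU i hi) hxi
    have hYZ : I.biUnion t ⊆ ZW := by
      intro x hx
      obtain ⟨i, hi, hxi⟩ := Finset.mem_biUnion.1 hx
      exact (Finset.mem_inter.1 ((hS.resT w hwc _ (hu i hi)).1 ((ht i hi).2 hxi))).2
    have himF : I.image u ⊆ F w := by
      intro c hc
      obtain ⟨i, hi, rfl⟩ := Finset.mem_image.1 hc
      exact hu i hi
    have hold : ∀ w', (w' ∈ P.erase w ∪ I.biUnion t ∨ w' ∉ UW ∪ I.biUnion t) →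
        (w' ∈ P ∨ w' ∉ UW) := by
      intro w' hw'
      rcases hw' with hw' | hw'
      · rcases Finset.mem_union.1 hw' with h | h
        · exact Or.inl (Finset.mem_of_mem_erase h)
        · exact Or.inr (hYU _ h)
      · exact Or.inr fun h => hw' (Finset.mem_union_left _ h)
    refine ⟨u, t, ?_, huinj, ?_, ?_, ZC, ZW, Cr, a, F, T, ?_⟩
    · intro i hi
      exact ⟨(Finset.mem_inter.1 (hF1 (hu i hi))).1, Finset.disjoint_left.1 hf1 (hu i hi)⟩
    · intro i hi
      refine ⟨(ht i hi).1, htU i hi, fun y hy => ?_⟩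
      have h5 := (Finset.mem_inter.1 ((hS.resT w hwc _ (hu i hi)).1 ((ht i hi).2 hy))).1
      exact (Finset.mem_filter.1 h5).2
    · intro i hi j hj hij
      have h5 := hS.disT w hwc (u i) (hu i hi) w hwc (u j) (hu j hj)
        (fun h => hij (huinj i hi j hj h))
      exact Finset.disjoint_of_subset_left (ht i hi).2
        (Finset.disjoint_of_subset_right (ht j hj).2 h5)
    · refine
        { good := hS.good
          subC := ?_
          subW := ?_
          subP := ?_
          cardC := ?_
          cardW := ?_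
          cardCr := hS.cardCr
          crit := hS.crit
          ncrit := ?_
          resF := hS.resF
          resT := hS.resT
          disF := hS.disF
          disT := hS.disT
          free := ?_ }
      · exact Finset.union_subset hS.subC (himF.trans (hF1.trans Finset.inter_subset_right))
      · exact Finset.union_subset hS.subW hYZ
      · exact Finset.union_subset_union ((Finset.erase_subset _ _).trans hS.subP) subset_rfl
      · have h5 := hS.cardC
        have h6 : UC.card ≤ (UC ∪ I.image u).card := Finset.card_le_card Finset.subset_union_left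
        omega
      · have h5 := hS.cardW
        have h6 : UW.card ≤ (UW ∪ I.biUnion t).card :=
          Finset.card_le_card Finset.subset_union_left
        omega
      · intro w' hw'c hw'
        exact hS.ncrit w' hw'c (hold w' hw')
      · intro w' hw'c hw'
        have hne : w' ≠ w := by
          rintro rfl
          rcases hw' with h | h
          · rcases Finset.mem_union.1 h with h | h
            · exact Finset.notMem_erase _ _ h
            · exact hYU _ h hwU
          · exact h (Finset.mem_union_left _ hwU)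
        obtain ⟨g1, g2⟩ := hS.free w' hw'c (hold w' hw')
        have hFF := hS.disF w' hw'c w hwc hne
        refine ⟨?_, fun u' hu' => ?_⟩
        · exact Finset.disjoint_union_right.2
            ⟨g1, Finset.disjoint_of_subset_right himF hFF⟩
        · refine Finset.disjoint_union_right.2 ⟨g2 u' hu', ?_⟩
          rw [Finset.disjoint_biUnion_right]
          intro i hi
          have h5 := hS.disT w' hw'c u' hu' w hwc (u i) (hu i hi)
            (fun h => Finset.disjoint_left.1 hFF hu' (h ▸ hu i hi))
          exact Finset.disjoint_of_subset_right (ht i hi).2 h5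
  · -- serving a non critical agent, then closing up
    obtain ⟨u, t, e1, e2, e3, e4, e5⟩ := h2 C W ι N L D d q UC UW P ZC ZW Cr a F T w I K hE hS hw
      hwc hI hK hUC hUW u0
    have hNC : (I.image u).card = I.card := by
      apply Finset.card_image_of_injOn
      intro i hi j hj hij
      exact e2 i hi j hj hij
    have hYc : (I.biUnion t).card ≤ ∑ i ∈ I, K i := by
      refine Finset.card_biUnion_le.trans (le_of_eq ?_)
      exact Finset.sum_congr rfl fun i hi => (e3 i hi).1
    have hKs : ∑ i ∈ I, K i ≤ D * d := by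
      calc ∑ i ∈ I, K i ≤ I.card • d := Finset.sum_le_card_nsmul I K d hK
        _ = I.card * d := by rw [smul_eq_mul]
        _ ≤ D * d := Nat.mul_le_mul_right d hI
    refine ⟨u, t, ?_, e2, ?_, e4, ?_⟩
    · intro i hi
      exact ⟨(e1 i hi).1, fun h => (e1 i hi).2 (hS.subC h)⟩
    · intro i hi
      exact ⟨(e3 i hi).1, Finset.disjoint_of_subset_right hS.subW (e3 i hi).2.1, (e3 i hi).2.2⟩
    · apply h3 C W N L D d q UC UW P ZC ZW Cr a F T w (I.image u) (I.biUnion t) hE hS hw hwc
      · rw [Finset.disjoint_left]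
        intro c hc
        obtain ⟨i, hi, rfl⟩ := Finset.mem_image.1 hc
        exact (e1 i hi).2
      · rw [Finset.disjoint_biUnion_left]
        intro i hi
        exact (e3 i hi).2.1
      · exact hYc.trans hKs
      · refine (Finset.card_union_le _ _).trans (le_trans ?_ hUW)
        exact Nat.add_le_add_left hYc _
      · refine (Finset.card_union_le _ _).trans (le_trans ?_ hUC)
        rw [hNC]
      · rw [hNC]
        exact e5

end Pool.Agent.H973.SR
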