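import Pool.Agent.H973.SR.Stm

/-!
# Closing up (task SR-CLOSE, helper955)
-/

set_option autoImplicit false
set_option linter.unusedSectionVars false

namespace Pool.Agent.H973.SR

open Finset

namespace CloseL

section mat

variable {γ β : Type} [DecidableEq γ] [DecidableEq β]

lemma Mat.mono {nb : γ → Finset β} {d : ℕ} {Q Q' : Finset γ} {R : Finset β} (h : Mat nb d Q R)
    (hQ : Q ⊆ Q') : Mat nb d Q' R := by
  obtain ⟨T, h1, h2, h3⟩ := h
  refine ⟨fun u => if u ∈ Q then T u else ∅, ?_, ?_, ?_⟩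
  · intro u _
    by_cases hu : u ∈ Q
    · simp only [hu, if_true]
      exact h1 u hu
    · simp only [hu, if_false]
      exact ⟨empty_subset _, by rw [card_empty]; exact Nat.zero_le _⟩
  · intro u _ v _ huv
    by_cases hu : u ∈ Q
    · by_cases hv : v ∈ Q
      · simp only [hu, hv, if_true]
        exact h2 u hu v hv huv
      · simp only [hv, if_false]
        exact disjoint_empty_right _
    · simp only [hu, if_false]
      exact disjoint_empty_left _
  · intro y hy
    obtain ⟨u, hu, hyu⟩ := mem_biUnion.1 (h3 hy)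
    refine mem_biUnion.2 ⟨u, hQ hu, ?_⟩
    simp only [hu, if_true]
    exact hyu

lemma Mat.card_le {nb : γ → Finset β} {d : ℕ} {Q : Finset γ} {R : Finset β} (h : Mat nb d Q R) :
    R.card ≤ Q.card * d := by
  obtain ⟨T, h1, h2, h3⟩ := h
  exact (card_le_card h3).trans (card_biUnion_le_card_mul _ _ _ fun u hu => (h1 u hu).2)

lemma Mat.empty {nb : γ → Finset β} {d : ℕ} {Q : Finset γ} : Mat nb d Q ∅ :=
  ⟨fun _ => ∅, fun _ _ => ⟨empty_subset _, by rw [card_empty]; exact Nat.zero_le _⟩,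
    fun _ _ _ _ _ => disjoint_empty_left _, empty_subset _⟩

end mat

variable {C W : Type} [Fintype W] [DecidableEq C] [DecidableEq W]

lemma crit_mono {N : W → Finset C} {D q : ℕ} {Z Z' : Finset W} {w : W}
    (h : Critical N D q Z w) (hZ : Z ⊆ Z') : Critical N D q Z' w := by
  unfold Critical at *
  refine h.trans (card_le_card ?_)
  intro u hu
  rw [mem_filter] at hu ⊢
  exact ⟨hu.1, (card_le_card (sdiff_subset_sdiff le_rfl hZ)).trans_lt hu.2⟩

/-- a critical agent has many connectors with many neighbours in `Z` -/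
lemma crit_many {N : W → Finset C} {L D d q : ℕ} (hE : Exp2 N L D d q) {Z : Finset W} {w : W}
    (h : Critical N D q Z w) : D ≤ ((N w).filter (fun u => q ≤ ((Nr N u) ∩ Z).card)).card := by
  unfold Critical at h
  refine h.trans (card_le_card ?_)
  intro u hu
  rw [mem_filter] at hu ⊢
  refine ⟨hu.1, ?_⟩
  have h1 := card_sdiff_add_card_inter (Nr N u) Z
  have h2 := hE.deg u
  have h3 := hu.2
  omega

/-- configurations -/
structure Cfg (N : W → Finset C) (L D d q : ℕ) (UW1 P1 : Finset W) (ZC1 : Finset C)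
    (ZW1 Cr : Finset W) (a1 : W → ℕ) (A : Finset W) (Pf : W → Finset C) (R : Finset W) : Prop where
  hA : ∀ x ∈ A, x ∉ Cr ∧ (x ∈ P1 ∨ x ∉ UW1)
  hPf : ∀ x ∈ A, Pf x ⊆ N x \ ZC1 ∧ (Pf x).card = 8 * D
  dis : ∀ x ∈ A, ∀ y ∈ A, x ≠ y → Disjoint (Pf x) (Pf y)
  good : Good N (8 * D) (2 * (2 * L + 1)) (ZC1 ∪ A.biUnion Pf)
    (fun x => if x ∈ A then 8 * D else a1 x)
  disR : Disjoint R ZW1
  mat : Mat (Nr N) d (A.biUnion Pf) R
  crit : ∀ x ∈ A, Critical N D q (ZW1 ∪ R) x
  card : 8 * D * d * (Cr.card + A.card) ≤ L * d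

section

variable {N : W → Finset C} {L D d q : ℕ} {UW1 P1 : Finset W} {ZC1 : Finset C}
    {ZW1 Cr : Finset W} {a1 : W → ℕ} {A : Finset W} {Pf : W → Finset C} {R : Finset W}

lemma Cfg.cardU (h : Cfg N L D d q UW1 P1 ZC1 ZW1 Cr a1 A Pf R) :
    (A.biUnion Pf).card ≤ A.card * (8 * D) :=
  card_biUnion_le_card_mul _ _ _ fun x hx => (h.hPf x hx).2.le

lemma Cfg.cardR (h : Cfg N L D d q UW1 P1 ZC1 ZW1 Cr a1 A Pf R) :
    R.card ≤ A.card * (8 * D) * d :=
  (Mat.card_le h.mat).trans (Nat.mul_le_mul_right _ h.cardU)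

lemma Cfg.disA (h : Cfg N L D d q UW1 P1 ZC1 ZW1 Cr a1 A Pf R) : Disjoint Cr A := by
  rw [disjoint_left]
  intro x hx hxA
  exact (h.hA x hxA).1 hx

/-- adding an agent -/
lemma Cfg.add (h1 : S_ALLOC) (hE : Exp2 N L D d q)
    (h : Cfg N L D d q UW1 P1 ZC1 ZW1 Cr a1 A Pf R)
    (hUW : UW1.card ≤ L * d) (hZC : ZC1.card ≤ L * D + 8 * D * Cr.card)
    (hZW : ZW1.card ≤ UW1.card + 8 * D * d * Cr.card)
    (hcr : ∀ x ∈ Cr, Critical N D q ZW1 x) {x : W} (hxA : x ∉ A) (hxCr : x ∉ Cr)
    (hx : x ∈ P1 ∨ x ∉ UW1) (ha : a1 x = 0) (hc : Critical N D q (ZW1 ∪ R) x) :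
    ∃ S, Cfg N L D d q UW1 P1 ZC1 ZW1 Cr a1 (insert x A) (Function.update Pf x S) R := by
  have hL := hE.hL
  have hd := hE.hd
  have hD := hE.hdD
  set X : Finset W := insert x (Cr ∪ A) with hX
  have hxCA : x ∉ Cr ∪ A := by
    rw [mem_union]
    rintro (h2 | h2)
    · exact hxCr h2
    · exact hxA h2
  have hXc : X.card = Cr.card + A.card + 1 := by
    rw [hX, card_insert_of_notMem hxCA, card_union_of_disjoint h.disA]
  have hall : ∀ y ∈ X, Critical N D q (ZW1 ∪ R) y := by
    intro y hy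
    rw [hX, mem_insert, mem_union] at hy
    rcases hy with rfl | hy | hy
    · exact hc
    · exact crit_mono (hcr y hy) subset_union_left
    · exact h.crit y hy
  have hZ : (ZW1 ∪ R).card ≤ 2 * (L * d) := by
    have h2 := card_union_le ZW1 R
    have h3 := h.cardR
    have h4 := h.card
    have h5 : 8 * D * d * (Cr.card + A.card) = 8 * D * d * Cr.card + A.card * (8 * D) * d := by
      ring
    omega
  have hlt : 24 * D * d * X.card < (ZW1 ∪ R).card := by
    by_contra hcon
    rw [not_lt] at hcon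
    obtain ⟨y, hy, hy2⟩ := hE.e3 X (ZW1 ∪ R) ⟨x, mem_insert_self _ _⟩ hcon
      (by have : 3 * L * d = 3 * (L * d) := by ring
          omega)
    have := crit_many hE (hall y hy)
    omega
  have hcard : 8 * D * d * (Cr.card + (insert x A).card) ≤ L * d := by
    rw [card_insert_of_notMem hxA]
    have h2 : 24 * D * d * X.card = 3 * (8 * D * d * (Cr.card + (A.card + 1))) := by
      rw [hXc]
      ring
    omega
  have hcard2 : 8 * D * (Cr.card + (A.card + 1)) ≤ L := by
    rw [card_insert_of_notMem hxA] at hcard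
    have h2 : 8 * D * (Cr.card + (A.card + 1)) * d ≤ L * d := by
      calc _ = 8 * D * d * (Cr.card + (A.card + 1)) := by ring
        _ ≤ _ := hcard
    exact Nat.le_of_mul_le_mul_right h2 hd
  have hZ2 : (ZC1 ∪ A.biUnion Pf).card + 8 * D ≤ D * (2 * L + 1) := by
    have h2 := card_union_le ZC1 (A.biUnion Pf)
    have h3 := h.cardU
    have h4 : L ≤ L * D := Nat.le_mul_of_pos_right _ hD
    have h5 : 8 * D * (Cr.card + (A.card + 1)) = 8 * D * Cr.card + A.card * (8 * D) + 8 * D := by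
      ring
    have h6 : D * (2 * L + 1) = L * D + L * D + D := by ring
    omega
  obtain ⟨S, hS, hSc, hgood⟩ := h1 W C N (8 * D) D (2 * L + 1) (8 * D) (ZC1 ∪ A.biUnion Pf)
    (fun x => if x ∈ A then 8 * D else a1 x) hE.e1 hZ2 h.good x (by
      simp only [hxA, if_false, ha, zero_add]
      exact le_rfl)
  have hSd : ∀ u ∈ S, u ∈ N x ∧ u ∉ ZC1 ∧ u ∉ A.biUnion Pf := by
    intro u hu
    have h2 := hS hu
    rw [mem_sdiff, mem_union, not_or] at h2
    exact h2
  have hup : ∀ y ∈ A, Function.update Pf x S y = Pf y := by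
    intro y hy
    rw [Function.update_of_ne]
    rintro rfl
    exact hxA hy
  have hbi : (insert x A).biUnion (Function.update Pf x S) = S ∪ A.biUnion Pf := by
    rw [biUnion_insert, Function.update_self]
    congr 1
    exact biUnion_congr rfl hup
  refine ⟨S, ⟨?_, ?_, ?_, ?_, h.disR, ?_, ?_, hcard⟩⟩
  · intro y hy
    rw [mem_insert] at hy
    rcases hy with rfl | hy
    · exact ⟨hxCr, hx⟩
    · exact h.hA y hy
  · intro y hy
    rw [mem_insert] at hy
    rcases hy with rfl | hy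
    · rw [Function.update_self]
      refine ⟨?_, hSc⟩
      intro u hu
      rw [mem_sdiff]
      exact ⟨(hSd u hu).1, (hSd u hu).2.1⟩
    · rw [hup y hy]
      exact h.hPf y hy
  · have key : ∀ y ∈ A, Disjoint S (Pf y) := by
      intro y hy
      rw [disjoint_left]
      intro u hu hu2
      exact (hSd u hu).2.2 (mem_biUnion.2 ⟨y, hy, hu2⟩)
    intro y hy z hz hyz
    rw [mem_insert] at hy hz
    rcases hy with rfl | hy
    · rcases hz with rfl | hz
      · exact absurd rfl hyz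
      · rw [Function.update_self, hup z hz]
        exact key z hz
    · rcases hz with rfl | hz
      · rw [Function.update_self, hup y hy]
        exact (key y hy).symm
      · rw [hup y hy, hup z hz]
        exact h.dis y hy z hz hyz
  · have e1 : ZC1 ∪ (insert x A).biUnion (Function.update Pf x S) = (ZC1 ∪ A.biUnion Pf) ∪ S := by
      rw [hbi, union_comm S, union_assoc]
    have e2 : (fun y => if y ∈ insert x A then 8 * D else a1 y) =
        Function.update (fun x => if x ∈ A then 8 * D else a1 x) x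
          ((fun x => if x ∈ A then 8 * D else a1 x) x + 8 * D) := by
      funext y
      by_cases hy : y = x
      · subst hy
        rw [Function.update_self]
        simp only [mem_insert_self, if_true, hxA, if_false, ha, zero_add]
      · rw [Function.update_of_ne hy]
        simp only [mem_insert, hy, false_or]
    rw [e1, e2]
    exact hgood
  · rw [hbi]
    exact Mat.mono h.mat subset_union_right
  · intro y hy
    rw [mem_insert] at hy
    rcases hy with rfl | hy
    · exact hc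
    · exact h.crit y hy

end

end CloseL

open CloseL

/-- **Task SR-CLOSE.** -/
theorem close (h1 : S_ALLOC) (h2 : S_PACK) : S_CLOSE := by
  intro C W _ _ _ N L D d q UC UW P ZC ZW Cr a F T w NC Y hE hS hwP hwCr hNC hY hYc hUW hUC hG
  have hL := hE.hL
  have hd := hE.hd
  have hD := hE.hdD
  set UW1 := UW ∪ Y with hUW1
  set P1 := P.erase w ∪ Y with hP1
  set ZC1 := ZC ∪ NC with hZC1
  set ZW1 := ZW ∪ Y with hZW1
  set a1 := Function.update a w NC.card with ha1
  -- cardinalities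
  have cUC : (UC ∪ NC).card = UC.card + NC.card :=
    card_union_of_disjoint (hNC.symm.mono_left hS.subC)
  have cUW : UW1.card = UW.card + Y.card :=
    card_union_of_disjoint (hY.symm.mono_left hS.subW)
  have cZC : ZC1.card ≤ (UC ∪ NC).card + 8 * D * Cr.card := by
    have h3 : ZC1.card ≤ ZC.card + NC.card := card_union_le ZC NC
    have h4 := hS.cardC
    omega
  have cZW : ZW1.card ≤ UW1.card + 8 * D * d * Cr.card := by
    have h3 : ZW1.card ≤ ZW.card + Y.card := card_union_le ZW Y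
    have h4 := hS.cardW
    omega
  have sZW : ZW ⊆ ZW1 := subset_union_left
  have sUWZW : UW1 ⊆ ZW1 := union_subset_union_left hS.subW
  have sUCZC : UC ∪ NC ⊆ ZC1 := union_subset_union_left hS.subC
  have hwUW : w ∈ UW := hS.subP hwP
  -- placed or unused
  have hold : ∀ x, (x ∈ P1 ∨ x ∉ UW1) → (x ∈ P ∨ x ∉ UW) ∧ x ≠ w := by
    intro x hx
    rcases hx with hx | hx
    · rw [hP1, mem_union, mem_erase] at hx
      rcases hx with hx | hx
      · exact ⟨Or.inl hx.2, hx.1⟩
      · have h3 : x ∉ ZW := disjoint_left.1 hY hx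
        refine ⟨Or.inr fun h4 => h3 (hS.subW h4), ?_⟩
        rintro rfl
        exact h3 (hS.subW hwUW)
    · rw [hUW1, mem_union, not_or] at hx
      refine ⟨Or.inr hx.1, ?_⟩
      rintro rfl
      exact hx.1 hwUW
  have h0 : ∀ x, x ∉ Cr → (x ∈ P1 ∨ x ∉ UW1) → a1 x = 0 ∧ ¬ Critical N D q ZW x := by
    intro x hx hx2
    obtain ⟨h3, h4⟩ := hold x hx2
    obtain ⟨h5, h6⟩ := hS.ncrit x hx h3
    refine ⟨?_, h6⟩
    rw [ha1, Function.update_of_ne h4]
    exact h5
  have hcr : ∀ x ∈ Cr, Critical N D q ZW1 x := fun x hx => crit_mono (hS.crit x hx) sZW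
  -- a maximal configuration
  classical
  have hex : ∃ (n : ℕ), ∃ A Pf R, Cfg N L D d q UW1 P1 ZC1 ZW1 Cr a1 A Pf R ∧
      A.card + R.card = n := by
    refine ⟨0, ∅, fun _ => ∅, ∅, ⟨?_, ?_, ?_, ?_, ?_, ?_, ?_, ?_⟩, by simp⟩
    · intro x hx
      exact absurd hx (notMem_empty _)
    · intro x hx
      exact absurd hx (notMem_empty _)
    · intro x hx
      exact absurd hx (notMem_empty _)
    · simp only [biUnion_empty, union_empty, notMem_empty, if_false]
      exact hG
    · exact disjoint_empty_left _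
    · exact Mat.empty
    · intro x hx
      exact absurd hx (notMem_empty _)
    · rw [card_empty, add_zero]
      exact hS.cardCr
  obtain ⟨n, hn, hmax⟩ : ∃ n, (∃ A Pf R, Cfg N L D d q UW1 P1 ZC1 ZW1 Cr a1 A Pf R ∧
      A.card + R.card = n) ∧ ∀ m, (∃ A Pf R, Cfg N L D d q UW1 P1 ZC1 ZW1 Cr a1 A Pf R ∧
      A.card + R.card = m) → m ≤ n := by
    have hbd : ∀ m, (∃ A Pf R, Cfg N L D d q UW1 P1 ZC1 ZW1 Cr a1 A Pf R ∧
        A.card + R.card = m) → m ≤ Fintype.card W + Fintype.card W := by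
      rintro m ⟨A, Pf, R, -, rfl⟩
      exact Nat.add_le_add (card_le_univ _) (card_le_univ _)
    refine ⟨_, Nat.findGreatest_spec (P := fun m => ∃ A Pf R,
      Cfg N L D d q UW1 P1 ZC1 ZW1 Cr a1 A Pf R ∧ A.card + R.card = m)
      (hbd _ hex.choose_spec) hex.choose_spec, fun m hm => ?_⟩
    exact Nat.le_findGreatest (hbd m hm) hm
  obtain ⟨A, Pf, R, hcfg, hAR⟩ := hn
  have cZC' : ZC1.card ≤ L * D + 8 * D * Cr.card := by omega
  -- (1)
  have m1 : ∀ x, x ∉ A → x ∉ Cr → (x ∈ P1 ∨ x ∉ UW1) → ¬ Critical N D q (ZW1 ∪ R) x := by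
    intro x hxA hxCr hx hc
    obtain ⟨S, hnew⟩ := Cfg.add h1 hE hcfg hUW cZC' cZW hcr hxA hxCr hx (h0 x hxCr hx).1 hc
    have := hmax _ ⟨_, _, _, hnew, rfl⟩
    rw [card_insert_of_notMem hxA] at this
    omega
  -- (2)
  have m2 : ∀ y, y ∉ ZW1 → y ∉ R → ¬ Mat (Nr N) d (A.biUnion Pf) (insert y R) := by
    intro y hy hyR hm
    have hnew : Cfg N L D d q UW1 P1 ZC1 ZW1 Cr a1 A Pf (insert y R) := by
      refine ⟨hcfg.hA, hcfg.hPf, hcfg.dis, hcfg.good, ?_, hm, ?_, hcfg.card⟩
      · rw [disjoint_insert_left]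
        exact ⟨hy, hcfg.disR⟩
      · intro x hx
        exact crit_mono (hcfg.crit x hx) (union_subset_union_right (subset_insert _ _))
    have := hmax _ ⟨_, _, _, hnew, rfl⟩
    rw [card_insert_of_notMem hyR] at this
    omega
  -- (3)
  have m3 : ∀ X ⊆ A, X.Nonempty → ∀ V : W → Finset C,
      (∀ x ∈ X, V x ⊆ Pf x ∧ (Pf x).card < (V x).card + D) →
      d * (X.biUnion V).card ≤ (((X.biUnion V).biUnion (Nr N)) \ ZW1).card := by
    intro X hX hXne V hV
    by_contra hcon
    rw [not_le] at hcon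
    set A' := ((X.biUnion V).biUnion (Nr N)) \ ZW1 with hA'
    have c1 : (X.biUnion V).card ≤ X.card * (8 * D) :=
      card_biUnion_le_card_mul _ _ _ fun x hx =>
        (card_le_card (hV x hx).1).trans (hcfg.hPf x (hX hx)).2.le
    have c2 : A'.card < 8 * D * d * X.card := by
      calc A'.card < d * (X.biUnion V).card := hcon
        _ ≤ d * (X.card * (8 * D)) := Nat.mul_le_mul_left _ c1
        _ = _ := by ring
    have c3 : X.card ≤ A.card := card_le_card hX
    have c4 : 1 ≤ X.card := hXne.card_pos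
    have c5 : 8 * D * d * X.card ≤ L * d := by
      refine le_trans (Nat.mul_le_mul_left _ ?_) hcfg.card
      omega
    have c6 := card_union_le A' Y
    have c7 : D * d ≤ D * d * X.card := Nat.le_mul_of_pos_right _ c4
    have c8 : 24 * D * d * X.card = 8 * D * d * X.card + D * d * X.card + 15 * (D * d * X.card) := by
      ring
    have c9 : Y.card ≤ L * d := (card_le_card subset_union_right).trans hUW
    have c10 : 3 * L * d = 3 * (L * d) := by ring
    obtain ⟨x, hxX, hx⟩ := hE.e3 X (A' ∪ Y) hXne (by omega) (by omega)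
    have hxA := hX hxX
    obtain ⟨hxCr, hxP⟩ := hcfg.hA x hxA
    have hnc := (h0 x hxCr hxP).2
    unfold Critical at hnc
    rw [not_le] at hnc
    have hVN : V x ⊆ N x := fun u hu =>
      (mem_sdiff.1 ((hcfg.hPf x hxA).1 ((hV x hxX).1 hu))).1
    have hVc := (hV x hxX).2
    rw [(hcfg.hPf x hxA).2] at hVc
    obtain ⟨u, hu, hu2⟩ : ∃ u ∈ V x, u ∉ (N x).filter (fun u => q ≤ ((Nr N u) ∩ (A' ∪ Y)).card) ∪
        (N x).filter (fun u => ((Nr N u) \ ZW).card < 2 * q) := by
      by_contra hno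
      push Not at hno
      have h3 := card_le_card (show V x ⊆ _ from hno)
      have h4 := card_union_le ((N x).filter (fun u => q ≤ ((Nr N u) ∩ (A' ∪ Y)).card))
        ((N x).filter (fun u => ((Nr N u) \ ZW).card < 2 * q))
      omega
    rw [mem_union, mem_filter, mem_filter, not_or, not_and, not_and, not_le, not_lt] at hu2
    have h3 := hu2.1 (hVN hu)
    have h4 := hu2.2 (hVN hu)
    have h5 : Nr N u \ ZW ⊆ Nr N u ∩ (A' ∪ Y) := by
      intro y hy
      rw [mem_sdiff] at hy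
      rw [mem_inter, mem_union]
      refine ⟨hy.1, ?_⟩
      by_cases hyY : y ∈ Y
      · exact Or.inr hyY
      · left
        rw [hA', mem_sdiff, mem_biUnion]
        refine ⟨⟨u, mem_biUnion.2 ⟨x, hxX, hu⟩, hy.1⟩, ?_⟩
        rw [hZW1, mem_union, not_or]
        exact ⟨hy.2, hyY⟩
    have h6 := card_le_card h5
    omega
  -- (4)
  obtain ⟨F₁, T₁, hF₁, hT₁, hdT₁⟩ := h2 W C W A Pf D (Nr N) d ZW1 R hd hcfg.dis
    (fun x hx => by rw [(hcfg.hPf x hx).2]; omega) hcfg.disR hcfg.mat m2 m3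
  -- auxiliary facts
  have hPfZ : ∀ x ∈ A, ∀ u ∈ Pf x, u ∈ N x ∧ u ∉ ZC1 := fun x hx u hu =>
    mem_sdiff.1 ((hcfg.hPf x hx).1 hu)
  have hFZ : ∀ x ∈ A, ∀ u ∈ F₁ x, u ∈ N x ∧ u ∉ ZC1 := fun x hx u hu =>
    hPfZ x hx u ((hF₁ x hx).1 hu)
  have hFU : ∀ x ∈ A, ∀ u ∈ F₁ x, u ∈ A.biUnion Pf := fun x hx u hu =>
    mem_biUnion.2 ⟨x, hx, (hF₁ x hx).1 hu⟩
  have hFo : ∀ x ∈ Cr, ∀ u ∈ F x, u ∈ ZC ∧ u ∉ A.biUnion Pf := by
    intro x hx u hu
    have h3 : u ∈ ZC := (mem_inter.1 ((hS.resF x hx).1 hu)).2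
    refine ⟨h3, fun h4 => ?_⟩
    obtain ⟨y, hy, hy2⟩ := mem_biUnion.1 h4
    exact (hPfZ y hy u hy2).2 (mem_union_left _ h3)
  have hCA : ∀ x ∈ Cr, x ∉ A := fun x hx h3 => (hcfg.hA x h3).1 hx
  have hcase : ∀ x ∈ Cr ∪ A, (x ∈ A) ∨ (x ∈ Cr ∧ x ∉ A) := by
    intro x hx
    rw [mem_union] at hx
    rcases hx with hx | hx
    · exact Or.inr ⟨hx, hCA x hx⟩
    · exact Or.inl hx
  have cCr : (Cr ∪ A).card = Cr.card + A.card := card_union_of_disjoint hcfg.disA
  set F' : W → Finset C := fun x => if x ∈ A then F₁ x else F x with hF'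
  set T' : C → Finset W := fun u => if u ∈ A.biUnion Pf then T₁ u else T u with hT'
  have F'A : ∀ x ∈ A, F' x = F₁ x := fun x hx => if_pos hx
  have F'C : ∀ x ∈ Cr, F' x = F x := fun x hx => if_neg (hCA x hx)
  have T'A : ∀ x ∈ A, ∀ u ∈ F₁ x, T' u = T₁ u := fun x hx u hu => if_pos (hFU x hx u hu)
  have T'C : ∀ x ∈ Cr, ∀ u ∈ F x, T' u = T u := fun x hx u hu => if_neg (hFo x hx u hu).2
  refine ⟨ZC1 ∪ A.biUnion Pf, ZW1 ∪ R, Cr ∪ A, fun x => if x ∈ A then 8 * D else a1 x, F', T',
    ⟨hcfg.good, ?_, ?_, ?_, ?_, ?_, ?_, ?_, ?_, ?_, ?_, ?_, ?_, ?_⟩⟩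
  · exact sUCZC.trans subset_union_left
  · exact sUWZW.trans subset_union_left
  · exact union_subset_union_left ((erase_subset _ _).trans hS.subP)
  · have h3 := card_union_le ZC1 (A.biUnion Pf)
    have h4 := hcfg.cardU
    rw [cCr]
    have h5 : 8 * D * (Cr.card + A.card) = 8 * D * Cr.card + A.card * (8 * D) := by ring
    omega
  · have h3 := card_union_le ZW1 R
    have h4 := hcfg.cardR
    rw [cCr]
    have h5 : 8 * D * d * (Cr.card + A.card) = 8 * D * d * Cr.card + A.card * (8 * D) * d := by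
      ring
    omega
  · rw [cCr]
    exact hcfg.card
  · intro x hx
    rcases hcase x hx with hx | ⟨hx, -⟩
    · exact hcfg.crit x hx
    · exact crit_mono (hcr x hx) subset_union_left
  · intro x hx hx2
    rw [mem_union, not_or] at hx
    refine ⟨?_, m1 x hx.2 hx.1 hx2⟩
    simp only [hx.2, if_false]
    exact (h0 x hx.1 hx2).1
  · intro x hx
    rcases hcase x hx with hx | ⟨hx, -⟩
    · rw [F'A x hx]
      refine ⟨fun u hu => ?_, (hF₁ x hx).2⟩
      rw [mem_inter]
      exact ⟨(hFZ x hx u hu).1, mem_union_right _ (hFU x hx u hu)⟩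
    · rw [F'C x hx]
      refine ⟨fun u hu => ?_, (hS.resF x hx).2⟩
      rw [mem_inter]
      have h3 := mem_inter.1 ((hS.resF x hx).1 hu)
      exact ⟨h3.1, mem_union_left _ (mem_union_left _ h3.2)⟩
  · intro x hx u hu
    rcases hcase x hx with hx | ⟨hx, -⟩
    · rw [F'A x hx] at hu
      rw [T'A x hx u hu]
      refine ⟨fun y hy => ?_, (hT₁ x hx u hu).2⟩
      have h3 := mem_inter.1 ((hT₁ x hx u hu).1 hy)
      rw [mem_inter]
      exact ⟨h3.1, mem_union_right _ h3.2⟩
    · rw [F'C x hx] at hu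
      rw [T'C x hx u hu]
      refine ⟨fun y hy => ?_, (hS.resT x hx u hu).2⟩
      have h3 := mem_inter.1 ((hS.resT x hx u hu).1 hy)
      rw [mem_inter]
      exact ⟨h3.1, mem_union_left _ (mem_union_left _ h3.2)⟩
  · intro x hx y hy hxy
    rcases hcase x hx with hx | ⟨hx, -⟩
    · rcases hcase y hy with hy | ⟨hy, -⟩
      · rw [F'A x hx, F'A y hy]
        exact (hcfg.dis x hx y hy hxy).mono (hF₁ x hx).1 (hF₁ y hy).1
      · rw [F'A x hx, F'C y hy, disjoint_left]
        intro u hu hu2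
        exact (hFZ x hx u hu).2 (mem_union_left _ (hFo y hy u hu2).1)
    · rcases hcase y hy with hy | ⟨hy, -⟩
      · rw [F'C x hx, F'A y hy, disjoint_left]
        intro u hu hu2
        exact (hFZ y hy u hu2).2 (mem_union_left _ (hFo x hx u hu).1)
      · rw [F'C x hx, F'C y hy]
        exact hS.disF x hx y hy hxy
  · intro x hx u hu y hy v hv huv
    rcases hcase x hx with hx | ⟨hx, -⟩
    · rw [F'A x hx] at hu
      rw [T'A x hx u hu]
      rcases hcase y hy with hy | ⟨hy, -⟩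
      · rw [F'A y hy] at hv
        rw [T'A y hy v hv]
        exact hdT₁ x hx u hu y hy v hv huv
      · rw [F'C y hy] at hv
        rw [T'C y hy v hv, disjoint_left]
        intro z hz hz2
        have h3 := (mem_inter.1 ((hT₁ x hx u hu).1 hz)).2
        have h4 := (mem_inter.1 ((hS.resT y hy v hv).1 hz2)).2
        exact disjoint_left.1 hcfg.disR h3 (mem_union_left _ h4)
    · rw [F'C x hx] at hu
      rw [T'C x hx u hu]
      rcases hcase y hy with hy | ⟨hy, -⟩
      · rw [F'A y hy] at hv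
        rw [T'A y hy v hv, disjoint_left]
        intro z hz hz2
        have h3 := (mem_inter.1 ((hT₁ y hy v hv).1 hz2)).2
        have h4 := (mem_inter.1 ((hS.resT x hx u hu).1 hz)).2
        exact disjoint_left.1 hcfg.disR h3 (mem_union_left _ h4)
      · rw [F'C y hy] at hv
        rw [T'C y hy v hv]
        exact hS.disT x hx u hu y hy v hv huv
  · intro x hx hx2
    rcases hcase x hx with hx | ⟨hx, -⟩
    · rw [F'A x hx]
      refine ⟨?_, fun u hu => ?_⟩
      · rw [disjoint_left]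
        intro u hu hu2
        exact (hFZ x hx u hu).2 (sUCZC hu2)
      · rw [T'A x hx u hu, disjoint_left]
        intro z hz hz2
        exact disjoint_left.1 hcfg.disR (mem_inter.1 ((hT₁ x hx u hu).1 hz)).2 (sUWZW hz2)
    · rw [F'C x hx]
      obtain ⟨h3, h4⟩ := hS.free x hx (hold x hx2).1
      refine ⟨?_, fun u hu => ?_⟩
      · rw [disjoint_union_right]
        refine ⟨h3, ?_⟩
        rw [disjoint_left]
        intro u hu hu2
        exact disjoint_left.1 hNC hu2 (hFo x hx u hu).1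
      · rw [T'C x hx u hu, hUW1, disjoint_union_right]
        refine ⟨h4 u hu, ?_⟩
        rw [disjoint_left]
        intro z hz hz2
        exact disjoint_left.1 hY hz2 (mem_inter.1 ((hS.resT x hx u hu).1 hz)).2

end Pool.Agent.H973.SR
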