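import Pool.Agent.H973.SR.Stm

/-!
# Multicolour size-Ramsey numbers of trees: host graph, union bounds, final assembly
-/

namespace Pool.Agent.H973.SR

open Finset

/-! ### Parameters and the random host -/

/-- the constant `B = 2^20` -/
def B : ℕ := 2 ^ 20

/-- parameters: `r` colours, `l = ⌈log_2 r⌉`, `d ≤ D` the two maximal degrees, class sizes at most
`L*D` (connectors) and `L*d` (agents) -/
structure Par (r l L D d : ℕ) : Prop where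
  hr : 2 ≤ r
  hl : 1 ≤ l
  hrl : r ≤ 2 ^ l
  hlr : 2 ^ l ≤ 2 * r
  hlL : l ≤ L
  hd : 1 ≤ d
  hdD : d ≤ D

/-- sample space: every connector chooses `s` of the `N2` agents -/
abbrev Om (N1 N2 s : ℕ) : Type := Fin N1 → {A : Finset (Fin N2) // A.card = s}

open Classical in
/-- uniform probability on a finite type -/
noncomputable def Pr {Ω : Type} [Fintype Ω] (E : Ω → Prop) : ℝ :=
  ((univ.filter E).card : ℝ) / (Fintype.card Ω : ℝ)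

/-- Witness union bound.  PROOF: for a fixed `E` put `T u := {w : (u,w) ∈ E}`; the number of `S` with
`T u ⊆ S u` for all `u` is `∏ C(N2 - |T u|, s - |T u|)` (or `0`), and
`C(N2 - t, s - t) / C(N2, s) = ∏_{j<t} (s-j)/(N2-j) ≤ (s/N2)^t` for `t ≤ s ≤ N2`.  Sum over `E`. -/
def S_WIT : Prop :=
  ∀ (N1 N2 s k : ℕ) (𝒲 : Finset (Finset (Fin N1 × Fin N2))), s ≤ N2 → (∀ E ∈ 𝒲, E.card = k) →
    Pr (fun S : Om N1 N2 s => ∃ E ∈ 𝒲, ∀ p ∈ E, p.2 ∈ (S p.1).1)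
      ≤ (𝒲.card : ℝ) * ((s : ℝ) / N2) ^ k

/-- PROOF: `C(n,k) ≤ n^k / k!` and `k! ≥ (k/3)^k` (from `e < 3`, or by induction with
`(1+1/k)^k ≤ 3`). -/
def S_CHOOSE : Prop :=
  ∀ (n k : ℕ), 1 ≤ k → ((n.choose k : ℕ) : ℝ) ≤ (3 * (n : ℝ) / k) ^ k

/-- level 1 expansion: no small `X` has almost all its edges in a small `F` -/
def P1 {N1 N2 : ℕ} (L D h : ℕ) (S : Fin N1 → Finset (Fin N2)) : Prop :=
  ∀ (X : Finset (Fin N2)) (F : Finset (Fin N1)), X.Nonempty → X.card ≤ 6 * L →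
    F.card ≤ 9 * D * X.card → ∑ u ∈ F, ((S u) ∩ X).card < h * X.card

/-- level 2 expansion (used for small `D`) -/
def P2 {N1 N2 : ℕ} (L d g : ℕ) (S : Fin N1 → Finset (Fin N2)) : Prop :=
  ∀ (X : Finset (Fin N1)) (Y : Finset (Fin N2)), X.Nonempty → X.card ≤ 4 * L →
    Y.card ≤ 2 * d * X.card → ∑ u ∈ X, ((S u) ∩ Y).card < g * X.card

/-- two level expansion (used for large `D`) -/
def P3 {N1 N2 : ℕ} (L D d q : ℕ) (S : Fin N1 → Finset (Fin N2)) : Prop :=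
  ∀ (X Y : Finset (Fin N2)), X.Nonempty → Y.card ≤ 24 * D * d * X.card → Y.card ≤ 3 * L * d →
    ∃ w ∈ X, (univ.filter (fun u => w ∈ S u ∧ q ≤ ((S u) ∩ Y).card)).card < D

/-- nearly disjoint neighbourhoods for very small `X` -/
def P4 {N1 N2 : ℕ} (L D : ℕ) (S : Fin N1 → Finset (Fin N2)) : Prop :=
  ∀ (X : Finset (Fin N2)) (F : Finset (Fin N1)), 2 ≤ X.card → 4 * D * X.card ≤ L →
    F.card ≤ (D / 4) * X.card → ∑ u ∈ F, ((S u) ∩ X).card < D * X.card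

/-- numerical estimate for `P1`.
PROOF.  `z := B L / (108 x) ≥ B/648 ≥ 1618`.  By `S_CHOOSE`: `C(BrLd, x) ≤ (3BrLd/x)^x = (324 r d z)^x`,
`C(BrLD, 9Dx) ≤ (BrL/(3x))^(9Dx) = (36 r z)^(9Dx)`,
`C(9Dx·x, hx) (l/L)^(hx) ≤ (27 D x l/(h L))^(hx) = z^(-hx)` with `h = 2^18 l D = B l D / 4`.
Since `324, 36 ≤ z`, `r ≤ 2^l ≤ z^l`, `d ≤ D ≤ 2^D ≤ z^D`: the product is
`≤ z^((2+l+D) x + (2+l) 9 D x - 2^18 l D x) ≤ z^(-x) ≤ 8^(-x)`. -/
def S_NUM1 : Prop :=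
  ∀ r l L D d x : ℕ, Par r l L D d → 1 ≤ x → x ≤ 6 * L →
    (((B * r * L * d).choose x : ℕ) : ℝ) * (((B * r * L * D).choose (9 * D * x) : ℕ) : ℝ) *
      (((9 * D * x * x).choose (2 ^ 18 * l * D * x) : ℕ) : ℝ) *
      ((l : ℝ) / L) ^ (2 ^ 18 * l * D * x) ≤ (1 / 8) ^ x

/-- numerical estimate for `P2`.
PROOF.  `z := B L / (24 x) ≥ B/96 ≥ 10922`.  `C(BrLD, x) ≤ (72 r D z)^x`,
`C(BrLd, 2dx) ≤ (36 r z)^(2dx)`, `C(2dx·x, gx) (l/L)^(gx) ≤ (6 d x l/(g L))^(gx) = z^(-gx)` with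
`g = 2^18 l d`.  `D < 2^60 r^4 ≤ 2^(64 l) ≤ z^(64 l)`, `r ≤ z^l`, `72, 36 ≤ z`: the product is
`≤ z^((2 + 65 l) x + (2 + l) 2 d x - 2^18 l d x) ≤ z^(-x)`. -/
def S_NUM2 : Prop :=
  ∀ r l L D d x : ℕ, Par r l L D d → D < 2 ^ 60 * r ^ 4 → 1 ≤ x → x ≤ 4 * L →
    (((B * r * L * D).choose x : ℕ) : ℝ) * (((B * r * L * d).choose (2 * d * x) : ℕ) : ℝ) *
      (((2 * d * x * x).choose (2 ^ 18 * l * d * x) : ℕ) : ℝ) *
      ((l : ℝ) / L) ^ (2 ^ 18 * l * d * x) ≤ (1 / 8) ^ x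

/-- numerical estimate for `P4`.
PROOF.  `τ := L/x ≥ 4D ≥ 2^62 r^4`, `f := (D/4) x` with `D/8 ≤ D/4 (floor)`, `f ≤ D x/4`.
`C(BrLd, x) ≤ (3 B r d τ)^x ≤ τ^(3x)` (`3Br ≤ τ`, `d ≤ D ≤ τ`),
`C(BrLD, f) ≤ (24 B r τ)^f ≤ (24 B r τ)^(D x/4)`,
`C(f x, D x)(l/L)^(Dx) ≤ (3 x l / (4 L))^(Dx) = (3 l/(4τ))^(Dx)`, and
`24 B r τ (3l/(4τ))^4 ≤ 8 B r l^4/τ^3 ≤ τ^(-2)` since `l^2 ≤ 4r` (from `2^l ≤ 2r`),
`8·2^20·16 r^3 ≤ 2^62 r^4 ≤ τ`.  Product `≤ τ^(3x - D x/2) ≤ τ^(-x)`. -/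
def S_NUM4 : Prop :=
  ∀ r l L D d x : ℕ, Par r l L D d → 2 ^ 60 * r ^ 4 ≤ D → 2 ≤ x → 4 * D * x ≤ L →
    (((B * r * L * d).choose x : ℕ) : ℝ) * (((B * r * L * D).choose ((D / 4) * x) : ℕ) : ℝ) *
      ((((D / 4) * x * x).choose (D * x) : ℕ) : ℝ) *
      ((l : ℝ) / L) ^ (D * x) ≤ (1 / 8) ^ x

/-- numerical estimate for `P3`.
PROOF.  `z := B L d / (96 y) ≥ B/288 ≥ 3640` (`y ≤ 3Ld`), and `B L / x ≤ 2304 D z` (`y ≤ 24Ddx`).
`C(BrLd, x) ≤ (3BrLd/x)^x ≤ (6912 r d D z)^x ≤ z^(6 l D x)`,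
`C(BrLd, y) ≤ (3BrLd/y)^y = (288 r z)^y ≤ z^((2+l) 24 D d x)` (`y ≤ 24Ddx`, `288 ≤ z`),
with `f := (D/4) x ≥ D x/8`:
`C(BrLD, f) (x l/L)^f ≤ (3 B r D x l/f)^f ≤ (24 B r l)^f ≤ z^((3 + 2l) f)` (`24 B ≤ z^3`),
`C(y, q-1) (l/L)^(q-1) ≤ (3 y l/((q-1) L))^(q-1) ≤ (6 y l/(q L))^(q-1) = z^(-(q-1))`
(`q = 2^16 l d = B l d/16`), total power `f`: `z^(-(q-1) f)`, `(q-1) f ≥ q D x/16 = 2^12 l d D x`.
Exponents: `6 l D x + 72 l D d x + 5 l D x ≤ 2^12 l d D x - x`. -/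
def S_NUM3 : Prop :=
  ∀ r l L D d x : ℕ, Par r l L D d → 2 ^ 60 * r ^ 4 ≤ D → 1 ≤ x →
    (((B * r * L * d).choose x : ℕ) : ℝ) *
      (((B * r * L * d).choose (min (24 * D * d * x) (3 * L * d)) : ℕ) : ℝ) *
      (((B * r * L * D).choose ((D / 4) * x) : ℕ) : ℝ) *
      ((x : ℝ) * (((min (24 * D * d * x) (3 * L * d)).choose (2 ^ 16 * l * d - 1) : ℕ) : ℝ))
        ^ ((D / 4) * x) *
      ((l : ℝ) / L) ^ (2 ^ 16 * l * d * ((D / 4) * x)) ≤ (1 / 8) ^ x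

/-- PROOF.  If `P1` fails for `(X, F)` with `|X| = x`, extend `F` to size exactly `9 D x`
(`≤ N1 = B r L D`) and choose a set of exactly `h x` pairs `(u, w)`, `u ∈ F`, `w ∈ X ∩ S u`
(`h = 2^18 l D`).  `S_WIT` for the family of all such pair sets, for each `x ∈ [1, 6L]`
(at most `C(N2,x) C(N1,9Dx) C(9Dx·x, hx)` of them), `s/N2 = l/L`, `S_NUM1` and
`∑_{x ≥ 1} 8^(-x) ≤ 1/4`. -/
def S_BAD1 : Prop :=
  ∀ r l L D d : ℕ, Par r l L D d →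
    Pr (fun S : Om (B * r * L * D) (B * r * L * d) (B * r * l * d) =>
      ¬ P1 L D (2 ^ 18 * l * D) (fun u => (S u).1)) ≤ 1 / 4

/-- PROOF.  As `S_BAD1` with `(X, Y)`, `Y` extended to size exactly `2 d x`, `g x` pairs. -/
def S_BAD2 : Prop :=
  ∀ r l L D d : ℕ, Par r l L D d → D < 2 ^ 60 * r ^ 4 →
    Pr (fun S : Om (B * r * L * D) (B * r * L * d) (B * r * l * d) =>
      ¬ P2 L d (2 ^ 18 * l * d) (fun u => (S u).1)) ≤ 1 / 4

/-- PROOF.  As `S_BAD1`: `F` extended to size exactly `(D/4) x`, `D x` pairs. -/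
def S_BAD4 : Prop :=
  ∀ r l L D d : ℕ, Par r l L D d → 2 ^ 60 * r ^ 4 ≤ D →
    Pr (fun S : Om (B * r * L * D) (B * r * L * d) (B * r * l * d) =>
      ¬ P4 L D (fun u => (S u).1)) ≤ 1 / 4

/-- PROOF.  Let `S` satisfy `P4` but not `P3`, with `(X, Y)` violating `P3`.  Put
`x1 := max 1 ⌈L/(8D)⌉`.  If `|X| > x1` replace `X` by a subset of size `x1`
(`|Y| ≤ 3 L d ≤ 24 D d x1` still holds).  So `x := |X| ≤ x1`; if `x ≥ 2` then `4 D x ≤ L`.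
Extend `Y` to size exactly `y := min (24 D d x) (3 L d)` (monotone).  Let
`F := {u : S u ∩ X ≠ ∅, |S u ∩ Y| ≥ q}`, `q = 2^16 l d`.  Every `w ∈ X` has at least `D` neighbours
in `F`, so `∑_{u ∈ F} |S u ∩ X| ≥ D x`, hence `|F| > (D/4) x` (by `P4` if `x ≥ 2`, trivially if
`x = 1`).  Choose `F₀ ⊆ F`, `|F₀| = (D/4) x`, for every `u ∈ F₀` some `w_u ∈ X ∩ S u` and
`T_u ⊆ (Y ∩ S u) \ {w_u}` of size `q - 1`.  The witness (set of pairs `(u, w)`,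
`w ∈ T_u ∪ {w_u}`) has size `q (D/4) x`; the number of witnesses for given `x` is at most
`C(N2,x) C(N2,y) C(N1,(D/4)x) (x C(y,q-1))^((D/4)x)`.  `S_WIT`, `S_NUM3`, sum over
`x ∈ [1, x1]`. -/
def S_BAD3 : Prop :=
  ∀ r l L D d : ℕ, Par r l L D d → 2 ^ 60 * r ^ 4 ≤ D →
    Pr (fun S : Om (B * r * L * D) (B * r * L * d) (B * r * l * d) =>
      P4 L D (fun u => (S u).1) ∧ ¬ P3 L D d (2 ^ 16 * l * d) (fun u => (S u).1)) ≤ 1 / 4

/-- PROOF: union bound `≤ 3/4 < 1` from `S_BAD1` to `S_BAD4` (the space is nonempty: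
`B r l d ≤ B r L d`). -/
def S_HOST : Prop :=
  ∀ r l L D d : ℕ, Par r l L D d →
    ∃ S : Fin (B * r * L * D) → Finset (Fin (B * r * L * d)),
      (∀ u, (S u).card = B * r * l * d) ∧ P1 L D (2 ^ 18 * l * D) S ∧
      (D < 2 ^ 60 * r ^ 4 → P2 L d (2 ^ 18 * l * d) S) ∧
      (2 ^ 60 * r ^ 4 ≤ D → P3 L D d (2 ^ 16 * l * d) S)

/-! ### Majority colour and cleaning -/

/-- PROOF: some colour `i` has `e_i > g N1 + h N2` pairs (pigeonhole).  Choose `(C', W')`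
maximising `e_i(C', W') - g |C'| - h |W'|` (integer valued); the maximum is positive. -/
def S_CLEAN : Prop :=
  ∀ (N1 N2 s r g h : ℕ) (S : Fin N1 → Finset (Fin N2)) (c : Fin N1 → Fin N2 → Fin r),
    (∀ u, (S u).card = s) → r * (g * N1 + h * N2) < N1 * s →
    ∃ (i : Fin r) (C' : Finset (Fin N1)) (W' : Finset (Fin N2)), C'.Nonempty ∧ W'.Nonempty ∧
      (∀ u ∈ C', g ≤ (((S u) ∩ W').filter (fun w => c u w = i)).card) ∧
      (∀ w ∈ W', h ≤ (C'.filter (fun u => w ∈ S u ∧ c u w = i)).card)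

/-- colour `i` bipartite graph -/
def colN {N1 N2 r : ℕ} (S : Fin N1 → Finset (Fin N2)) (c : Fin N1 → Fin N2 → Fin r) (i : Fin r) :
    Fin N2 → Finset (Fin N1) :=
  fun w => univ.filter (fun u => w ∈ S u ∧ c u w = i)

/-- tree data: `T` is a tree with proper colouring `κ`, `v0` an agent, class sizes at most `L*D`
(connectors) and `L*d` (agents), degrees at most `D` (agents) and `d` (connectors) -/
structure TD {V : Type} [Fintype V] (T : SimpleGraph V) [DecidableRel T.Adj] (κ : V → Bool)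
    (v0 : V) (L D d : ℕ) : Prop where
  tree : T.IsTree
  col : ∀ x y, T.Adj x y → κ x ≠ κ y
  root : κ v0 = true
  n1 : (univ.filter (fun v => κ v = false)).card ≤ L * D
  n2 : (univ.filter (fun v => κ v = true)).card ≤ L * d
  dD : ∀ v, κ v = true → T.degree v ≤ D
  dd : ∀ v, κ v = false → T.degree v ≤ d

/-- PROOF: `S_CLEAN` for `S u = univ`, `s = N2 = 4 r L d`, `N1 = 4 r L D`, `g = L d`, `h = L D`
(`r (g N1 + h N2) = 8 r² L² D d < 16 r² L² D d`), then `S_CASE0` for the subtypes `C'`, `W'`. -/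
def S_EMB0 : Prop :=
  ∀ (V : Type) [Fintype V] [DecidableEq V] (T : SimpleGraph V) [DecidableRel T.Adj] (κ : V → Bool)
    (v0 : V) (r L D d : ℕ), 1 ≤ r → 1 ≤ L → 1 ≤ d → 1 ≤ D → TD T κ v0 L D d →
    ∀ c : Fin (4 * r * L * D) → Fin (4 * r * L * d) → Fin r,
      ∃ i, TreeIn (colN (fun _ => univ) c i) T κ

/-- PROOF: `S_CLEAN` with `s = B r l d`, `g = 2^18 l d`, `h = 2^18 l D`
(`r (g N1 + h N2) = 2^19 B r² l L D d < B² r² l L D d = N1 s`), then `S_CASE1` for the subtypes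
`{u // u ∈ C'}`, `{w // w ∈ W'}` and `N w := {u ∈ C' : w ∈ S u, c u w = i}`.  Expansion of agents:
if `X ≠ ∅`, `|X| ≤ 2(L+1) ≤ 6L` had `|N(X)| < 2D|X| ≤ 9D|X|` then with `F := N(X)`:
`∑_{u ∈ F} |S u ∩ X| ≥ ∑_{w ∈ X} |N w| ≥ h |X|`, contradicting `P1`.  Expansion of connectors: the
same with `P2` (`2(L+1) ≤ 4L`). -/
def S_EMB1 : Prop :=
  ∀ (V : Type) [Fintype V] [DecidableEq V] (T : SimpleGraph V) [DecidableRel T.Adj] (κ : V → Bool)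
    (v0 : V) (r l L D d : ℕ) (S : Fin (B * r * L * D) → Finset (Fin (B * r * L * d))),
    Par r l L D d → TD T κ v0 L D d → (∀ u, (S u).card = B * r * l * d) →
    P1 L D (2 ^ 18 * l * D) S → P2 L d (2 ^ 18 * l * d) S →
    ∀ c : Fin (B * r * L * D) → Fin (B * r * L * d) → Fin r, ∃ i, TreeIn (colN S c i) T κ

/-- PROOF: as `S_EMB1`, but `S_CASE2` with `q = 2^16 l d` (`4 q = g`); `Exp2.e1` from `P1`
(`2(2L+1) ≤ 6L`), `Exp2.e3` from `P3`. -/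
def S_EMB2 : Prop :=
  ∀ (V : Type) [Fintype V] [DecidableEq V] (T : SimpleGraph V) [DecidableRel T.Adj] (κ : V → Bool)
    (v0 : V) (r l L D d : ℕ) (S : Fin (B * r * L * D) → Finset (Fin (B * r * L * d))),
    Par r l L D d → TD T κ v0 L D d → (∀ u, (S u).card = B * r * l * d) →
    P1 L D (2 ^ 18 * l * D) S → P3 L D d (2 ^ 16 * l * d) S →
    ∀ c : Fin (B * r * L * D) → Fin (B * r * L * d) → Fin r, ∃ i, TreeIn (colN S c i) T κ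

/-! ### The main theorem -/

/-- `G → (T)_r`: every colouring of the edges of `G` with `r` colours contains a monochromatic copy
of `T` -/
def Arrows {U V : Type} (G : SimpleGraph U) (T : SimpleGraph V) (r : ℕ) : Prop :=
  ∀ c : G.edgeSet → Fin r, ∃ (i : Fin r) (f : V → U), Function.Injective f ∧
    ∀ a b, T.Adj a b → ∃ h : G.Adj (f a) (f b), c ⟨s(f a, f b), h⟩ = i

/-- the `r`-colour size-Ramsey number -/
noncomputable def sizeRamsey {V : Type} (T : SimpleGraph V) (r : ℕ) : ℕ :=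
  sInf {m : ℕ | ∃ (n : ℕ) (G : SimpleGraph (Fin n)), G.edgeSet.ncard = m ∧ Arrows G T r}

/-- PROOF: graph on `Fin N1 ⊕ Fin N2` (transported to `Fin (N1 + N2)` by an equivalence) with edges
`inl u ~ inr w` for `w ∈ S u`; it has `N1 * s` edges; a colouring of the edges gives
`c : Fin N1 → Fin N2 → Fin r` (arbitrary outside the edges, `r ≥ 1`), and `TreeIn` gives the
embedding. -/
def S_ARR : Prop :=
  ∀ (V : Type) [Fintype V] (T : SimpleGraph V) (κ : V → Bool)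
    (N1 N2 s r : ℕ) (S : Fin N1 → Finset (Fin N2)), 1 ≤ r →
    (∀ x y, T.Adj x y → κ x ≠ κ y) → (∀ u, (S u).card = s) →
    (∀ c : Fin N1 → Fin N2 → Fin r, ∃ i, TreeIn (colN S c i) T κ) →
    ∃ (n : ℕ) (G : SimpleGraph (Fin n)), G.edgeSet.ncard = N1 * s ∧ Arrows G T r

/-- PROOF: if `l ≤ L`: `S_HOST` and `S_EMB1` / `S_EMB2`, `N1 s = 2^40 r² l L D d`; if `L < l`:
`S_EMB0`, `N1 N2 = 16 r² L² D d ≤ 2^40 r² l L D d`.  Then `S_ARR`. -/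
def S_MAIN : Prop :=
  ∀ (V : Type) [Fintype V] [DecidableEq V] (T : SimpleGraph V) [DecidableRel T.Adj] (κ : V → Bool)
    (v0 : V) (r l L D d : ℕ), 2 ≤ r → 1 ≤ l → r ≤ 2 ^ l → 2 ^ l ≤ 2 * r → 1 ≤ L → 1 ≤ d → d ≤ D →
    TD T κ v0 L D d →
    ∃ (n : ℕ) (G : SimpleGraph (Fin n)),
      G.edgeSet.ncard ≤ 2 ^ 40 * r ^ 2 * l * L * D * d ∧ Arrows G T r

open Classical in
/-- `β(T) = n₁ Δ₁ + n₂ Δ₂` for the bipartition given by the proper 2-colouring `κ` -/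
noncomputable def beta {n : ℕ} (T : SimpleGraph (Fin n)) (κ : Fin n → Bool) : ℕ :=
  ∑ b : Bool, (univ.filter (fun v => κ v = b)).card *
    (univ.filter (fun v => κ v = b)).sup (fun v => T.degree v)

/-- PROOF.  `κ' := κ` or its complement such that the class `true` has the larger maximal degree `D`
and the class `false` the smaller one `d ≥ 1` (`n ≥ 2`, connected).  `l := Nat.clog 2 r`,
`L := max ⌈n₁/D⌉ ⌈n₂/d⌉` (`n₁` = size of class `false`, `n₂` = size of class `true`);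
`L D d ≤ max (n₁ d) (n₂ D) + D d ≤ 2 β` since `D ≤ n₁`.  `S_MAIN` and
`l ≤ 1 + log₂ r ≤ 2 log r / log 2 ≤ 3 log r`. -/
def S_FINAL : Prop :=
  ∀ (r n : ℕ) (T : SimpleGraph (Fin n)) (κ : Fin n → Bool), 2 ≤ r → 2 ≤ n → T.IsTree →
    (∀ x y, T.Adj x y → κ x ≠ κ y) →
    ∃ (m : ℕ) (G : SimpleGraph (Fin m)),
      (G.edgeSet.ncard : ℝ) ≤ 2 ^ 43 * (r : ℝ) ^ 2 * Real.log r * beta T κ ∧ Arrows G T r

end Pool.Agent.H973.SR
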