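import Mathlib
import Pool.Agent.H973.SR.Stm2

namespace Pool.Agent.H973.SR

open Finset

namespace Emb0L

lemma card_sub {α : Type} [DecidableEq α] (C' : Finset α) (p : α → Prop) [DecidablePred p] :
    (univ.filter (fun u : {u // u ∈ C'} => p u)).card = (C'.filter p).card := by
  rw [← Finset.card_map (Function.Embedding.subtype (fun u => u ∈ C'))]
  refine congrArg Finset.card ?_
  ext x
  simp only [mem_map, mem_filter, mem_univ, true_and, Function.Embedding.subtype_apply,
    Subtype.exists, exists_and_right, exists_eq_right]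
  constructor
  · rintro ⟨h1, h2⟩
    exact ⟨h1, h2⟩
  · rintro ⟨h1, h2⟩
    exact ⟨h1, h2⟩

end Emb0L

theorem emb0 (h1 : S_CLEAN) (h2 : S_CASE0) : S_EMB0 := by
  intro V _ _ T _ κ v0 r L D d hr hL hd hD td c
  have hpos : 0 < r * r * (L * L) * (D * d) := by positivity
  obtain ⟨i, C', W', hC0, hW0, hC, hW⟩ := h1 (4 * r * L * D) (4 * r * L * d) (4 * r * L * d) r
    (L * d) (L * D) (fun _ => univ) c (fun u => by simp) (by nlinarith [hpos])
  obtain ⟨u0, hu0⟩ := hC0
  obtain ⟨w0, hw0⟩ := hW0
  have key := h2 {u // u ∈ C'} {w // w ∈ W'} V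
    (fun w => univ.filter (fun u : {u // u ∈ C'} => c u w = i)) T κ (L * D) (L * d) v0 ⟨w0, hw0⟩
    ⟨u0, hu0⟩ td.tree td.col td.root td.n1 td.n2 (by
      intro w
      rw [Emb0L.card_sub C' (fun u => c u w = i)]
      have := hW w w.2
      simpa using this) (by
      intro u
      have e : Nr (fun w : {w // w ∈ W'} => univ.filter (fun u : {u // u ∈ C'} => c u w = i)) u =
          univ.filter (fun w : {w // w ∈ W'} => c u w = i) := by
        ext w
        simp [Nr]
      rw [e, Emb0L.card_sub W' (fun w => c u w = i)]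
      have := hC u u.2
      simpa using this)
  obtain ⟨fc, fw, k1, k2, k3⟩ := key
  refine ⟨i, fun x => (fc x : Fin (4 * r * L * D)), fun x => (fw x : Fin (4 * r * L * d)), ?_, ?_, ?_⟩
  · intro x y hx hy hxy
    exact k1 x y hx hy (Subtype.ext hxy)
  · intro x y hx hy hxy
    exact k2 x y hx hy (Subtype.ext hxy)
  · intro x y hx hy hxy
    have := k3 x y hx hy hxy
    simpa [colN] using this

end Pool.Agent.H973.SR
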