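import Pool.Agent.H973.SR.Stm2

/-!
# `S_EMB1` from `S_CLEAN` and `S_CASE1`
-/

namespace Pool.Agent.H973.SR

open Finset

namespace Emb1L

/-- double counting of incidences -/
lemma dc {α β : Type} [DecidableEq α] [DecidableEq β] (F : Finset α) (X : Finset β)
    (S : α → Finset β) (h : ℕ)
    (hX : ∀ w ∈ X, h ≤ (F.filter (fun u => w ∈ S u)).card) :
    h * X.card ≤ ∑ u ∈ F, (S u ∩ X).card := by
  have h1 : h * X.card ≤ ∑ w ∈ X, (F.filter (fun u => w ∈ S u)).card := by
    calc h * X.card = ∑ _w ∈ X, h := by rw [sum_const, smul_eq_mul, mul_comm]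
      _ ≤ _ := sum_le_sum hX
  have h2 : ∑ w ∈ X, (F.filter (fun u => w ∈ S u)).card = ∑ u ∈ F, (S u ∩ X).card := by
    have h3 : ∀ w ∈ X, (F.filter (fun u => w ∈ S u)).card
        = ∑ u ∈ F, if w ∈ S u then 1 else 0 := by
      intro w _
      rw [card_filter]
    have h4 : ∀ u ∈ F, (S u ∩ X).card = ∑ w ∈ X, if w ∈ S u then 1 else 0 := by
      intro u _
      rw [← card_filter, inter_comm, filter_mem_eq_inter]
    rw [sum_congr rfl h3, sum_congr rfl h4, sum_comm]
  rw [h2] at h1
  exact h1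

lemma dc2 {α β : Type} [DecidableEq α] [DecidableEq β] (X : Finset α) (Y : Finset β)
    (S : α → Finset β) (g : ℕ) (hX : ∀ u ∈ X, g ≤ (S u ∩ Y).card) :
    g * X.card ≤ ∑ u ∈ X, (S u ∩ Y).card := by
  calc g * X.card = ∑ _u ∈ X, g := by rw [sum_const, smul_eq_mul, mul_comm]
    _ ≤ _ := sum_le_sum hX

lemma num (r l L D d : ℕ) (hr : 1 ≤ r) (hl : 1 ≤ l) (hL : 1 ≤ L) (hD : 1 ≤ D) (hd : 1 ≤ d) :
    r * ((2 ^ 18 * l * d) * (B * r * L * D) + (2 ^ 18 * l * D) * (B * r * L * d))
      < (B * r * L * D) * (B * r * l * d) := by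
  have hB : B = 2 ^ 20 := rfl
  have hp : 0 < r * r * l * L * D * d * B := by
    have : 0 < B := by rw [hB]; norm_num
    positivity
  have e1 : r * ((2 ^ 18 * l * d) * (B * r * L * D) + (2 ^ 18 * l * D) * (B * r * L * d))
      = 2 ^ 19 * (r * r * l * L * D * d * B) := by ring
  have e2 : (B * r * L * D) * (B * r * l * d) = B * (r * r * l * L * D * d * B) := by ring
  rw [e1, e2]
  apply Nat.mul_lt_mul_of_pos_right _ hp
  rw [hB]
  norm_num

end Emb1L

open Emb1L in
theorem emb1 (h1 : S_CLEAN) (h2 : S_CASE1) : S_EMB1 := by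
  intro V _ _ T _ κ v0 r l L D d S hP hT hS hP1 hP2 c
  have hr : 1 ≤ r := le_trans (by norm_num) hP.hr
  have hL : 1 ≤ L := le_trans hP.hl hP.hlL
  have hD : 1 ≤ D := le_trans hP.hd hP.hdD
  obtain ⟨i, C', W', hC, hW, hdC, hdW⟩ := h1 (B * r * L * D) (B * r * L * d) (B * r * l * d) r
    (2 ^ 18 * l * d) (2 ^ 18 * l * D) S c hS (num r l L D d hr hP.hl hL hD hP.hd)
  refine ⟨i, ?_⟩
  obtain ⟨u0, hu0⟩ := hC
  obtain ⟨w0, hw0⟩ := hW
  let N : {w // w ∈ W'} → Finset {u // u ∈ C'} :=
    fun w => univ.filter (fun u => w.1 ∈ S u.1 ∧ c u.1 w.1 = i)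
  have hN : ∀ (w : {w // w ∈ W'}) (u : {u // u ∈ C'}),
      u ∈ N w ↔ (w.1 ∈ S u.1 ∧ c u.1 w.1 = i) := by
    intro w u
    simp only [N, mem_filter, mem_univ, true_and]
  have hNr : ∀ (u : {u // u ∈ C'}) (w : {w // w ∈ W'}),
      w ∈ Nr N u ↔ (w.1 ∈ S u.1 ∧ c u.1 w.1 = i) := by
    intro u w
    unfold Nr
    rw [mem_filter, hN]
    simp only [mem_univ, true_and]
  have key : TreeIn N T κ := by
    apply h2 {u // u ∈ C'} {w // w ∈ W'} V N T κ L D d v0 ⟨w0, hw0⟩ ⟨u0, hu0⟩ hL hP.hd hD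
      hT.tree hT.col hT.root hT.n1 hT.n2 hT.dD hT.dd
    · intro X hX
      rcases X.eq_empty_or_nonempty with hXe | hXn
      · rw [hXe]; simp
      by_contra hlt
      push Not at hlt
      have hXc : (X.map (Function.Embedding.subtype _)).card = X.card := card_map _
      have hFc : ((X.biUnion N).map (Function.Embedding.subtype _)).card = (X.biUnion N).card :=
        card_map _
      have hp1 := hP1 (X.map (Function.Embedding.subtype _))
        ((X.biUnion N).map (Function.Embedding.subtype _)) (by rwa [map_nonempty])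
        (by rw [hXc]; omega)
        (by
          rw [hXc, hFc]
          refine le_trans hlt.le ?_
          apply Nat.mul_le_mul_right
          omega)
      apply absurd hp1
      rw [not_lt]
      apply dc
      intro w hw
      rw [mem_map] at hw
      obtain ⟨w', hw', rfl⟩ := hw
      refine le_trans (hdW w'.1 w'.2) (card_le_card ?_)
      intro u hu
      rw [mem_filter] at hu
      rw [mem_filter]
      refine ⟨?_, hu.2.1⟩
      rw [mem_map]
      refine ⟨⟨u, hu.1⟩, ?_, rfl⟩
      rw [mem_biUnion]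
      exact ⟨w', hw', (hN w' ⟨u, hu.1⟩).2 hu.2⟩
    · intro X hX
      rcases X.eq_empty_or_nonempty with hXe | hXn
      · rw [hXe]; simp
      by_contra hlt
      push Not at hlt
      have hXc : (X.map (Function.Embedding.subtype _)).card = X.card := card_map _
      have hYc : ((X.biUnion (Nr N)).map (Function.Embedding.subtype _)).card
          = (X.biUnion (Nr N)).card := card_map _
      have hp2 := hP2 (X.map (Function.Embedding.subtype _))
        ((X.biUnion (Nr N)).map (Function.Embedding.subtype _)) (by rwa [map_nonempty])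
        (by rw [hXc]; omega)
        (by
          rw [hXc, hYc]
          exact hlt.le)
      apply absurd hp2
      rw [not_lt]
      apply dc2
      intro u hu
      rw [mem_map] at hu
      obtain ⟨u', hu', rfl⟩ := hu
      refine le_trans (hdC u'.1 u'.2) (card_le_card ?_)
      intro w hw
      rw [mem_filter, mem_inter] at hw
      rw [mem_inter]
      refine ⟨hw.1.1, ?_⟩
      rw [mem_map]
      refine ⟨⟨w, hw.1.2⟩, ?_, rfl⟩
      rw [mem_biUnion]
      exact ⟨u', hu', (hNr u' ⟨w, hw.1.2⟩).2 ⟨hw.1.1, hw.2⟩⟩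
  obtain ⟨fc, fw, hfc, hfw, hadj⟩ := key
  refine ⟨fun x => (fc x).1, fun x => (fw x).1, ?_, ?_, ?_⟩
  · intro x y hx hy h
    exact hfc x y hx hy (Subtype.ext h)
  · intro x y hx hy h
    exact hfw x y hx hy (Subtype.ext h)
  · intro x y hx hy h
    have h3 := (hN _ _).1 (hadj x y hx hy h)
    unfold colN
    rw [mem_filter]
    exact ⟨mem_univ _, h3⟩

end Pool.Agent.H973.SR
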