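import Pool.Agent.H973.SR.Stm2

/-!
# Leaf Emb2: embedding in the random host, case 2 (transfer to subtypes)
-/

set_option autoImplicit false

namespace Pool.Agent.H973.SR

open Finset

namespace Emb2L

/-- the colour `i` graph between the subtypes `C'` and `W'` -/
def subN {N1 N2 r : ℕ} (S : Fin N1 → Finset (Fin N2)) (c : Fin N1 → Fin N2 → Fin r) (i : Fin r)
    (C' : Finset (Fin N1)) (W' : Finset (Fin N2)) :
    {w // w ∈ W'} → Finset {u // u ∈ C'} :=
  fun w => univ.filter (fun u => w.1 ∈ S u.1 ∧ c u.1 w.1 = i)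

lemma mem_subN {N1 N2 r : ℕ} (S : Fin N1 → Finset (Fin N2)) (c : Fin N1 → Fin N2 → Fin r)
    (i : Fin r) (C' : Finset (Fin N1)) (W' : Finset (Fin N2)) (w : {w // w ∈ W'})
    (u : {u // u ∈ C'}) : u ∈ subN S c i C' W' w ↔ w.1 ∈ S u.1 ∧ c u.1 w.1 = i := by
  unfold subN
  simp only [mem_filter, mem_univ, true_and]

lemma mem_Nr {N1 N2 r : ℕ} (S : Fin N1 → Finset (Fin N2)) (c : Fin N1 → Fin N2 → Fin r)
    (i : Fin r) (C' : Finset (Fin N1)) (W' : Finset (Fin N2)) (w : {w // w ∈ W'})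
    (u : {u // u ∈ C'}) : w ∈ Nr (subN S c i C' W') u ↔ w.1 ∈ S u.1 ∧ c u.1 w.1 = i := by
  unfold Nr
  simp only [mem_filter, mem_univ, true_and, mem_subN]

lemma treeIn_of_sub {N1 N2 r : ℕ} (S : Fin N1 → Finset (Fin N2)) (c : Fin N1 → Fin N2 → Fin r)
    (i : Fin r) (C' : Finset (Fin N1)) (W' : Finset (Fin N2)) {V : Type} (T : SimpleGraph V)
    (κ : V → Bool) (h : TreeIn (subN S c i C' W') T κ) : TreeIn (colN S c i) T κ := by
  obtain ⟨fc, fw, h1, h2, h3⟩ := h
  refine ⟨fun x => (fc x).1, fun x => (fw x).1, ?_, ?_, ?_⟩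
  · intro x y hx hy hxy
    exact h1 x y hx hy (Subtype.ext hxy)
  · intro x y hx hy hxy
    exact h2 x y hx hy (Subtype.ext hxy)
  · intro x y hx hy hxy
    have h4 := h3 x y hx hy hxy
    rw [mem_subN] at h4
    unfold colN
    simp only [mem_filter, mem_univ, true_and]
    exact h4

lemma card_Nr {N1 N2 r : ℕ} (S : Fin N1 → Finset (Fin N2)) (c : Fin N1 → Fin N2 → Fin r)
    (i : Fin r) (C' : Finset (Fin N1)) (W' : Finset (Fin N2)) (u : {u // u ∈ C'}) :
    (((S u.1) ∩ W').filter (fun w => c u.1 w = i)).card ≤ (Nr (subN S c i C' W') u).card := by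
  have h1 : ((S u.1) ∩ W').filter (fun w => c u.1 w = i) ⊆
      (Nr (subN S c i C' W') u).image Subtype.val := by
    intro w hw
    rw [mem_filter, mem_inter] at hw
    rw [mem_image]
    exact ⟨⟨w, hw.1.2⟩, (mem_Nr S c i C' W' _ u).2 ⟨hw.1.1, hw.2⟩, rfl⟩
  exact (card_le_card h1).trans card_image_le

lemma card_subN {N1 N2 r : ℕ} (S : Fin N1 → Finset (Fin N2)) (c : Fin N1 → Fin N2 → Fin r)
    (i : Fin r) (C' : Finset (Fin N1)) (W' : Finset (Fin N2)) (w : {w // w ∈ W'}) :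
    (C'.filter (fun u => w.1 ∈ S u ∧ c u w.1 = i)).card ≤ (subN S c i C' W' w).card := by
  have h1 : C'.filter (fun u => w.1 ∈ S u ∧ c u w.1 = i) ⊆
      (subN S c i C' W' w).image Subtype.val := by
    intro u hu
    rw [mem_filter] at hu
    rw [mem_image]
    exact ⟨⟨u, hu.1⟩, (mem_subN S c i C' W' w _).2 hu.2, rfl⟩
  exact (card_le_card h1).trans card_image_le

/-- expansion of the agents from `P1` -/
lemma expand {N1 N2 r L D h : ℕ} (S : Fin N1 → Finset (Fin N2)) (c : Fin N1 → Fin N2 → Fin r)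
    (i : Fin r) (C' : Finset (Fin N1)) (W' : Finset (Fin N2)) (hP : P1 L D h S)
    (hh : ∀ w ∈ W', h ≤ (C'.filter (fun u => w ∈ S u ∧ c u w = i)).card)
    (X : Finset {w // w ∈ W'}) (hX : X.card ≤ 6 * L) :
    9 * D * X.card ≤ (X.biUnion (subN S c i C' W')).card := by
  rcases X.eq_empty_or_nonempty with h0 | h0
  · subst h0
    simp only [card_empty, mul_zero, Nat.zero_le]
  by_contra hlt
  push Not at hlt
  set X' : Finset (Fin N2) := X.map ⟨Subtype.val, Subtype.val_injective⟩ with hX'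
  set F : Finset (Fin N1) := (X.biUnion (subN S c i C' W')).map
    ⟨Subtype.val, Subtype.val_injective⟩ with hF
  have h1 : X'.card = X.card := card_map _
  have h2 : F.card = (X.biUnion (subN S c i C' W')).card := card_map _
  have h3 := hP X' F (h0.map) (by omega) (by rw [h1, h2]; exact hlt.le)
  have h4 : h * X.card ≤ ∑ w ∈ X, (subN S c i C' W' w).card := by
    rw [mul_comm, ← smul_eq_mul, ← sum_const]
    exact sum_le_sum fun w _ => (hh w.1 w.2).trans (card_subN S c i C' W' w)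
  have h5 : ∑ w ∈ X, (subN S c i C' W' w).card ≤ ∑ u ∈ F, ((S u) ∩ X').card := by
    rw [hF, sum_map]
    have h6 : ∀ w ∈ X, (subN S c i C' W' w).card =
        ∑ u ∈ X.biUnion (subN S c i C' W'), (if u ∈ subN S c i C' W' w then 1 else 0) := by
      intro w hw
      rw [← sum_filter, sum_const, smul_eq_mul, mul_one]
      congr 1
      ext u
      rw [mem_filter]
      exact ⟨fun hu => ⟨mem_biUnion.2 ⟨w, hw, hu⟩, hu⟩, fun hu => hu.2⟩
    rw [sum_congr rfl h6, sum_comm]
    refine sum_le_sum fun u _ => ?_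
    rw [← sum_filter, sum_const, smul_eq_mul, mul_one]
    refine card_le_card_of_injOn (fun w => w.1) ?_ (Subtype.val_injective.injOn)
    intro w hw
    rw [mem_coe, mem_filter, mem_subN] at hw
    rw [mem_coe, mem_inter]
    exact ⟨hw.2.1, mem_map.2 ⟨w, hw.1, rfl⟩⟩
  rw [h1] at h3
  omega

end Emb2L

open Emb2L in
theorem emb2 (h1 : S_CLEAN) (h2 : S_CASE2) : S_EMB2 := by
  intro V _ _ T _ κ v0 r l L D d S hp ht hs hP1 hP3 c
  have hr := hp.hr
  have hl := hp.hl
  have hL : 1 ≤ L := hp.hl.trans hp.hlL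
  have hd := hp.hd
  have hD : 1 ≤ D := hp.hd.trans hp.hdD
  have hnum : r * (2 ^ 18 * l * d * (B * r * L * D) + 2 ^ 18 * l * D * (B * r * L * d)) <
      (B * r * L * D) * (B * r * l * d) := by
    have e1 : r * (2 ^ 18 * l * d * (B * r * L * D) + 2 ^ 18 * l * D * (B * r * L * d)) =
        2 ^ 19 * (B * (r * r * l * L * D * d)) := by ring
    have e2 : (B * r * L * D) * (B * r * l * d) = B * (B * (r * r * l * L * D * d)) := by ring
    rw [e1, e2]
    have hB : 2 ^ 19 < B := by unfold B; norm_num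
    have hpos : 0 < B * (r * r * l * L * D * d) := by
      have : 0 < r := by omega
      have hB0 : 0 < B := by omega
      positivity
    exact Nat.mul_lt_mul_of_pos_right hB hpos
  obtain ⟨i, C', W', hC, hW, hg, hh⟩ := h1 _ _ _ r (2 ^ 18 * l * d) (2 ^ 18 * l * D) S c hs hnum
  refine ⟨i, treeIn_of_sub S c i C' W' T κ ?_⟩
  obtain ⟨u0, hu0⟩ := hC
  obtain ⟨w0, hw0⟩ := hW
  have hexp : Exp2 (subN S c i C' W') L D d (2 ^ 16 * l * d) := by
    refine ⟨hL, hd, hD, ?_, ?_, ?_, ?_⟩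
    · have : 1 ≤ 2 ^ 16 * l := by omega
      calc d = 1 * d := (one_mul d).symm
        _ ≤ 2 ^ 16 * l * d := Nat.mul_le_mul_right d this
    · intro u
      have e1 := (hg u.1 u.2).trans (card_Nr S c i C' W' u)
      have e2 : 4 * (2 ^ 16 * l * d) = 2 ^ 18 * l * d := by ring
      rw [e2]
      exact e1
    · intro X hX
      have e1 := expand S c i C' W' hP1 hh X (by omega)
      have e2 : 8 * D + D = 9 * D := by ring
      rw [e2]
      exact e1
    · intro X Y hX hY1 hY2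
      obtain ⟨w, hw, hlt⟩ := hP3 (X.map ⟨Subtype.val, Subtype.val_injective⟩)
        (Y.map ⟨Subtype.val, Subtype.val_injective⟩) hX.map
        (by rw [card_map, card_map]; exact hY1) (by rw [card_map]; exact hY2)
      obtain ⟨x, hx, rfl⟩ := mem_map.1 hw
      refine ⟨x, hx, lt_of_le_of_lt ?_ hlt⟩
      refine card_le_card_of_injOn (fun u => u.1) ?_ (Subtype.val_injective.injOn)
      intro u hu
      rw [mem_coe, mem_filter, mem_subN] at hu
      rw [mem_coe, mem_filter]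
      refine ⟨mem_univ _, hu.1.1, hu.2.trans ?_⟩
      refine card_le_card_of_injOn (fun y => y.1) ?_ (Subtype.val_injective.injOn)
      intro y hy
      rw [mem_coe, mem_inter, mem_Nr] at hy
      rw [mem_coe, mem_inter]
      exact ⟨hy.1.1, mem_map.2 ⟨y, hy.2, rfl⟩⟩
  exact h2 _ _ V (subN S c i C' W') T κ L D d (2 ^ 16 * l * d) v0 ⟨w0, hw0⟩ ⟨u0, hu0⟩ hexp
    ht.tree ht.col ht.root ht.n1 ht.n2 ht.dD ht.dd

end Pool.Agent.H973.SR
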