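import Pool.Agent.H973.SR.Stm2

namespace Pool.Agent.H973.SR

open Finset

namespace FinalL

theorem log_bound {r : ℕ} (hr : 2 ≤ r) : ((Nat.clog 2 r : ℕ) : ℝ) ≤ 3 * Real.log r := by
  have h1 : 2 ^ (Nat.clog 2 r - 1) < r := by
    have := Nat.pow_pred_clog_lt_self (b := 2) (by norm_num) (x := r) (by omega)
    exact this
  have hl : 1 ≤ Nat.clog 2 r := Nat.clog_pos (by norm_num) hr
  have h2 : ((Nat.clog 2 r - 1 : ℕ) : ℝ) * Real.log 2 ≤ Real.log r := by
    rw [← Real.log_pow]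
    refine Real.log_le_log (by positivity) ?_
    exact_mod_cast h1.le
  have h3 : ((Nat.clog 2 r - 1 : ℕ) : ℝ) = (Nat.clog 2 r : ℝ) - 1 := by
    rw [Nat.cast_sub hl]; simp
  rw [h3] at h2
  have h4 : Real.log 2 ≤ Real.log r := by
    refine Real.log_le_log (by norm_num) ?_
    exact_mod_cast hr
  have h5 := Real.log_two_gt_d9
  nlinarith

/-- the version with the larger degree in the class `true` -/
theorem main1 (h : S_MAIN) (r n : ℕ) (T : SimpleGraph (Fin n)) [DecidableRel T.Adj]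
    (κ : Fin n → Bool) (hr : 2 ≤ r) (hn : 2 ≤ n) (hT : T.IsTree)
    (hκ : ∀ x y, T.Adj x y → κ x ≠ κ y) (n1 n2 D d : ℕ)
    (hn1 : n1 = (univ.filter (fun v => κ v = false)).card)
    (hn2 : n2 = (univ.filter (fun v => κ v = true)).card)
    (hD : D = (univ.filter (fun v => κ v = true)).sup (fun v => T.degree v))
    (hd : d = (univ.filter (fun v => κ v = false)).sup (fun v => T.degree v))
    (hdD : d ≤ D) :
    ∃ (m : ℕ) (G : SimpleGraph (Fin m)),
      (G.edgeSet.ncard : ℝ) ≤ 2 ^ 43 * (r : ℝ) ^ 2 * Real.log r * ((n1 * d + n2 * D : ℕ) : ℝ) ∧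
      Arrows G T r := by
  -- an edge
  obtain ⟨v0, w0, hv0, hw0, hadj⟩ : ∃ v w, κ v = true ∧ κ w = false ∧ T.Adj v w := by
    have hnt : Nontrivial (Fin n) := Fin.nontrivial_iff_two_le.2 hn
    obtain ⟨a, b, hab⟩ := exists_pair_ne (Fin n)
    obtain ⟨c, hc⟩ : ∃ c, T.Adj a c := by
      obtain ⟨p⟩ := hT.1.preconnected a b
      cases p with
      | nil => exact absurd rfl hab
      | cons h _ => exact ⟨_, h⟩
    have hne := hκ a c hc
    cases ha : κ a with
    | true =>
      refine ⟨a, c, ha, ?_, hc⟩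
      rw [ha] at hne
      simpa using hne.symm
    | false =>
      refine ⟨c, a, ?_, ha, hc.symm⟩
      rw [ha] at hne
      simpa using hne.symm
  have hdeg : ∀ v, κ v = true → T.degree v ≤ D := by
    intro v hv
    rw [hD]
    exact Finset.le_sup (f := fun v => T.degree v) (by simp [hv])
  have hdeg' : ∀ v, κ v = false → T.degree v ≤ d := by
    intro v hv
    rw [hd]
    exact Finset.le_sup (f := fun v => T.degree v) (by simp [hv])
  have hd1 : 1 ≤ d := by
    have h1 : 0 < T.degree w0 := (T.degree_pos_iff_exists_adj w0).2 ⟨v0, hadj.symm⟩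
    exact le_trans h1 (hdeg' w0 hw0)
  have hD1 : 1 ≤ D := hd1.trans hdD
  have hDn1 : D ≤ n1 := by
    rw [hD]
    refine Finset.sup_le ?_
    intro v hv
    have hv' : κ v = true := by simpa using hv
    rw [hn1, ← SimpleGraph.card_neighborFinset_eq_degree]
    refine Finset.card_le_card ?_
    intro w hw
    have hw' : T.Adj v w := by simpa using hw
    have := hκ v w hw'
    rw [hv'] at this
    simp only [mem_filter, mem_univ, true_and]
    simpa using this.symm
  set l := Nat.clog 2 r with hl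
  have hl1 : 1 ≤ l := Nat.clog_pos (by norm_num) hr
  have hrl : r ≤ 2 ^ l := Nat.le_pow_clog (by norm_num) r
  have hlr : 2 ^ l ≤ 2 * r := by
    have h1 : 2 ^ (l - 1) < r := Nat.pow_pred_clog_lt_self (b := 2) (by norm_num) (x := r) (by omega)
    have h2 : 2 ^ l = 2 * 2 ^ (l - 1) := by
      rw [← pow_succ']
      congr 1
      omega
    omega
  set L := max ((n1 + D - 1) / D) ((n2 + d - 1) / d) with hL
  have ha : n1 ≤ (n1 + D - 1) / D * D := by
    have h1 := Nat.div_add_mod (n1 + D - 1) D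
    have h2 := Nat.mod_lt (n1 + D - 1) (show D > 0 by omega)
    rw [mul_comm] at h1
    omega
  have hb : n2 ≤ (n2 + d - 1) / d * d := by
    have h1 := Nat.div_add_mod (n2 + d - 1) d
    have h2 := Nat.mod_lt (n2 + d - 1) (show d > 0 by omega)
    rw [mul_comm] at h1
    omega
  have ha' : (n1 + D - 1) / D * D ≤ n1 + D - 1 := Nat.div_mul_le_self _ _
  have hb' : (n2 + d - 1) / d * d ≤ n2 + d - 1 := Nat.div_mul_le_self _ _
  have hLD : n1 ≤ L * D := ha.trans (Nat.mul_le_mul_right _ (le_max_left _ _))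
  have hLd : n2 ≤ L * d := hb.trans (Nat.mul_le_mul_right _ (le_max_right _ _))
  have hL1 : 1 ≤ L := by
    rcases Nat.eq_zero_or_pos L with h0 | h0
    · rw [h0] at hLD
      omega
    · exact h0
  have hLDd : L * D * d ≤ 2 * (n1 * d + n2 * D) := by
    rcases le_total ((n1 + D - 1) / D) ((n2 + d - 1) / d) with h1 | h1
    · have h2 : L = (n2 + d - 1) / d := max_eq_right h1
      have h3 : L * D * d = ((n2 + d - 1) / d * d) * D := by rw [h2]; ring
      rw [h3]
      calc ((n2 + d - 1) / d * d) * D ≤ (n2 + d) * D := Nat.mul_le_mul_right _ (by omega)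
        _ = n2 * D + D * d := by ring
        _ ≤ n2 * D + n1 * d := Nat.add_le_add_left (Nat.mul_le_mul_right _ hDn1) _
        _ ≤ 2 * (n1 * d + n2 * D) := by omega
    · have h2 : L = (n1 + D - 1) / D := max_eq_left h1
      have h3 : L * D * d = ((n1 + D - 1) / D * D) * d := by rw [h2]
      rw [h3]
      calc ((n1 + D - 1) / D * D) * d ≤ (n1 + D) * d := Nat.mul_le_mul_right _ (by omega)
        _ = n1 * d + D * d := by ring
        _ ≤ n1 * d + n1 * d := Nat.add_le_add_left (Nat.mul_le_mul_right _ hDn1) _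
        _ ≤ 2 * (n1 * d + n2 * D) := by omega
  obtain ⟨m, G, hG, hA⟩ := h (Fin n) T κ v0 r l L D d hr hl1 hrl hlr hL1 hd1 hdD
    ⟨hT, hκ, hv0, by rw [← hn1]; exact hLD, by rw [← hn2]; exact hLd, hdeg, hdeg'⟩
  refine ⟨m, G, ?_, hA⟩
  have hlog := log_bound hr
  rw [← hl] at hlog
  have h1 : (G.edgeSet.ncard : ℝ) ≤ ((2 ^ 40 * r ^ 2 * l * L * D * d : ℕ) : ℝ) := by
    exact_mod_cast hG
  have h2 : ((2 ^ 40 * r ^ 2 * l * L * D * d : ℕ) : ℝ) =
      2 ^ 40 * (r : ℝ) ^ 2 * (l : ℝ) * ((L * D * d : ℕ) : ℝ) := by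
    push_cast; ring
  have h3 : ((L * D * d : ℕ) : ℝ) ≤ 2 * ((n1 * d + n2 * D : ℕ) : ℝ) := by
    exact_mod_cast hLDd
  have hlog0 : 0 ≤ Real.log r := Real.log_nonneg (by exact_mod_cast (by omega : 1 ≤ r))
  have hβ0 : (0:ℝ) ≤ ((n1 * d + n2 * D : ℕ) : ℝ) := Nat.cast_nonneg _
  have hl0 : (0:ℝ) ≤ (l : ℝ) := Nat.cast_nonneg _
  rw [h2] at h1
  have hr2 : (0:ℝ) ≤ (r:ℝ) ^ 2 := by positivity
  calc (G.edgeSet.ncard : ℝ) ≤ 2 ^ 40 * (r : ℝ) ^ 2 * (l : ℝ) * ((L * D * d : ℕ) : ℝ) := h1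
    _ ≤ 2 ^ 40 * (r : ℝ) ^ 2 * (3 * Real.log r) * (2 * ((n1 * d + n2 * D : ℕ) : ℝ)) := by
        gcongr
    _ = 6 * (2 ^ 40 * (r : ℝ) ^ 2 * Real.log r * ((n1 * d + n2 * D : ℕ) : ℝ)) := by ring
    _ ≤ 8 * (2 ^ 40 * (r : ℝ) ^ 2 * Real.log r * ((n1 * d + n2 * D : ℕ) : ℝ)) := by
        have : 0 ≤ 2 ^ 40 * (r : ℝ) ^ 2 * Real.log r * ((n1 * d + n2 * D : ℕ) : ℝ) := by
          positivity
        linarith
    _ = 2 ^ 43 * (r : ℝ) ^ 2 * Real.log r * ((n1 * d + n2 * D : ℕ) : ℝ) := by ring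

end FinalL

theorem final (h : S_MAIN) : S_FINAL := by
  intro r n T κ hr hn hT hκ
  classical
  have hbeta : beta T κ = (univ.filter (fun v => κ v = false)).card *
      (univ.filter (fun v => κ v = false)).sup (fun v => T.degree v) +
      (univ.filter (fun v => κ v = true)).card *
      (univ.filter (fun v => κ v = true)).sup (fun v => T.degree v) := by
    unfold beta
    rw [Fintype.sum_bool, add_comm]
  rcases le_total ((univ.filter (fun v => κ v = false)).sup (fun v => T.degree v))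
      ((univ.filter (fun v => κ v = true)).sup (fun v => T.degree v)) with hle | hle
  · rw [hbeta]
    exact FinalL.main1 h r n T κ hr hn hT hκ _ _ _ _ rfl rfl rfl rfl hle
  · rw [hbeta, add_comm]
    have e1 : (univ.filter (fun v => κ v = false)) = univ.filter (fun v => (!κ v) = true) := by
      ext v; simp
    have e2 : (univ.filter (fun v => κ v = true)) = univ.filter (fun v => (!κ v) = false) := by
      ext v; simp
    refine FinalL.main1 h r n T (fun v => !κ v) hr hn hT ?_ _ _ _ _ ?_ ?_ ?_ ?_ hle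
    · intro x y hxy
      simpa using hκ x y hxy
    · rw [e2]
    · rw [e1]
    · rw [e1]
    · rw [e2]

end Pool.Agent.H973.SR
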