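import Pool.Agent.H973.SR.Stm

namespace Pool.Agent.H973.SR

open Finset

namespace FpL

/-- submodularity of `X ↦ |N(X) \ Z| + a(X)` -/
theorem submod {α β : Type} [DecidableEq α] [DecidableEq β] (N : α → Finset β) (Z : Finset β)
    (a : α → ℕ) (X Y : Finset α) :
    ((((X ∪ Y).biUnion N) \ Z).card + ∑ w ∈ X ∪ Y, a w) +
      ((((X ∩ Y).biUnion N) \ Z).card + ∑ w ∈ X ∩ Y, a w) ≤
    (((X.biUnion N) \ Z).card + ∑ w ∈ X, a w) + (((Y.biUnion N) \ Z).card + ∑ w ∈ Y, a w) := by
  have h1 : ((X ∪ Y).biUnion N) \ Z = ((X.biUnion N) \ Z) ∪ ((Y.biUnion N) \ Z) := by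
    rw [Finset.union_biUnion, Finset.union_sdiff_distrib]
  have h2 : ((X ∩ Y).biUnion N) \ Z ⊆ ((X.biUnion N) \ Z) ∩ ((Y.biUnion N) \ Z) := by
    intro y hy
    simp only [Finset.mem_sdiff, Finset.mem_biUnion, Finset.mem_inter] at hy ⊢
    obtain ⟨⟨x, ⟨hx, hx'⟩, hxy⟩, hz⟩ := hy
    exact ⟨⟨⟨x, hx, hxy⟩, hz⟩, ⟨⟨x, hx', hxy⟩, hz⟩⟩
  have h3 := Finset.card_union_add_card_inter ((X.biUnion N) \ Z) ((Y.biUnion N) \ Z)
  have h4 := Finset.card_le_card h2
  have h5 : ∑ w ∈ X ∪ Y, a w + ∑ w ∈ X ∩ Y, a w = ∑ w ∈ X, a w + ∑ w ∈ Y, a w :=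
    Finset.sum_union_inter
  rw [h1]
  omega

/-- tight sets are small -/
theorem small {α β : Type} [DecidableEq α] [DecidableEq β] (N : α → Finset β) (b c m : ℕ)
    (Z : Finset β) (a : α → ℕ)
    (hN : ∀ X : Finset α, X.card ≤ 2 * m → (b + c) * X.card ≤ (X.biUnion N).card)
    (hZ : Z.card < c * m) (X : Finset α) (hX : X.card ≤ 2 * m)
    (ht : ((X.biUnion N) \ Z).card + ∑ w ∈ X, a w ≤ b * X.card) : X.card < m := by
  by_contra hlt
  push Not at hlt
  have h1 := hN X hX
  have h2 : (X.biUnion N).card ≤ ((X.biUnion N) \ Z).card + Z.card :=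
    Finset.card_le_card_sdiff_add_card
  have h3 : c * m ≤ c * X.card := Nat.mul_le_mul_left _ hlt
  have h4 : (b + c) * X.card = b * X.card + c * X.card := by ring
  omega

end FpL

theorem fp : S_FP := by
  intro α β _ _ _ N b c m Z a hN hZ hG w hw
  classical
  let P : Finset α → Prop := fun X => X.card ≤ 2 * m ∧
    ((X.biUnion N) \ Z).card + ∑ w ∈ X, a w = b * X.card ∧ w ∉ X
  have hP0 : P ∅ := by
    refine ⟨by simp, by simp, by simp⟩
  have hPu : ∀ X, P X → ∀ Y, P Y → P (X ∪ Y) := by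
    intro X hX Y hY
    have hXm := FpL.small N b c m Z a hN hZ X hX.1 hX.2.1.le
    have hYm := FpL.small N b c m Z a hN hZ Y hY.1 hY.2.1.le
    have hcu : (X ∪ Y).card ≤ X.card + Y.card := Finset.card_union_le X Y
    have hU : (X ∪ Y).card ≤ 2 * m := by omega
    have hI : (X ∩ Y).card ≤ 2 * m :=
      (Finset.card_le_card Finset.inter_subset_left).trans hX.1
    have h1 := hG (X ∪ Y) hU
    have h2 := hG (X ∩ Y) hI
    have h3 := FpL.submod N Z a X Y
    have h4 : (X ∪ Y).card + (X ∩ Y).card = X.card + Y.card :=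
      Finset.card_union_add_card_inter X Y
    have h5 : b * (X ∪ Y).card + b * (X ∩ Y).card = b * X.card + b * Y.card := by
      rw [← Nat.mul_add, ← Nat.mul_add, h4]
    refine ⟨hU, ?_, ?_⟩
    · have e1 := hX.2.1
      have e2 := hY.2.1
      omega
    · intro hm
      rcases Finset.mem_union.1 hm with h | h
      · exact hX.2.2 h
      · exact hY.2.2 h
  let Xs : Finset α := (univ.filter (fun X : Finset α => P X)).sup id
  have hXs : P Xs := by
    refine Finset.sup_induction (p := P) ?_ ?_ ?_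
    · exact hP0
    · intro X hX Y hY
      exact hPu X hX Y hY
    · intro X hX
      exact (Finset.mem_filter.1 hX).2
  have hXsmax : ∀ X, P X → X ⊆ Xs := by
    intro X hX
    exact Finset.le_sup (f := id) (Finset.mem_filter.2 ⟨Finset.mem_univ X, hX⟩)
  have hXm := FpL.small N b c m Z a hN hZ Xs hXs.1 hXs.2.1.le
  refine ⟨(N w \ Xs.biUnion N) \ Z, ?_, ?_, ?_⟩
  · intro u hu
    simp only [Finset.mem_sdiff] at hu ⊢
    exact ⟨hu.1.1, hu.2⟩
  · have hc : (insert w Xs).card = Xs.card + 1 := Finset.card_insert_of_notMem hXs.2.2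
    have h1 := hG (insert w Xs) (by omega)
    rw [Finset.sum_insert hXs.2.2, hc] at h1
    have h2 : ((insert w Xs).biUnion N) \ Z ⊆
        ((Xs.biUnion N) \ Z) ∪ ((N w \ Xs.biUnion N) \ Z) := by
      intro y hy
      rw [Finset.biUnion_insert] at hy
      simp only [Finset.mem_sdiff, Finset.mem_union] at hy ⊢
      by_cases h : y ∈ Xs.biUnion N
      · exact Or.inl ⟨h, hy.2⟩
      · rcases hy.1 with h' | h'
        · exact Or.inr ⟨⟨h', h⟩, hy.2⟩
        · exact absurd h' h
    have h3 := (Finset.card_le_card h2).trans (Finset.card_union_le _ _)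
    have h4 := hXs.2.1
    have h5 : b * (Xs.card + 1) = b * Xs.card + b := by ring
    omega
  · intro u hu X hX
    simp only [Finset.mem_sdiff] at hu
    have hGX := hG X hX
    have he : (X.biUnion N) \ insert u Z = ((X.biUnion N) \ Z).erase u := by
      rw [Finset.sdiff_insert]
    have hce : ((X.biUnion N) \ Z).card - 1 ≤ (((X.biUnion N) \ Z).erase u).card :=
      Finset.pred_card_le_card_erase
    by_cases hwX : w ∈ X
    · have hs : ∑ x ∈ X, Function.update a w (a w + 1) x = ∑ x ∈ X, a x + 1 := by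
        have := Finset.add_sum_erase X a hwX
        rw [Finset.sum_update_of_mem hwX, Finset.sdiff_singleton_eq_erase, ← this]
        ring
      rw [hs, he]
      omega
    · have hs : ∑ x ∈ X, Function.update a w (a w + 1) x = ∑ x ∈ X, a x := by
        rw [Finset.sum_update_of_notMem hwX]
      rw [hs, he]
      by_cases huX : u ∈ X.biUnion N
      · have hnt : ((X.biUnion N) \ Z).card + ∑ w ∈ X, a w ≠ b * X.card := by
          intro ht
          have hsub := hXsmax X ⟨hX, ht, hwX⟩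
          exact hu.1.2 (Finset.biUnion_subset_biUnion_of_subset_left N hsub huX)
        omega
      · have : u ∉ (X.biUnion N) \ Z := fun h => huX (Finset.mem_sdiff.1 h).1
        rw [Finset.erase_eq_of_notMem this]
        exact hGX

end Pool.Agent.H973.SR
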