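import Pool.Agent.H973.SR.Stm

/-!
# The `d`-fold Hall theorem and matchable sets
-/

namespace Pool.Agent.H973.SR

theorem halld : S_HALLD := by
  intro γ β _ _ nb d Q h
  obtain ⟨f, hf, hft⟩ := (Finset.all_card_le_biUnion_card_iff_exists_injective
    (fun p : {u // u ∈ Q} × Fin d => nb p.1.1)).mp (by
      intro s
      have hV : s.image (fun p : {u // u ∈ Q} × Fin d => p.1.1) ⊆ Q := by
        intro u hu
        obtain ⟨p, _, rfl⟩ := Finset.mem_image.mp hu
        exact p.1.2
      have h1 : s.card ≤ d * (s.image (fun p : {u // u ∈ Q} × Fin d => p.1.1)).card := by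
        have h2 : s.card ≤ ((s.image (fun p : {u // u ∈ Q} × Fin d => p.1.1)) ×ˢ
            (Finset.univ : Finset (Fin d))).card := by
          apply Finset.card_le_card_of_injOn (fun p => (p.1.1, p.2))
          · intro p hp
            exact Finset.mem_coe.mpr (Finset.mem_product.mpr
              ⟨Finset.mem_image.mpr ⟨p, hp, rfl⟩, Finset.mem_univ _⟩)
          · intro p _ p' _ hpp
            simp only [Prod.mk.injEq] at hpp
            exact Prod.ext (Subtype.ext hpp.1) hpp.2
        rw [Finset.card_product, Finset.card_univ, Fintype.card_fin, mul_comm] at h2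
        exact h2
      refine h1.trans ((h _ hV).trans (Finset.card_le_card ?_))
      intro b hb
      rw [Finset.mem_biUnion] at hb ⊢
      obtain ⟨u, hu, hbu⟩ := hb
      obtain ⟨p, hp, rfl⟩ := Finset.mem_image.mp hu
      exact ⟨p, hp, hbu⟩)
  refine ⟨fun u => if hu : u ∈ Q then Finset.univ.image (fun i : Fin d => f (⟨u, hu⟩, i)) else ∅,
    ?_, ?_⟩
  · intro u hu
    simp only [dif_pos hu]
    constructor
    · intro b hb
      obtain ⟨i, _, rfl⟩ := Finset.mem_image.mp hb
      exact hft (⟨u, hu⟩, i)
    · rw [Finset.card_image_of_injective, Finset.card_univ, Fintype.card_fin]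
      intro i j hij
      exact (Prod.mk.inj (hf hij)).2
  · intro u hu v hv huv
    simp only [dif_pos hu, dif_pos hv]
    rw [Finset.disjoint_left]
    intro b hb hb'
    obtain ⟨i, _, rfl⟩ := Finset.mem_image.mp hb
    obtain ⟨j, _, hj⟩ := Finset.mem_image.mp hb'
    have := (Prod.mk.inj (hf hj)).1
    exact huv (congrArg Subtype.val this).symm

theorem mathall : S_MATHALL := by
  intro γ β _ _ nb d Q R
  constructor
  · rintro ⟨T, h1, h2, h3⟩ S hS
    have hsub : S ⊆ (Q.filter (fun u => ∃ y ∈ S, y ∈ nb u)).biUnion T := by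
      intro y hy
      obtain ⟨u, hu, hyu⟩ := Finset.mem_biUnion.mp (h3 (hS hy))
      exact Finset.mem_biUnion.mpr ⟨u, Finset.mem_filter.mpr ⟨hu, y, hy, (h1 u hu).1 hyu⟩, hyu⟩
    refine (Finset.card_le_card hsub).trans (Finset.card_biUnion_le.trans ?_)
    refine (Finset.sum_le_card_nsmul _ _ d fun u hu =>
      (h1 u (Finset.mem_filter.mp hu).1).2).trans (le_of_eq ?_)
    rw [smul_eq_mul, mul_comm]
  · intro h
    obtain ⟨f, hf, hft⟩ := (Finset.all_card_le_biUnion_card_iff_exists_injective
      (fun y : {y // y ∈ R} => (Q.filter (fun u => y.1 ∈ nb u)) ×ˢ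
        (Finset.univ : Finset (Fin d)))).mp (by
        intro s
        have hS : s.image Subtype.val ⊆ R := by
          intro y hy
          obtain ⟨z, _, rfl⟩ := Finset.mem_image.mp hy
          exact z.2
        have h1 := h _ hS
        rw [Finset.card_image_of_injective _ Subtype.val_injective] at h1
        refine h1.trans ?_
        have h2 : d * (Q.filter (fun u => ∃ y ∈ s.image Subtype.val, y ∈ nb u)).card =
            ((Q.filter (fun u => ∃ y ∈ s.image Subtype.val, y ∈ nb u)) ×ˢ
              (Finset.univ : Finset (Fin d))).card := by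
          rw [Finset.card_product, Finset.card_univ, Fintype.card_fin, mul_comm]
        rw [h2]
        apply Finset.card_le_card
        rintro ⟨u, i⟩ hu
        obtain ⟨hu1, _⟩ := Finset.mem_product.mp hu
        obtain ⟨hu2, y, hy, hyu⟩ := Finset.mem_filter.mp hu1
        obtain ⟨z, hz, rfl⟩ := Finset.mem_image.mp hy
        exact Finset.mem_biUnion.mpr ⟨z, hz, Finset.mem_product.mpr
          ⟨Finset.mem_filter.mpr ⟨hu2, hyu⟩, Finset.mem_univ _⟩⟩)
    have hfm : ∀ y : {y // y ∈ R}, (f y).1 ∈ Q ∧ y.1 ∈ nb (f y).1 := fun y =>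
      Finset.mem_filter.mp (Finset.mem_product.mp (hft y)).1
    refine ⟨fun u => (R.attach.filter (fun y => (f y).1 = u)).image Subtype.val, ?_, ?_, ?_⟩
    · intro u _
      constructor
      · intro b hb
        obtain ⟨y, hy, rfl⟩ := Finset.mem_image.mp hb
        have := (Finset.mem_filter.mp hy).2
        exact this ▸ (hfm y).2
      · rw [Finset.card_image_of_injective _ Subtype.val_injective]
        have h2 : (R.attach.filter (fun y => (f y).1 = u)).card ≤
            (Finset.univ : Finset (Fin d)).card := by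
          apply Finset.card_le_card_of_injOn (fun y => (f y).2)
          · intro y _
            exact Finset.mem_coe.mpr (Finset.mem_univ _)
          · intro y hy y' hy' hyy
            have e1 := (Finset.mem_filter.mp (Finset.mem_coe.mp hy)).2
            have e2 := (Finset.mem_filter.mp (Finset.mem_coe.mp hy')).2
            exact hf (Prod.ext (e1.trans e2.symm) hyy)
        rw [Finset.card_univ, Fintype.card_fin] at h2
        exact h2
    · intro u _ v _ huv
      simp only
      rw [Finset.disjoint_left]
      intro b hb hb'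
      obtain ⟨y, hy, rfl⟩ := Finset.mem_image.mp hb
      obtain ⟨y', hy', hyy⟩ := Finset.mem_image.mp hb'
      have e1 := (Finset.mem_filter.mp hy).2
      have e2 := (Finset.mem_filter.mp hy').2
      have e3 : y' = y := Subtype.ext hyy
      rw [e3] at e2
      exact huv (e1.symm.trans e2)
    · intro y hy
      refine Finset.mem_biUnion.mpr ⟨(f ⟨y, hy⟩).1, (hfm ⟨y, hy⟩).1, ?_⟩
      exact Finset.mem_image.mpr ⟨⟨y, hy⟩, Finset.mem_filter.mpr ⟨Finset.mem_attach _ _, rfl⟩, rfl⟩

end Pool.Agent.H973.SR
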