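import Pool.Agent.H973.SR.Stm2

/-!
# Existence of the host graph, cleaning
-/

namespace Pool.Agent.H973.SR

open Finset

namespace HostL

theorem Pr_true {Ω : Type} [Fintype Ω] [Nonempty Ω] : Pr (fun _ : Ω => True) = 1 := by
  classical
  unfold Pr
  have h : (0 : ℝ) < (Fintype.card Ω : ℝ) := by exact_mod_cast Fintype.card_pos
  rw [Finset.filter_true, Finset.card_univ]
  exact div_self h.ne'

theorem Pr_or {Ω : Type} [Fintype Ω] {E E1 E2 : Ω → Prop} (h : ∀ ω, E ω → E1 ω ∨ E2 ω) :
    Pr E ≤ Pr E1 + Pr E2 := by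
  classical
  unfold Pr
  rw [← add_div]
  refine div_le_div_of_nonneg_right ?_ (Nat.cast_nonneg _)
  have h1 : (univ.filter E) ⊆ (univ.filter E1) ∪ (univ.filter E2) := by
    intro ω hω
    rw [Finset.mem_filter] at hω
    rw [Finset.mem_union, Finset.mem_filter, Finset.mem_filter]
    rcases h ω hω.2 with h2 | h2
    · exact Or.inl ⟨Finset.mem_univ _, h2⟩
    · exact Or.inr ⟨Finset.mem_univ _, h2⟩
  have h2 := (Finset.card_le_card h1).trans (Finset.card_union_le _ _)
  exact_mod_cast h2

end HostL

open HostL in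
/-- existence of the host -/
theorem host (h1 : S_BAD1) (h2 : S_BAD2) (h3 : S_BAD3) (h4 : S_BAD4) : S_HOST := by
  intro r l L D d hP
  have hs : B * r * l * d ≤ B * r * L * d :=
    Nat.mul_le_mul_right _ (Nat.mul_le_mul_left _ hP.hlL)
  have hne : Nonempty (Om (B * r * L * D) (B * r * L * d) (B * r * l * d)) := by
    obtain ⟨A, -, hA⟩ := Finset.exists_subset_card_eq
      (s := (univ : Finset (Fin (B * r * L * d)))) (n := B * r * l * d)
      (by rw [Finset.card_univ, Fintype.card_fin]; exact hs)
    exact ⟨fun _ => ⟨A, hA⟩⟩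
  have k1 := h1 r l L D d hP
  by_cases hD : D < 2 ^ 60 * r ^ 4
  · have k2 := h2 r l L D d hP hD
    by_contra hcon
    have h5 := Pr_or (Ω := Om (B * r * L * D) (B * r * L * d) (B * r * l * d))
      (E := fun _ => True) (E1 := fun S => ¬ P1 L D (2 ^ 18 * l * D) (fun u => (S u).1))
      (E2 := fun S => ¬ P2 L d (2 ^ 18 * l * d) (fun u => (S u).1)) (fun S _ => by
        by_contra hc
        rw [not_or, not_not, not_not] at hc
        exact hcon ⟨fun u => (S u).1, fun u => (S u).2, hc.1, fun _ => hc.2,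
          fun h => absurd hD (not_lt.2 h)⟩)
    rw [Pr_true] at h5
    exact absurd (h5.trans (add_le_add k1 k2)) (by norm_num)
  · have hD' := not_lt.1 hD
    have k3 := h3 r l L D d hP hD'
    have k4 := h4 r l L D d hP hD'
    by_contra hcon
    have h5 := Pr_or (Ω := Om (B * r * L * D) (B * r * L * d) (B * r * l * d))
      (E := fun _ => True) (E1 := fun S => ¬ P1 L D (2 ^ 18 * l * D) (fun u => (S u).1))
      (E2 := fun S => P1 L D (2 ^ 18 * l * D) (fun u => (S u).1)) (fun S _ => by
        by_contra hc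
        rw [not_or, not_not] at hc
        exact hc.2 hc.1)
    have h6 := Pr_or (Ω := Om (B * r * L * D) (B * r * L * d) (B * r * l * d))
      (E := fun S => P1 L D (2 ^ 18 * l * D) (fun u => (S u).1))
      (E1 := fun S => ¬ P4 L D (fun u => (S u).1))
      (E2 := fun S => P4 L D (fun u => (S u).1) ∧
        ¬ P3 L D d (2 ^ 16 * l * d) (fun u => (S u).1)) (fun S hS => by
        by_contra hc
        rw [not_or, not_not] at hc
        have h7 : P3 L D d (2 ^ 16 * l * d) (fun u => (S u).1) := by
          by_contra h8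
          exact hc.2 ⟨hc.1, h8⟩
        exact hcon ⟨fun u => (S u).1, fun u => (S u).2, hS, fun h => absurd h hD, fun _ => h7⟩)
    rw [Pr_true] at h5
    exact absurd (h5.trans (add_le_add k1 (h6.trans (add_le_add k4 k3)))) (by norm_num)

/-- majority colour and cleaning -/
theorem clean : S_CLEAN := by
  intro N1 N2 s r g h S c hS hlt
  classical
  -- the majority colour
  obtain ⟨i, hi⟩ : ∃ i : Fin r, g * N1 + h * N2 < ∑ u, ((S u).filter (fun w => c u w = i)).card := by
    by_contra hcon
    push Not at hcon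
    have e1 : ∑ i : Fin r, ∑ u, ((S u).filter (fun w => c u w = i)).card = N1 * s := by
      rw [Finset.sum_comm]
      have : ∀ u ∈ (univ : Finset (Fin N1)), ∑ i : Fin r, ((S u).filter (fun w => c u w = i)).card
          = s := by
        intro u _
        rw [← hS u]
        exact (Finset.card_eq_sum_card_fiberwise (fun w _ => by simp)).symm
      rw [Finset.sum_congr rfl this, Finset.sum_const, Finset.card_univ, Fintype.card_fin,
        smul_eq_mul]
    have e2 : ∑ i : Fin r, ∑ u, ((S u).filter (fun w => c u w = i)).card ≤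
        ∑ i : Fin r, (g * N1 + h * N2) := Finset.sum_le_sum fun i _ => hcon i
    rw [e1, Finset.sum_const, Finset.card_univ, Fintype.card_fin, smul_eq_mul] at e2
    omega
  refine ⟨i, ?_⟩
  -- the potential
  let f : Fin N1 → Fin N2 → ℤ := fun u w => if w ∈ S u ∧ c u w = i then 1 else 0
  have hdu : ∀ (u : Fin N1) (W' : Finset (Fin N2)), ∑ w ∈ W', f u w =
      ((((S u) ∩ W').filter (fun w => c u w = i)).card : ℤ) := by
    intro u W'
    show ∑ w ∈ W', (if w ∈ S u ∧ c u w = i then (1 : ℤ) else 0) = _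
    rw [Finset.sum_boole]
    congr 2
    ext w
    simp only [Finset.mem_filter, Finset.mem_inter]
    tauto
  have hdw : ∀ (w : Fin N2) (C' : Finset (Fin N1)), ∑ u ∈ C', f u w =
      ((C'.filter (fun u => w ∈ S u ∧ c u w = i)).card : ℤ) := by
    intro w C'
    show ∑ u ∈ C', (if w ∈ S u ∧ c u w = i then (1 : ℤ) else 0) = _
    rw [Finset.sum_boole]
  let φ : Finset (Fin N1) × Finset (Fin N2) → ℤ := fun p =>
    (∑ u ∈ p.1, ∑ w ∈ p.2, f u w) - g * p.1.card - h * p.2.card
  obtain ⟨⟨C', W'⟩, -, hmax⟩ := Finset.exists_max_image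
    (univ : Finset (Finset (Fin N1) × Finset (Fin N2))) φ ⟨(∅, ∅), Finset.mem_univ _⟩
  have hpos : 0 < φ (C', W') := by
    refine lt_of_lt_of_le ?_ (hmax (univ, univ) (Finset.mem_univ _))
    show 0 < (∑ u ∈ univ, ∑ w ∈ univ, f u w) - g * ((univ : Finset (Fin N1)).card : ℤ) -
      h * ((univ : Finset (Fin N2)).card : ℤ)
    rw [Finset.card_univ, Fintype.card_fin, Finset.card_univ, Fintype.card_fin]
    have e1 : ∑ u ∈ univ, ∑ w ∈ univ, f u w =
        ((∑ u, ((S u).filter (fun w => c u w = i)).card : ℕ) : ℤ) := by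
      rw [Nat.cast_sum]
      refine Finset.sum_congr rfl fun u _ => ?_
      rw [hdu, Finset.inter_univ]
    rw [e1]
    have : ((g * N1 + h * N2 : ℕ) : ℤ) <
      ((∑ u, ((S u).filter (fun w => c u w = i)).card : ℕ) : ℤ) := by exact_mod_cast hi
    push_cast at this ⊢
    linarith
  have hφ : φ (C', W') = (∑ u ∈ C', ∑ w ∈ W', f u w) - g * C'.card - h * W'.card := rfl
  refine ⟨C', W', ?_, ?_, ?_, ?_⟩
  · rw [Finset.nonempty_iff_ne_empty]
    rintro rfl
    rw [hφ, Finset.sum_empty, Finset.card_empty] at hpos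
    have : (0 : ℤ) ≤ h * W'.card := by positivity
    push_cast at hpos
    linarith
  · rw [Finset.nonempty_iff_ne_empty]
    rintro rfl
    rw [hφ] at hpos
    simp only [Finset.sum_empty, Finset.sum_const_zero, Finset.card_empty] at hpos
    have : (0 : ℤ) ≤ g * C'.card := by positivity
    push_cast at hpos
    linarith
  · intro u hu
    by_contra hc
    push Not at hc
    have h1 := hmax (C'.erase u, W') (Finset.mem_univ _)
    have h2 : φ (C'.erase u, W') = (∑ u ∈ C'.erase u, ∑ w ∈ W', f u w) -
      g * ((C'.erase u).card : ℤ) - h * W'.card := rfl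
    rw [h2, hφ, ← Finset.add_sum_erase C' _ hu, hdu] at h1
    have h3 : (((C'.erase u).card : ℕ) : ℤ) = C'.card - 1 := by
      have := Finset.card_erase_add_one hu
      omega
    rw [h3] at h1
    have h4 : ((((S u) ∩ W').filter (fun w => c u w = i)).card : ℤ) < g := by exact_mod_cast hc
    have h5 : (g : ℤ) * (C'.card - 1) = g * C'.card - g := by ring
    rw [h5] at h1
    linarith
  · intro w hw
    by_contra hc
    push Not at hc
    have h1 := hmax (C', W'.erase w) (Finset.mem_univ _)
    have h2 : φ (C', W'.erase w) = (∑ u ∈ C', ∑ w ∈ W'.erase w, f u w) -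
      g * C'.card - h * ((W'.erase w).card : ℤ) := rfl
    rw [h2, hφ, Finset.sum_comm (s := C') (t := W'.erase w), Finset.sum_comm (s := C') (t := W'),
      ← Finset.add_sum_erase W' _ hw, hdw] at h1
    have h3 : (((W'.erase w).card : ℕ) : ℤ) = W'.card - 1 := by
      have := Finset.card_erase_add_one hw
      omega
    rw [h3] at h1
    have h4 : ((C'.filter (fun u => w ∈ S u ∧ c u w = i)).card : ℤ) < h := by exact_mod_cast hc
    have h5 : (h : ℤ) * (W'.card - 1) = h * W'.card - h := by ring
    rw [h5] at h1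
    linarith

end Pool.Agent.H973.SR
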