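import Pool.Agent.H973.SR.Stm2

/-!
# Binomial bound and the first numerical estimate (leaf Num1)
-/

namespace Pool.Agent.H973.SR

open Finset

theorem choose_bd : S_CHOOSE := by
  intro n k hk
  have hk0 : (0 : ℝ) < k := by exact_mod_cast hk
  have h1 : ((n.choose k : ℕ) : ℝ) ≤ (n : ℝ) ^ k / (k.factorial : ℝ) := Nat.choose_le_pow_div k n
  have h2 : (k : ℝ) ^ k / (k.factorial : ℝ) ≤ Real.exp k :=
    Real.pow_div_factorial_le_exp (k : ℝ) hk0.le k
  have h3 : Real.exp k ≤ 3 ^ k := by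
    have e1 : Real.exp (k : ℝ) = Real.exp 1 ^ k := by
      rw [← Real.exp_nat_mul, mul_one]
    rw [e1]
    refine pow_le_pow_left₀ (Real.exp_pos 1).le ?_ k
    have := Real.exp_one_lt_d9
    linarith
  have hf : (0 : ℝ) < (k.factorial : ℝ) := by exact_mod_cast Nat.factorial_pos k
  have h4 : (k : ℝ) ^ k / (k.factorial : ℝ) ≤ 3 ^ k := h2.trans h3
  refine h1.trans ?_
  rw [div_pow, mul_pow, div_le_div_iff₀ hf (by positivity)]
  rw [div_le_iff₀ hf] at h4
  calc (n : ℝ) ^ k * (k : ℝ) ^ k ≤ (n : ℝ) ^ k * (3 ^ k * (k.factorial : ℝ)) :=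
        mul_le_mul_of_nonneg_left h4 (by positivity)
    _ = 3 ^ k * (n : ℝ) ^ k * (k.factorial : ℝ) := by ring

namespace Num1L

theorem final_pow {z : ℝ} (hz : 8 ≤ z) {a x H : ℕ} (h : a + x ≤ H) :
    z ^ a * (1 / z) ^ H ≤ (1 / 8) ^ x := by
  have hz0 : 0 < z := by linarith
  have h1 : (1 / z) ≤ 1 := by
    rw [div_le_one hz0]; linarith
  have h2 : (1 / z) ^ H ≤ (1 / z) ^ (a + x) := pow_le_pow_of_le_one (by positivity) h1 h
  calc z ^ a * (1 / z) ^ H ≤ z ^ a * (1 / z) ^ (a + x) :=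
        mul_le_mul_of_nonneg_left h2 (by positivity)
    _ = (z * (1 / z)) ^ a * (1 / z) ^ x := by rw [pow_add, mul_pow]; ring
    _ = (1 / z) ^ x := by rw [mul_one_div_cancel hz0.ne', one_pow, one_mul]
    _ ≤ (1 / 8) ^ x := pow_le_pow_left₀ (by positivity)
        (one_div_le_one_div_of_le (by norm_num) hz) x

end Num1L

open Num1L

theorem num1 (h : S_CHOOSE) : S_NUM1 := by
  intro r l L D d x hP hx1 hx6
  have hD1 : 1 ≤ D := hP.hd.trans hP.hdD
  have hL1 : 1 ≤ L := hP.hl.trans hP.hlL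
  have hx0 : (0 : ℝ) < x := by exact_mod_cast hx1
  have hL0 : (0 : ℝ) < L := by exact_mod_cast hL1
  have hl0 : (0 : ℝ) < l := by exact_mod_cast hP.hl
  have hD0 : (0 : ℝ) < D := by exact_mod_cast hD1
  have hr0 : (0 : ℝ) < r := by
    have := hP.hr
    exact_mod_cast (by omega : 0 < r)
  have hd0 : (0 : ℝ) < d := by exact_mod_cast hP.hd
  have hx6' : (x : ℝ) ≤ 6 * L := by exact_mod_cast hx6
  have hB : ((B : ℕ) : ℝ) = 1048576 := by
    unfold B; norm_num
  obtain ⟨z, hz⟩ : ∃ z : ℝ, z = 1048576 * L / (108 * x) := ⟨_, rfl⟩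
  have hz1 : 1600 ≤ z := by
    rw [hz, le_div_iff₀ (by positivity)]
    nlinarith
  have hz0 : 0 < z := by linarith
  have hz2 : (2 : ℝ) ≤ z := by linarith
  have hz8 : (8 : ℝ) ≤ z := by linarith
  obtain ⟨H, hH⟩ : ∃ H : ℕ, H = 2 ^ 18 * l * D * x := ⟨_, rfl⟩
  rw [← hH]
  have hH1 : 1 ≤ H := by
    rw [hH]
    have : 0 < 2 ^ 18 * l * D * x := by
      have := hP.hl
      positivity
    exact this
  have hHr : (H : ℝ) = 262144 * l * D * x := by
    rw [hH]; push_cast; norm_num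
  -- the pieces
  have hr : (r : ℝ) ≤ z ^ l := by
    calc (r : ℝ) ≤ 2 ^ l := by exact_mod_cast hP.hrl
      _ ≤ z ^ l := pow_le_pow_left₀ (by norm_num) hz2 l
  have hdz : (d : ℝ) ≤ z ^ D := by
    calc (d : ℝ) ≤ D := by exact_mod_cast hP.hdD
      _ ≤ 2 ^ D := by exact_mod_cast Nat.lt_two_pow_self.le
      _ ≤ z ^ D := pow_le_pow_left₀ (by norm_num) hz2 D
  have h1 : (((B * r * L * d).choose x : ℕ) : ℝ) ≤ z ^ ((2 + l + D) * x) := by
    refine (h _ _ hx1).trans ?_
    rw [pow_mul]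
    refine pow_le_pow_left₀ (by positivity) ?_ x
    push_cast
    rw [hB]
    have e1 : 3 * (1048576 * (r : ℝ) * L * d) / x = 324 * r * d * z := by
      rw [hz]; field_simp; ring
    rw [e1]
    calc 324 * (r : ℝ) * d * z ≤ z * z ^ l * z ^ D * z := by
          gcongr
          linarith
      _ = z ^ (2 + l + D) := by ring
  have h2 : (((B * r * L * D).choose (9 * D * x) : ℕ) : ℝ) ≤ z ^ ((2 + l) * (9 * D * x)) := by
    refine (h (B * r * L * D) (9 * D * x) (by nlinarith [Nat.mul_le_mul hD1 hx1])).trans ?_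
    rw [pow_mul z (2 + l) (9 * D * x)]
    refine pow_le_pow_left₀ (by positivity) ?_ (9 * D * x)
    push_cast
    rw [hB]
    have e1 : 3 * (1048576 * (r : ℝ) * L * D) / (9 * D * x) = 36 * r * z := by
      rw [hz]; field_simp; ring
    rw [e1]
    calc 36 * (r : ℝ) * z ≤ z * z ^ l * z := by
          gcongr
          linarith
      _ = z ^ (2 + l) := by ring
  have h3 : (((9 * D * x * x).choose H : ℕ) : ℝ) * ((l : ℝ) / L) ^ H ≤ (1 / z) ^ H := by
    have h4 := h (9 * D * x * x) H hH1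
    calc (((9 * D * x * x).choose H : ℕ) : ℝ) * ((l : ℝ) / L) ^ H
        ≤ (3 * ((9 * D * x * x : ℕ) : ℝ) / H) ^ H * ((l : ℝ) / L) ^ H :=
          mul_le_mul_of_nonneg_right h4 (by positivity)
      _ = (1 / z) ^ H := by
          rw [← mul_pow]
          congr 1
          rw [hHr, hz]
          push_cast
          field_simp
          norm_num
  have hexp : ((2 + l + D) * x + (2 + l) * (9 * D * x)) + x ≤ H := by
    have hlD : 1 ≤ l * D := Nat.mul_le_mul hP.hl hD1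
    have hl1 := hP.hl
    have e1 : 2 + l + D ≤ 4 * (l * D) := by nlinarith
    have e2 : (2 + l) * (9 * D) ≤ 27 * (l * D) := by nlinarith
    have e3 : (2 + l + D) + (2 + l) * (9 * D) + 1 ≤ 262144 * (l * D) := by omega
    have e4 := Nat.mul_le_mul_right x e3
    have e5 : H = 262144 * (l * D) * x := by rw [hH]; ring
    rw [e5]
    calc ((2 + l + D) * x + (2 + l) * (9 * D * x)) + x
        = ((2 + l + D) + (2 + l) * (9 * D) + 1) * x := by ring
      _ ≤ _ := e4
  calc (((B * r * L * d).choose x : ℕ) : ℝ) * (((B * r * L * D).choose (9 * D * x) : ℕ) : ℝ) *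
      (((9 * D * x * x).choose H : ℕ) : ℝ) * ((l : ℝ) / L) ^ H
      = (((B * r * L * d).choose x : ℕ) : ℝ) * (((B * r * L * D).choose (9 * D * x) : ℕ) : ℝ) *
        ((((9 * D * x * x).choose H : ℕ) : ℝ) * ((l : ℝ) / L) ^ H) := by ring
    _ ≤ z ^ ((2 + l + D) * x) * z ^ ((2 + l) * (9 * D * x)) * (1 / z) ^ H := by
        gcongr
    _ = z ^ ((2 + l + D) * x + (2 + l) * (9 * D * x)) * (1 / z) ^ H := by rw [pow_add]
    _ ≤ (1 / 8) ^ x := final_pow hz8 hexp

end Pool.Agent.H973.SR
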