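import Pool.Agent.H973.SR.Stm2

/-!
# Multicolour size-Ramsey numbers of trees: the second numerical estimate
-/

namespace Pool.Agent.H973.SR

namespace Num2L

theorem fin_est {Z : ℝ} (hZ : 8 ≤ Z) {a c x : ℕ} (h : a + x ≤ c) :
    Z ^ a * (Z⁻¹) ^ c ≤ (1 / 8) ^ x := by
  have h0 : 0 < Z := by linarith
  have h1 : Z⁻¹ ≤ 1 := inv_le_one_of_one_le₀ (by linarith)
  have h2 : 0 ≤ Z⁻¹ := inv_nonneg.2 h0.le
  calc Z ^ a * (Z⁻¹) ^ c ≤ Z ^ a * (Z⁻¹) ^ (a + x) :=
        mul_le_mul_of_nonneg_left (pow_le_pow_of_le_one h2 h1 h) (by positivity)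
    _ = (Z⁻¹) ^ x := by
        rw [pow_add, ← mul_assoc, ← mul_pow, mul_inv_cancel₀ h0.ne', one_pow, one_mul]
    _ ≤ (1 / 8) ^ x := by
        refine pow_le_pow_left₀ h2 ?_ x
        rw [one_div]
        exact inv_anti₀ (by norm_num) hZ

end Num2L

open Num2L in
theorem num2 (h : S_CHOOSE) : S_NUM2 := by
  intro r l L D d x hP hD hx hxL
  have hB : ((B : ℕ) : ℝ) = 1048576 := by norm_num [B]
  have hx0 : (0:ℝ) < x := by exact_mod_cast hx
  have hl0 : (1:ℝ) ≤ l := by exact_mod_cast hP.hl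
  have hL0 : (1:ℝ) ≤ L := by exact_mod_cast hP.hl.trans hP.hlL
  have hd0 : (1:ℝ) ≤ d := by exact_mod_cast hP.hd
  have hr0 : (2:ℝ) ≤ r := by exact_mod_cast hP.hr
  have hxL' : (x:ℝ) ≤ 4 * L := by exact_mod_cast hxL
  obtain ⟨Z, hZdef⟩ : ∃ Z : ℝ, Z = B * L / (24 * x) := ⟨_, rfl⟩
  have hZ72 : 72 ≤ Z := by
    rw [hZdef, le_div_iff₀ (by positivity), hB]
    nlinarith
  have hZ0 : 0 < Z := by linarith
  have hZ1 : 1 ≤ Z := by linarith
  have hrZ : (r:ℝ) ≤ Z ^ l := by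
    calc (r:ℝ) ≤ (2:ℝ) ^ l := by exact_mod_cast hP.hrl
      _ ≤ Z ^ l := pow_le_pow_left₀ (by norm_num) (by linarith) l
  have hDZ : (D:ℝ) ≤ Z ^ (64 * l) := by
    have h1 : D ≤ 2 ^ (64 * l) := by
      calc D ≤ 2 ^ 60 * r ^ 4 := hD.le
        _ ≤ 2 ^ (60 * l) * (2 ^ l) ^ 4 := by
            refine Nat.mul_le_mul (Nat.pow_le_pow_right (by norm_num) ?_)
              (Nat.pow_le_pow_left hP.hrl 4)
            have := hP.hl
            omega
        _ = 2 ^ (64 * l) := by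
            rw [← pow_mul, ← pow_add]
            congr 1
            ring
    calc (D:ℝ) ≤ (2:ℝ) ^ (64 * l) := by exact_mod_cast h1
      _ ≤ Z ^ (64 * l) := pow_le_pow_left₀ (by norm_num) (by linarith) _
  have hD0 : (0:ℝ) ≤ D := Nat.cast_nonneg D
  -- the three factors
  have hA : (((B * r * L * D).choose x : ℕ) : ℝ) ≤ Z ^ ((2 + 65 * l) * x) := by
    refine (h _ x hx).trans ?_
    have h1 : 3 * ((B * r * L * D : ℕ) : ℝ) / x = 72 * r * D * Z := by
      rw [hZdef]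
      push_cast
      field_simp
      ring
    rw [h1, pow_mul]
    refine pow_le_pow_left₀ (by positivity) ?_ x
    calc 72 * r * D * Z ≤ Z * Z ^ l * Z ^ (64 * l) * Z := by gcongr
      _ = Z ^ (2 + 65 * l) := by ring
  have hA2 : (((B * r * L * d).choose (2 * d * x) : ℕ) : ℝ) ≤ Z ^ ((2 + l) * (2 * d * x)) := by
    have h0 : 1 ≤ 2 * d * x := Nat.mul_pos (Nat.mul_pos (by norm_num) hP.hd) hx
    refine (h _ _ h0).trans ?_
    have h1 : 3 * ((B * r * L * d : ℕ) : ℝ) / ((2 * d * x : ℕ) : ℝ) = 36 * r * Z := by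
      rw [hZdef]
      push_cast
      field_simp
      ring
    rw [h1, pow_mul Z (2 + l) (2 * d * x)]
    refine pow_le_pow_left₀ (by positivity) ?_ _
    calc 36 * r * Z ≤ Z * Z ^ l * Z := by
          gcongr
          linarith
      _ = Z ^ (2 + l) := by ring
  have hA3 : (((2 * d * x * x).choose (2 ^ 18 * l * d * x) : ℕ) : ℝ) *
      ((l : ℝ) / L) ^ (2 ^ 18 * l * d * x) ≤ (Z⁻¹) ^ (2 ^ 18 * l * d * x) := by
    have h2 : 1 ≤ 2 ^ 18 * l * d * x :=
      Nat.mul_pos (Nat.mul_pos (Nat.mul_pos (by norm_num) hP.hl) hP.hd) hx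
    have h3 := h (2 * d * x * x) (2 ^ 18 * l * d * x) h2
    refine (mul_le_mul_of_nonneg_right h3 (by positivity)).trans ?_
    rw [← mul_pow]
    refine le_of_eq ?_
    congr 1
    rw [hZdef, hB]
    push_cast
    field_simp
    ring
  calc (((B * r * L * D).choose x : ℕ) : ℝ) * (((B * r * L * d).choose (2 * d * x) : ℕ) : ℝ) *
      (((2 * d * x * x).choose (2 ^ 18 * l * d * x) : ℕ) : ℝ) *
      ((l : ℝ) / L) ^ (2 ^ 18 * l * d * x)
      = (((B * r * L * D).choose x : ℕ) : ℝ) * (((B * r * L * d).choose (2 * d * x) : ℕ) : ℝ) *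
      ((((2 * d * x * x).choose (2 ^ 18 * l * d * x) : ℕ) : ℝ) *
      ((l : ℝ) / L) ^ (2 ^ 18 * l * d * x)) := by ring
    _ ≤ Z ^ ((2 + 65 * l) * x) * Z ^ ((2 + l) * (2 * d * x)) * (Z⁻¹) ^ (2 ^ 18 * l * d * x) := by
        gcongr
    _ = Z ^ ((2 + 65 * l) * x + (2 + l) * (2 * d * x)) * (Z⁻¹) ^ (2 ^ 18 * l * d * x) := by
        rw [pow_add]
    _ ≤ (1 / 8) ^ x := by
        refine fin_est (by linarith) ?_
        have h1 : 1 ≤ l * d := Nat.mul_pos hP.hl hP.hd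
        have h2 : l ≤ l * d := Nat.le_mul_of_pos_right l hP.hd
        have h3 : d ≤ l * d := Nat.le_mul_of_pos_left d hP.hl
        have h4 : (2 + 65 * l) + (2 + l) * (2 * d) + 1 ≤ 2 ^ 18 * l * d := by
          have h5 : (2 + l) * (2 * d) = 4 * d + 2 * (l * d) := by ring
          have h6 : 2 ^ 18 * l * d = 262144 * (l * d) := by norm_num; ring
          rw [h5, h6]
          omega
        calc (2 + 65 * l) * x + (2 + l) * (2 * d * x) + x
            = ((2 + 65 * l) + (2 + l) * (2 * d) + 1) * x := by ring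
          _ ≤ (2 ^ 18 * l * d) * x := Nat.mul_le_mul_right x h4

end Pool.Agent.H973.SR
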