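import Pool.Agent.H973.SR.Stm2

/-!
# Numerical estimate for `P3`
-/

namespace Pool.Agent.H973.SR

namespace Num3L

/-- bound for the first factor -/
theorem base1 {z r l D d : ℝ} {ln Dn : ℕ} (hz : 3640 ≤ z) (hr : r ≤ z ^ ln) (hr0 : 0 ≤ r)
    (hd0 : 0 ≤ d) (hdD : d ≤ z ^ Dn) (hD0 : 0 ≤ D) (hD : D ≤ z ^ Dn) (hl : 1 ≤ ln)
    (hDn : 1 ≤ Dn) (_hl : l = ln) : 6912 * r * d * D * z ≤ z ^ (6 * ln * Dn) := by
  have hz0 : 0 ≤ z := by linarith
  have hz1 : 1 ≤ z := by linarith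
  have h1 : (6912 : ℝ) ≤ z ^ 2 := by nlinarith
  have h2 : 6912 * r * d * D * z ≤ z ^ 2 * z ^ ln * z ^ Dn * z ^ Dn * z := by
    have e1 : 6912 * r ≤ z ^ 2 * z ^ ln := mul_le_mul h1 hr hr0 (by positivity)
    have e2 : 6912 * r * d ≤ z ^ 2 * z ^ ln * z ^ Dn := mul_le_mul e1 hdD hd0 (by positivity)
    have e3 : 6912 * r * d * D ≤ z ^ 2 * z ^ ln * z ^ Dn * z ^ Dn :=
      mul_le_mul e2 hD hD0 (by positivity)
    exact mul_le_mul_of_nonneg_right e3 hz0
  refine h2.trans ?_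
  have h3 : z ^ 2 * z ^ ln * z ^ Dn * z ^ Dn * z = z ^ (2 + ln + Dn + Dn + 1) := by
    rw [pow_add, pow_add, pow_add, pow_add, pow_one]
  rw [h3]
  apply pow_le_pow_right₀ hz1
  have h4 : ln ≤ ln * Dn := Nat.le_mul_of_pos_right _ hDn
  have h5 : Dn ≤ ln * Dn := Nat.le_mul_of_pos_left _ hl
  have h6 : 6 * ln * Dn = 6 * (ln * Dn) := by ring
  have h7 : 1 ≤ ln * Dn := Nat.mul_pos hl hDn
  rw [h6]
  omega

end Num3L

/-- **Numerical estimate for `P3`** (see the docstring of `S_NUM3`). -/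
theorem num3 (h : S_CHOOSE) : S_NUM3 := by
  intro r l L D d x hP hD hx
  obtain ⟨hr, hl, hrl, hlr, hlL, hd, hdD⟩ := hP
  obtain ⟨y, hy⟩ : ∃ y, y = min (24 * D * d * x) (3 * L * d) := ⟨_, rfl⟩
  obtain ⟨f, hf⟩ : ∃ f, f = (D / 4) * x := ⟨_, rfl⟩
  obtain ⟨q, hq⟩ : ∃ q, q = 2 ^ 16 * l * d := ⟨_, rfl⟩
  rw [← hy, ← hf, ← hq]
  have hr4 : 1 ≤ r ^ 4 := Nat.one_le_pow _ _ (by omega)
  have hD8 : 8 ≤ D := by
    have : 2 ^ 60 * 1 ≤ 2 ^ 60 * r ^ 4 := Nat.mul_le_mul_left _ hr4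
    omega
  have hL : 1 ≤ L := hl.trans hlL
  have hy1 : y ≤ 24 * D * d * x := by rw [hy]; exact min_le_left _ _
  have hy2 : y ≤ 3 * L * d := by rw [hy]; exact min_le_right _ _
  have hy0 : 1 ≤ y := by
    rw [hy]
    refine le_min ?_ ?_
    · exact Nat.mul_pos (Nat.mul_pos (Nat.mul_pos (by norm_num) (by omega)) hd) hx
    · exact Nat.mul_pos (Nat.mul_pos (by norm_num) hL) hd
  have hf1 : D * x ≤ 8 * f := by
    have h1 : D ≤ 8 * (D / 4) := by omega
    calc D * x ≤ 8 * (D / 4) * x := Nat.mul_le_mul_right _ h1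
      _ = 8 * f := by rw [hf]; ring
  have hf2 : f ≤ D * x := by
    rw [hf]
    exact Nat.mul_le_mul_right _ (Nat.div_le_self _ _)
  have hDx : 1 ≤ D * x := Nat.mul_pos (by omega) hx
  have hf0 : 1 ≤ f := by omega
  have hld : 1 ≤ l * d := Nat.mul_pos hl hd
  have hq' : q = 65536 * (l * d) := by rw [hq]; ring
  have hq2 : 2 ≤ q := by omega
  -- real versions
  have rL : (1 : ℝ) ≤ L := by exact_mod_cast hL
  have rl : (1 : ℝ) ≤ l := by exact_mod_cast hl
  have rd : (1 : ℝ) ≤ d := by exact_mod_cast hd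
  have rD : (8 : ℝ) ≤ D := by exact_mod_cast hD8
  have rx : (1 : ℝ) ≤ x := by exact_mod_cast hx
  have ry : (1 : ℝ) ≤ y := by exact_mod_cast hy0
  have rf : (1 : ℝ) ≤ f := by exact_mod_cast hf0
  have rr : (2 : ℝ) ≤ r := by exact_mod_cast hr
  have ry1 : (y : ℝ) ≤ 24 * D * d * x := by exact_mod_cast hy1
  have ry2 : (y : ℝ) ≤ 3 * L * d := by exact_mod_cast hy2
  have rf1 : (D : ℝ) * x ≤ 8 * f := by exact_mod_cast hf1
  have rq : (q : ℝ) = 65536 * (l * d) := by rw [hq']; push_cast; ring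
  have rq1 : ((q - 1 : ℕ) : ℝ) = q - 1 := by
    rw [Nat.cast_sub (by omega)]; norm_num
  have rB : ((B : ℕ) : ℝ) = 1048576 := by unfold B; norm_num
  obtain ⟨z, hz⟩ : ∃ z : ℝ, z = 1048576 * L * d / (96 * y) := ⟨_, rfl⟩
  have hzy : 96 * y * z = 1048576 * L * d := by
    rw [hz]
    field_simp
  have hz1 : 3640 ≤ z := by
    rw [hz, le_div_iff₀ (by positivity)]
    nlinarith
  have hz0 : 0 < z := by linarith
  have hz1' : 1 ≤ z := by linarith
  have hrz : (r : ℝ) ≤ z ^ l := by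
    have h1 : (r : ℝ) ≤ 2 ^ l := by exact_mod_cast hrl
    exact h1.trans (pow_le_pow_left₀ (by norm_num) (by linarith) _)
  have hlz : (l : ℝ) ≤ z ^ l := by
    have h1 : (l : ℝ) ≤ 2 ^ l := by exact_mod_cast (Nat.lt_two_pow_self (n := l)).le
    exact h1.trans (pow_le_pow_left₀ (by norm_num) (by linarith) _)
  have hDz : (D : ℝ) ≤ z ^ D := by
    have h1 : (D : ℝ) ≤ 2 ^ D := by exact_mod_cast (Nat.lt_two_pow_self (n := D)).le
    exact h1.trans (pow_le_pow_left₀ (by norm_num) (by linarith) _)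
  have hdz : (d : ℝ) ≤ z ^ D := by
    have h1 : (d : ℝ) ≤ D := by exact_mod_cast hdD
    exact h1.trans hDz
  -- the first factor
  have t1 : (((B * r * L * d).choose x : ℕ) : ℝ) ≤ z ^ (6 * l * D * x) := by
    have h1 := h (B * r * L * d) x hx
    refine h1.trans ?_
    rw [pow_mul]
    refine pow_le_pow_left₀ (by positivity) ?_ x
    refine le_trans ?_ (Num3L.base1 (l := l) hz1 hrz (by linarith) (by linarith) hdz (by linarith)
      hDz hl (by omega) rfl)
    rw [div_le_iff₀ (by linarith)]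
    push_cast
    rw [rB]
    -- `3 B r L d ≤ 6912 r d D z x`
    have h2 : 1048576 * (L : ℝ) * d ≤ 2304 * D * z * x * d := by
      rw [← hzy]
      have h3 := mul_le_mul_of_nonneg_right ry1 (by linarith : (0 : ℝ) ≤ 96 * z)
      linarith
    have h4 := mul_le_mul_of_nonneg_left h2 (by linarith : (0 : ℝ) ≤ 3 * r)
    linarith
  -- the second factor
  have t2 : (((B * r * L * d).choose y : ℕ) : ℝ) ≤ z ^ (72 * (l * D * d * x)) := by
    have h1 := h (B * r * L * d) y hy0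
    have h2 : 3 * (((B * r * L * d : ℕ) : ℕ) : ℝ) / y ≤ z ^ (2 + l) := by
      rw [div_le_iff₀ (by linarith)]
      push_cast
      rw [rB]
      have h3 : 288 * (r : ℝ) * z ≤ z ^ (2 + l) := by
        rw [pow_add]
        have h4 : 288 * z ≤ z ^ 2 := by nlinarith
        have h5 := mul_le_mul h4 hrz (by linarith) (by positivity)
        linarith
      have h6 := mul_le_mul_of_nonneg_right h3 (by linarith : (0 : ℝ) ≤ y)
      have h7 : 3 * (1048576 * (r : ℝ) * L * d) = 288 * r * z * y := by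
        have : 3 * (1048576 * (r : ℝ) * L * d) = 3 * r * (1048576 * L * d) := by ring
        rw [this, ← hzy]
        ring
      rw [h7]
      exact h6
    refine h1.trans ((pow_le_pow_left₀ (by positivity) h2 y).trans ?_)
    rw [← pow_mul]
    apply pow_le_pow_right₀ hz1'
    calc (2 + l) * y ≤ (3 * l) * (24 * D * d * x) := Nat.mul_le_mul (by omega) hy1
      _ = 72 * (l * D * d * x) := by ring
  -- the third factor
  have t3 : (((B * r * L * D).choose f : ℕ) : ℝ) * ((x : ℝ) * ((l : ℝ) / L)) ^ f ≤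
      z ^ (5 * (l * D * x)) := by
    have h1 := h (B * r * L * D) f hf0
    have h2 : 3 * (((B * r * L * D : ℕ) : ℕ) : ℝ) / f * ((x : ℝ) * ((l : ℝ) / L)) ≤
        z ^ (3 + 2 * l) := by
      have h3 : 3 * (((B * r * L * D : ℕ) : ℕ) : ℝ) / f * ((x : ℝ) * ((l : ℝ) / L)) =
          3 * 1048576 * r * l * (D * x) / f := by
        push_cast
        rw [rB]
        field_simp
      rw [h3, div_le_iff₀ (by linarith)]
      have h4 : 3 * 1048576 * (r : ℝ) * l * (D * x) ≤ 3 * 1048576 * r * l * (8 * f) :=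
        mul_le_mul_of_nonneg_left rf1 (by positivity)
      refine h4.trans ?_
      have h5 : (25165824 : ℝ) ≤ z ^ 3 := by
        have := pow_le_pow_left₀ (by norm_num) hz1 3
        linarith
      have h6 : 25165824 * ((r : ℝ) * l) ≤ z ^ (3 + 2 * l) := by
        rw [pow_add, two_mul, pow_add]
        exact mul_le_mul h5 (mul_le_mul hrz hlz (by linarith) (by positivity)) (by positivity)
          (by positivity)
      have h7 := mul_le_mul_of_nonneg_right h6 (by linarith : (0 : ℝ) ≤ f)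
      linarith
    calc (((B * r * L * D).choose f : ℕ) : ℝ) * ((x : ℝ) * ((l : ℝ) / L)) ^ f
        ≤ (3 * (((B * r * L * D : ℕ) : ℕ) : ℝ) / f) ^ f * ((x : ℝ) * ((l : ℝ) / L)) ^ f :=
          mul_le_mul_of_nonneg_right h1 (by positivity)
      _ = (3 * (((B * r * L * D : ℕ) : ℕ) : ℝ) / f * ((x : ℝ) * ((l : ℝ) / L))) ^ f :=
          (mul_pow _ _ _).symm
      _ ≤ (z ^ (3 + 2 * l)) ^ f := pow_le_pow_left₀ (by positivity) h2 f
      _ ≤ z ^ (5 * (l * D * x)) := by
          rw [← pow_mul]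
          apply pow_le_pow_right₀ hz1'
          calc (3 + 2 * l) * f ≤ (5 * l) * (D * x) := Nat.mul_le_mul (by omega) hf2
            _ = 5 * (l * D * x) := by ring
  -- the fourth factor
  have t4 : ((y.choose (q - 1) : ℕ) : ℝ) * ((l : ℝ) / L) ^ (q - 1) ≤ (1 / z) ^ (q - 1) := by
    have h1 := h y (q - 1) (by omega)
    have h2 : 3 * (y : ℝ) / ((q - 1 : ℕ) : ℝ) * ((l : ℝ) / L) ≤ 1 / z := by
      rw [rq1]
      have hq1 : (q : ℝ) / 2 ≤ q - 1 := by
        have : (2 : ℝ) ≤ q := by exact_mod_cast hq2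
        linarith
      have hqp : (0 : ℝ) < q / 2 := by
        have : (2 : ℝ) ≤ q := by exact_mod_cast hq2
        linarith
      have h3 : 3 * (y : ℝ) / ((q : ℝ) - 1) ≤ 3 * y / (q / 2) :=
        div_le_div_of_nonneg_left (by linarith) hqp hq1
      have h4 : 3 * (y : ℝ) / (q / 2) * ((l : ℝ) / L) = 1 / z := by
        rw [rq, hz]
        field_simp
        norm_num
      rw [← h4]
      exact mul_le_mul_of_nonneg_right h3 (by positivity)
    calc ((y.choose (q - 1) : ℕ) : ℝ) * ((l : ℝ) / L) ^ (q - 1)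
        ≤ (3 * (y : ℝ) / ((q - 1 : ℕ) : ℝ)) ^ (q - 1) * ((l : ℝ) / L) ^ (q - 1) :=
          mul_le_mul_of_nonneg_right h1 (by positivity)
      _ = (3 * (y : ℝ) / ((q - 1 : ℕ) : ℝ) * ((l : ℝ) / L)) ^ (q - 1) := (mul_pow _ _ _).symm
      _ ≤ (1 / z) ^ (q - 1) := pow_le_pow_left₀ (by positivity) h2 _
  have t4' : (((y.choose (q - 1) : ℕ) : ℝ) * ((l : ℝ) / L) ^ (q - 1)) ^ f ≤
      (1 / z) ^ ((q - 1) * f) := by
    rw [pow_mul]
    exact pow_le_pow_left₀ (by positivity) t4 f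
  -- the product
  have hprod : (((B * r * L * d).choose x : ℕ) : ℝ) * (((B * r * L * d).choose y : ℕ) : ℝ) *
      (((B * r * L * D).choose f : ℕ) : ℝ) *
      ((x : ℝ) * ((y.choose (q - 1) : ℕ) : ℝ)) ^ f * ((l : ℝ) / L) ^ (q * f) =
      ((((B * r * L * d).choose x : ℕ) : ℝ) * (((B * r * L * d).choose y : ℕ) : ℝ) *
      ((((B * r * L * D).choose f : ℕ) : ℝ) * ((x : ℝ) * ((l : ℝ) / L)) ^ f)) *
      (((y.choose (q - 1) : ℕ) : ℝ) * ((l : ℝ) / L) ^ (q - 1)) ^ f := by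
    have e : ((l : ℝ) / L) ^ (q * f) = ((l : ℝ) / L) ^ f * (((l : ℝ) / L) ^ (q - 1)) ^ f := by
      rw [← pow_mul, ← pow_add]
      congr 1
      obtain ⟨m, hm⟩ : ∃ m, q = m + 1 := ⟨q - 1, by omega⟩
      rw [hm, Nat.add_sub_cancel]
      ring
    rw [e, mul_pow, mul_pow, mul_pow]
    ring
  rw [hprod]
  have hexp : 6 * l * D * x + 72 * (l * D * d * x) + 5 * (l * D * x) + x ≤ (q - 1) * f := by
    have h1 : 65535 * (l * d) ≤ q - 1 := by omega
    have h2 : 65535 * (l * d) * f ≤ (q - 1) * f := Nat.mul_le_mul_right _ h1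
    have h3 : 65535 * (l * d) * (D * x) ≤ 8 * (65535 * (l * d) * f) := by
      calc 65535 * (l * d) * (D * x) ≤ 65535 * (l * d) * (8 * f) := Nat.mul_le_mul_left _ hf1
        _ = 8 * (65535 * (l * d) * f) := by ring
    have h4 : l * D * x ≤ l * D * d * x := by
      calc l * D * x = l * D * 1 * x := by ring
        _ ≤ l * D * d * x := Nat.mul_le_mul_right _ (Nat.mul_le_mul_left _ hd)
    have h5 : x ≤ l * D * x := Nat.le_mul_of_pos_left _ (Nat.mul_pos hl (by omega))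
    have h6 : 65535 * (l * d) * (D * x) = 65535 * (l * D * d * x) := by ring
    have h7 : 6 * l * D * x = 6 * (l * D * x) := by ring
    rw [h7]
    omega
  have hA : (((B * r * L * d).choose x : ℕ) : ℝ) * (((B * r * L * d).choose y : ℕ) : ℝ) *
      ((((B * r * L * D).choose f : ℕ) : ℝ) * ((x : ℝ) * ((l : ℝ) / L)) ^ f) ≤
      z ^ (6 * l * D * x + 72 * (l * D * d * x) + 5 * (l * D * x)) := by
    rw [pow_add, pow_add]
    exact mul_le_mul (mul_le_mul t1 t2 (by positivity) (by positivity)) t3 (by positivity)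
      (by positivity)
  have hfin := mul_le_mul hA t4' (by positivity) (by positivity)
  refine hfin.trans ?_
  have hw : (1 / z) ^ ((q - 1) * f) ≤
      (1 / z) ^ (6 * l * D * x + 72 * (l * D * d * x) + 5 * (l * D * x) + x) :=
    pow_le_pow_of_le_one (by positivity) (by rw [div_le_one hz0]; exact hz1') hexp
  refine (mul_le_mul_of_nonneg_left hw (by positivity)).trans ?_
  rw [pow_add (1 / z), ← mul_assoc, ← mul_pow, mul_one_div_cancel hz0.ne', one_pow, one_mul]
  exact pow_le_pow_left₀ (by positivity) (one_div_le_one_div_of_le (by norm_num) (by linarith)) x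

end Pool.Agent.H973.SR
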