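import Pool.Agent.H973.SR.Stm2

set_option autoImplicit false

namespace Pool.Agent.H973.SR

namespace Num4L

theorem sq_le (l : ℕ) : l ^ 2 ≤ 2 * 2 ^ l := by
  rcases Nat.lt_or_ge l 4 with h | h
  · interval_cases l <;> norm_num
  · induction l, h using Nat.le_induction with
    | base => norm_num
    | succ n hn ih =>
      have : (n + 1) ^ 2 ≤ 2 * n ^ 2 := by nlinarith
      rw [pow_succ 2 n]
      omega

theorem pow_mul_pow_le {a b c : ℝ} {f m : ℕ} (ha : 0 ≤ a) (hb : 0 ≤ b) (hb1 : b ≤ 1)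
    (hc : a * b ^ 4 ≤ c) (hm : 4 * f ≤ m) : a ^ f * b ^ m ≤ c ^ f := by
  obtain ⟨k, rfl⟩ := Nat.exists_eq_add_of_le hm
  have h1 : a ^ f * b ^ (4 * f + k) = (a * b ^ 4) ^ f * b ^ k := by
    rw [mul_pow, pow_add, ← pow_mul]
    ring
  rw [h1]
  have h2 : b ^ k ≤ 1 := pow_le_one₀ hb hb1
  have h3 : (a * b ^ 4) ^ f ≤ c ^ f := pow_le_pow_left₀ (by positivity) hc f
  calc (a * b ^ 4) ^ f * b ^ k ≤ (a * b ^ 4) ^ f * 1 :=
        mul_le_mul_of_nonneg_left h2 (by positivity)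
    _ ≤ c ^ f := by rw [mul_one]; exact h3

theorem real_facts {r l D : ℕ} {τ : ℝ} (hr : 2 ≤ r) (hlr : 2 ^ l ≤ 2 * r)
    (hD : 2 ^ 60 * r ^ 4 ≤ D) (hτ : 4 * (D : ℝ) ≤ τ) :
    (l : ℝ) ^ 4 ≤ 16 * (r : ℝ) ^ 2 ∧ (2 : ℝ) ^ 27 * (r : ℝ) ^ 3 ≤ τ ∧ 3 * 2 ^ 20 * (r : ℝ) ≤ τ ∧
      3 * (l : ℝ) ≤ 4 * τ ∧ 8 ≤ τ := by
  have hr4 : r ≤ r ^ 4 := Nat.le_self_pow (by norm_num) r
  have hr3 : r ^ 3 ≤ r ^ 4 := Nat.pow_le_pow_right (by omega) (by norm_num)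
  have hl2 : l ^ 2 ≤ 4 * r := (sq_le l).trans (by omega)
  have hl1 : l ≤ 4 * r := (Nat.le_self_pow (by norm_num) l).trans hl2
  have hl2' : (l : ℝ) ^ 2 ≤ 4 * r := by exact_mod_cast hl2
  have hl1' : (l : ℝ) ≤ 4 * r := by exact_mod_cast hl1
  have hDr : (2 : ℝ) ^ 60 * (r : ℝ) ^ 4 ≤ D := by exact_mod_cast hD
  have hr4' : (r : ℝ) ≤ (r : ℝ) ^ 4 := by exact_mod_cast hr4
  have hr3' : (r : ℝ) ^ 3 ≤ (r : ℝ) ^ 4 := by exact_mod_cast hr3
  have hr2' : (2 : ℝ) ≤ r := by exact_mod_cast hr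
  refine ⟨?_, by linarith, by linarith, by linarith, by linarith⟩
  calc (l : ℝ) ^ 4 = ((l : ℝ) ^ 2) ^ 2 := by ring
    _ ≤ (4 * (r : ℝ)) ^ 2 := pow_le_pow_left₀ (by positivity) hl2' 2
    _ = 16 * (r : ℝ) ^ 2 := by ring

theorem hab {r l τ B : ℝ} (hB : B = 2 ^ 20) (hr : 0 ≤ r) (hτ : 0 < τ) (h4 : l ^ 4 ≤ 16 * r ^ 2)
    (h27 : 2 ^ 27 * r ^ 3 ≤ τ) : 24 * B * r * τ * (3 * l / (4 * τ)) ^ 4 ≤ (1 / τ) ^ 2 := by
  have e : 24 * B * r * τ * (3 * l / (4 * τ)) ^ 4 =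
      (243 / 32 * B * r * l ^ 4) / τ ^ 3 := by
    field_simp
    ring
  have e2 : (1 / τ) ^ 2 = τ / τ ^ 3 := by
    field_simp
  rw [e, e2]
  refine div_le_div_of_nonneg_right ?_ (by positivity)
  rw [hB]
  have h5 : r * l ^ 4 ≤ 16 * r ^ 3 := by
    calc r * l ^ 4 ≤ r * (16 * r ^ 2) := mul_le_mul_of_nonneg_left h4 hr
      _ = 16 * r ^ 3 := by ring
  calc 243 / 32 * 2 ^ 20 * r * l ^ 4
      = 243 / 32 * 2 ^ 20 * (r * l ^ 4) := by ring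
    _ ≤ 243 / 32 * 2 ^ 20 * (16 * r ^ 3) :=
        mul_le_mul_of_nonneg_left h5 (by norm_num)
    _ ≤ 2 ^ 27 * r ^ 3 := by
        have h0 : (0 : ℝ) ≤ r ^ 3 := by positivity
        linarith
    _ ≤ τ := h27

theorem f1 (h : S_CHOOSE) {b r L d x : ℕ} {τ : ℝ} (hx : 1 ≤ x) (hτd : τ = (L : ℝ) / x)
    (hτ0 : 0 ≤ τ) (h1 : 3 * (b : ℝ) * r ≤ τ) (h2 : (d : ℝ) ≤ τ) :
    (((b * r * L * d).choose x : ℕ) : ℝ) ≤ (τ ^ 3) ^ x := by
  refine (h _ x hx).trans (pow_le_pow_left₀ (by positivity) ?_ x)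
  have e : 3 * (((b * r * L * d : ℕ)) : ℝ) / x = (3 * (b : ℝ) * r) * d * τ := by
    rw [hτd]; push_cast; ring
  rw [e]
  calc (3 * (b : ℝ) * r) * d * τ ≤ τ * τ * τ := by
        refine mul_le_mul_of_nonneg_right ?_ hτ0
        exact mul_le_mul h1 h2 (by positivity) hτ0
    _ = τ ^ 3 := by ring

theorem f2 (h : S_CHOOSE) {b r L D x q : ℕ} {τ : ℝ} (hx : 1 ≤ x) (hq : 1 ≤ q)
    (hτd : τ = (L : ℝ) / x) (hq2 : D ≤ 8 * q) :
    (((b * r * L * D).choose (q * x) : ℕ) : ℝ) ≤ (24 * (b : ℝ) * r * τ) ^ (q * x) := by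
  have hf1 : 1 ≤ q * x := Nat.one_le_iff_ne_zero.2 (by positivity)
  refine (h _ (q * x) hf1).trans (pow_le_pow_left₀ (by positivity) ?_ _)
  have hx0 : (0 : ℝ) < x := by exact_mod_cast (by omega : 0 < x)
  have hq0 : (0 : ℝ) < q := by exact_mod_cast (by omega : 0 < q)
  rw [div_le_iff₀ (by push_cast; positivity)]
  have e : 24 * (b : ℝ) * r * τ * ((q * x : ℕ) : ℝ) = 3 * (b : ℝ) * r * L * (8 * q) := by
    rw [hτd]; push_cast; field_simp; ring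
  rw [e]
  have hq2' : (D : ℝ) ≤ 8 * q := by exact_mod_cast hq2
  have h0 : (0 : ℝ) ≤ 3 * (b : ℝ) * r * L := by positivity
  push_cast
  calc 3 * ((b : ℝ) * r * L * D) = 3 * (b : ℝ) * r * L * D := by ring
    _ ≤ 3 * (b : ℝ) * r * L * (8 * q) := mul_le_mul_of_nonneg_left hq2' h0

theorem f3 (h : S_CHOOSE) {l L D x q : ℕ} {τ : ℝ} (hx : 1 ≤ x) (hD : 1 ≤ D) (hL : 1 ≤ L)
    (hτd : τ = (L : ℝ) / x) (hq1 : 4 * q ≤ D) :
    (((q * x * x).choose (D * x) : ℕ) : ℝ) * ((l : ℝ) / L) ^ (D * x) ≤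
      (3 * l / (4 * τ)) ^ (D * x) := by
  have hDx : 1 ≤ D * x := Nat.one_le_iff_ne_zero.2 (by positivity)
  have hx0 : (0 : ℝ) < x := by exact_mod_cast (by omega : 0 < x)
  have hD0 : (0 : ℝ) < D := by exact_mod_cast (by omega : 0 < D)
  have hL0 : (0 : ℝ) < L := by exact_mod_cast (by omega : 0 < L)
  have h4 : (((q * x * x).choose (D * x) : ℕ) : ℝ) ≤ (3 * x / 4) ^ (D * x) := by
    refine (h _ (D * x) hDx).trans (pow_le_pow_left₀ (by positivity) ?_ _)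
    rw [div_le_iff₀ (by push_cast; positivity)]
    have hq1' : 4 * (q : ℝ) ≤ D := by exact_mod_cast hq1
    have h0 : (0 : ℝ) ≤ 3 * x * x / 4 := by positivity
    push_cast
    calc 3 * ((q : ℝ) * x * x) = 3 * x * x / 4 * (4 * q) := by ring
      _ ≤ 3 * x * x / 4 * D := mul_le_mul_of_nonneg_left hq1' h0
      _ = 3 * x / 4 * (D * x) := by ring
  calc _ ≤ (3 * (x : ℝ) / 4) ^ (D * x) * ((l : ℝ) / L) ^ (D * x) :=
        mul_le_mul_of_nonneg_right h4 (by positivity)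
    _ = (3 * l / (4 * τ)) ^ (D * x) := by
        rw [← mul_pow]
        congr 1
        rw [hτd]
        field_simp

end Num4L

open Num4L

theorem num4 (h : S_CHOOSE) : S_NUM4 := by
  intro r l L D d x hP hD hx hL
  obtain ⟨hr, hl, hrl, hlr, hlL, hd, hdD⟩ := hP
  have hDbig : 2 ^ 60 * 2 ≤ D := by
    have h1 : r ≤ r ^ 4 := Nat.le_self_pow (by norm_num) r
    have h2 : 2 ^ 60 * 2 ≤ 2 ^ 60 * r ^ 4 := Nat.mul_le_mul_left _ (by omega)
    omega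
  have hD4 : 2 ≤ D / 4 := by omega
  have hq1 : 4 * (D / 4) ≤ D := by omega
  have hq2 : D ≤ 8 * (D / 4) := by omega
  have hL1 : 1 ≤ L := Nat.one_le_iff_ne_zero.2 (by
    have : 0 < 4 * D * x := by positivity
    omega)
  generalize D / 4 = q at hD4 hq1 hq2 ⊢
  have hx0 : (0 : ℝ) < x := by exact_mod_cast (by omega : 0 < x)
  obtain ⟨τ, hτd⟩ : ∃ τ : ℝ, τ = (L : ℝ) / x := ⟨_, rfl⟩
  have hτ : 4 * (D : ℝ) ≤ τ := by
    rw [hτd, le_div_iff₀ hx0]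
    exact_mod_cast hL
  obtain ⟨g1, g2, g3, g4, g5⟩ := real_facts hr hlr hD hτ
  have hτ0 : 0 < τ := by linarith
  have hB : ((B : ℕ) : ℝ) = 2 ^ 20 := by norm_num [B]
  have hdτ : (d : ℝ) ≤ τ := by
    have h1 : (d : ℝ) ≤ D := by exact_mod_cast hdD
    have h2 : (0 : ℝ) ≤ D := by positivity
    linarith
  have h1 := f1 h (b := B) (r := r) (d := d) (x := x) (L := L) (by omega) hτd hτ0.le
    (by rw [hB]; exact g3) hdτ
  have h2 := f2 h (b := B) (r := r) (D := D) (x := x) (L := L) (q := q) (by omega) (by omega)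
    hτd hq2
  have h3 := f3 h (l := l) (D := D) (x := x) (L := L) (q := q) (by omega) (by omega) hL1 hτd hq1
  have hb1 : 3 * (l : ℝ) / (4 * τ) ≤ 1 := by
    rw [div_le_one (by positivity)]
    exact g4
  have hab' := hab hB (Nat.cast_nonneg r) hτ0 g1 g2
  have h5 : (24 * (B : ℝ) * r * τ) ^ (q * x) * (3 * l / (4 * τ)) ^ (D * x) ≤
      ((1 / τ) ^ 2) ^ (q * x) := by
    refine pow_mul_pow_le (by positivity) (by positivity) hb1 hab' ?_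
    rw [← mul_assoc]
    exact Nat.mul_le_mul_right _ hq1
  have hinv : 1 / τ ≤ 1 := by rw [div_le_one hτ0]; linarith
  have h6 : ((1 / τ) ^ 2) ^ (q * x) ≤ ((1 / τ) ^ 4) ^ x := by
    rw [← pow_mul, ← pow_mul]
    refine pow_le_pow_of_le_one (by positivity) hinv ?_
    rw [← mul_assoc]
    exact Nat.mul_le_mul_right _ (by omega)
  calc (((B * r * L * d).choose x : ℕ) : ℝ) * (((B * r * L * D).choose (q * x) : ℕ) : ℝ) *
      (((q * x * x).choose (D * x) : ℕ) : ℝ) * ((l : ℝ) / L) ^ (D * x)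
      = (((B * r * L * d).choose x : ℕ) : ℝ) * ((((B * r * L * D).choose (q * x) : ℕ) : ℝ) *
        ((((q * x * x).choose (D * x) : ℕ) : ℝ) * ((l : ℝ) / L) ^ (D * x))) := by ring
    _ ≤ (τ ^ 3) ^ x * ((24 * (B : ℝ) * r * τ) ^ (q * x) * (3 * l / (4 * τ)) ^ (D * x)) := by
        refine mul_le_mul h1 (mul_le_mul h2 h3 (by positivity) (by positivity)) (by positivity)
          (by positivity)
    _ ≤ (τ ^ 3) ^ x * ((1 / τ) ^ 4) ^ x :=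
        mul_le_mul_of_nonneg_left (h5.trans h6) (by positivity)
    _ = (1 / τ) ^ x := by
        rw [← mul_pow]
        congr 1
        field_simp
    _ ≤ (1 / 8) ^ x := by
        refine pow_le_pow_left₀ (by positivity) ?_ x
        exact one_div_le_one_div_of_le (by norm_num) g5

end Pool.Agent.H973.SR
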