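import Pool.Agent.H973.SR.Stm

/-! Proof of `S_PACK` from `S_TIGHT` and `S_PACK0` (helper357). -/

namespace Pool.Agent.H973.SR

open Finset

theorem pack (h1 : S_TIGHT) (h2 : S_PACK0) : S_PACK := by
  intro α γ β _ _ _ A P D nb d Z R hd hdis hD hRZ hMat hmax hyp
  obtain ⟨Qg, Tg, S, hQg, hSR, hTg, hTgd, hrest⟩ :=
    h1 γ β nb d (A.biUnion P) Z R hd hRZ hMat hmax
  -- the sub-instance
  have hcard : ∀ w, (P w \ Qg).card + (P w ∩ Qg).card = (P w).card := fun w =>
    Finset.card_sdiff_add_card_inter (P w) Qg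
  obtain ⟨F₁, T₁, hF₁, hT₁, hT₁d⟩ :=
    h2 α γ β (A.filter (fun w => (P w ∩ Qg).card < D)) (fun w => P w \ Qg)
      (fun w => D - (P w ∩ Qg).card) (fun u => nb u \ Z) d
      (by
        intro w hw w' hw' hne
        exact Disjoint.mono Finset.sdiff_subset Finset.sdiff_subset
          (hdis w (Finset.mem_filter.1 hw).1 w' (Finset.mem_filter.1 hw').1 hne))
      (by
        intro w hw
        have h1 := hcard w
        have h2 := hD w (Finset.mem_filter.1 hw).1
        show D - (P w ∩ Qg).card ≤ (P w \ Qg).card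
        omega)
      (by
        intro X hX hXne V hV
        have hXA : X ⊆ A := hX.trans (Finset.filter_subset _ _)
        have h := hyp X hXA hXne V (by
          intro w hw
          obtain ⟨ha, hb⟩ := hV w hw
          have hlt : (P w ∩ Qg).card < D := (Finset.mem_filter.1 (hX hw)).2
          have h1 := hcard w
          have hb' : (P w \ Qg).card < (V w).card + (D - (P w ∩ Qg).card) := hb
          refine ⟨ha.trans Finset.sdiff_subset, ?_⟩
          omega)
        have heq : (X.biUnion V).biUnion (fun u => nb u \ Z)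
            = ((X.biUnion V).biUnion nb) \ Z := by
          ext y
          simp only [Finset.mem_biUnion, Finset.mem_sdiff]
          constructor
          · rintro ⟨u, hu, hy, hyZ⟩
            exact ⟨⟨u, hu, hy⟩, hyZ⟩
          · rintro ⟨⟨u, hu, hy⟩, hyZ⟩
            exact ⟨u, hu, hy, hyZ⟩
        rw [heq]
        exact h)
  -- the sets from which `F w` is chosen
  have hex : ∀ w, ∃ G : Finset γ, w ∈ A →
      (G.card = D ∧ ∀ u ∈ G, u ∈ P w ∧
        (u ∈ Qg ∨ (u ∉ Qg ∧ w ∈ A.filter (fun w => (P w ∩ Qg).card < D) ∧ u ∈ F₁ w))) := by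
    intro w
    by_cases hw : w ∈ A
    · by_cases hlt : (P w ∩ Qg).card < D
      · have hwf : w ∈ A.filter (fun w => (P w ∩ Qg).card < D) := Finset.mem_filter.2 ⟨hw, hlt⟩
        obtain ⟨hs, hc⟩ := hF₁ w hwf
        have hs' : F₁ w ⊆ P w \ Qg := hs
        have hc' : D - (P w ∩ Qg).card ≤ (F₁ w).card := hc
        have hdj : Disjoint (P w ∩ Qg) (F₁ w) := by
          rw [Finset.disjoint_left]
          intro u hu hu'
          exact (Finset.mem_sdiff.1 (hs' hu')).2 (Finset.mem_inter.1 hu).2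
        have hcu : D ≤ ((P w ∩ Qg) ∪ F₁ w).card := by
          rw [Finset.card_union_of_disjoint hdj]
          omega
        obtain ⟨G, hG, hGc⟩ := Finset.exists_subset_card_eq hcu
        refine ⟨G, fun _ => ⟨hGc, ?_⟩⟩
        intro u hu
        rcases Finset.mem_union.1 (hG hu) with h | h
        · exact ⟨(Finset.mem_inter.1 h).1, Or.inl (Finset.mem_inter.1 h).2⟩
        · have h' := Finset.mem_sdiff.1 (hs' h)
          exact ⟨h'.1, Or.inr ⟨h'.2, hwf, h⟩⟩
      · obtain ⟨G, hG, hGc⟩ := Finset.exists_subset_card_eq (not_lt.1 hlt)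
        refine ⟨G, fun _ => ⟨hGc, ?_⟩⟩
        intro u hu
        have h := Finset.mem_inter.1 (hG hu)
        exact ⟨h.1, Or.inl h.2⟩
    · exact ⟨∅, fun h => absurd h hw⟩
  choose F hF using hex
  refine ⟨F, fun u => if u ∈ Qg then Tg u else T₁ u, ?_, ?_, ?_⟩
  · intro w hw
    obtain ⟨hc, hm⟩ := hF w hw
    exact ⟨fun u hu => (hm u hu).1, hc⟩
  · intro w hw u hu
    obtain ⟨hc, hm⟩ := hF w hw
    obtain ⟨hP, h⟩ := hm u hu
    rcases h with h | ⟨hn, hwf, hF1⟩
    · obtain ⟨ha, hb⟩ := hTg u h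
      simp only [h, if_true]
      refine ⟨fun y hy => ?_, hb⟩
      have hy' := Finset.mem_inter.1 (ha hy)
      exact Finset.mem_inter.2 ⟨hy'.1, hSR hy'.2⟩
    · obtain ⟨ha, hb⟩ := hT₁ w hwf u hF1
      simp only [hn, if_false]
      refine ⟨fun y hy => ?_, hb⟩
      have hy1 : y ∈ nb u \ Z := ha hy
      have hy2 := hrest u (Finset.mem_biUnion.2 ⟨w, hw, hP⟩) hn hy1
      exact Finset.mem_inter.2 ⟨(Finset.mem_sdiff.1 hy1).1, (Finset.mem_sdiff.1 hy2).1⟩
  · intro w hw u hu w' hw' u' hu' hne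
    obtain ⟨-, hm⟩ := hF w hw
    obtain ⟨-, hm'⟩ := hF w' hw'
    obtain ⟨hP, h⟩ := hm u hu
    obtain ⟨hP', h'⟩ := hm' u' hu'
    have key : ∀ (w : α) (u : γ), w ∈ A → u ∈ P w → u ∉ Qg →
        w ∈ A.filter (fun w => (P w ∩ Qg).card < D) → u ∈ F₁ w →
        ∀ v ∈ Qg, Disjoint (Tg v) (T₁ u) := by
      intro w u hwA huP hun hwf hF1 v hv
      rw [Finset.disjoint_left]
      intro y hy hy'
      have h1 : y ∈ nb u \ Z := (hT₁ w hwf u hF1).1 hy'
      have h2 := hrest u (Finset.mem_biUnion.2 ⟨w, hwA, huP⟩) hun h1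
      have h3 := Finset.mem_inter.1 ((hTg v hv).1 hy)
      exact (Finset.mem_sdiff.1 h2).2 h3.2
    rcases h with h | ⟨hn, hwf, hF1⟩
    · rcases h' with h' | ⟨hn', hwf', hF1'⟩
      · simp only [h, h', if_true]
        exact hTgd u h u' h' hne
      · simp only [h, hn', if_true, if_false]
        exact key w' u' hw' hP' hn' hwf' hF1' u h
    · rcases h' with h' | ⟨hn', hwf', hF1'⟩
      · simp only [h', hn, if_true, if_false]
        exact (key w u hw hP hn hwf hF1 u' h').symm
      · simp only [hn, hn', if_false]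
        exact hT₁d w hwf u hF1 w' hwf' u' hF1' hne

end Pool.Agent.H973.SR
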