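import Pool.Agent.H973.SR.Stm

namespace Pool.Agent.H973.SR

open Finset

namespace Pack0L

theorem biUnion_sdiff_const {γ β : Type} [DecidableEq γ] [DecidableEq β] (nb : γ → Finset β)
    (V : Finset γ) (Z : Finset β) :
    V.biUnion (fun u => nb u \ Z) = V.biUnion nb \ Z := by
  ext y
  simp only [mem_biUnion, mem_sdiff]
  constructor
  · rintro ⟨u, hu, hy, hz⟩
    exact ⟨⟨u, hu, hy⟩, hz⟩
  · rintro ⟨⟨u, hu, hy⟩, hz⟩
    exact ⟨u, hu, hy, hz⟩

theorem main (h : S_HALLD) (α γ β : Type) [DecidableEq α] [DecidableEq γ] [DecidableEq β]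
    (nb : γ → Finset β) (d : ℕ) :
    ∀ (n : ℕ) (A : Finset α) (P : α → Finset γ) (q : α → ℕ), (A.biUnion P).card = n →
    (∀ w ∈ A, ∀ w' ∈ A, w ≠ w' → Disjoint (P w) (P w')) →
    (∀ w ∈ A, q w ≤ (P w).card) →
    (∀ X ⊆ A, X.Nonempty → ∀ V : α → Finset γ,
      (∀ w ∈ X, V w ⊆ P w ∧ (P w).card < (V w).card + q w) →
      d * (X.biUnion V).card ≤ ((X.biUnion V).biUnion nb).card) →
    ∃ (F : α → Finset γ) (T : γ → Finset β),
      (∀ w ∈ A, F w ⊆ P w ∧ q w ≤ (F w).card) ∧
      (∀ w ∈ A, ∀ u ∈ F w, T u ⊆ nb u ∧ (T u).card = d) ∧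
      (∀ w ∈ A, ∀ u ∈ F w, ∀ w' ∈ A, ∀ u' ∈ F w', u ≠ u' → Disjoint (T u) (T u')) := by
  intro n
  induction n using Nat.strong_induction_on with
  | _ n ih =>
  intro A P q hn hdis hq hyp
  set U := A.biUnion P with hU
  obtain ⟨U', hU'mem, hmin⟩ := Finset.exists_min_image U.powerset
    (fun V => (((V.biUnion nb).card : ℤ) - (d : ℤ) * (V.card : ℤ))) ⟨∅, by simp⟩
  have hU'U : U' ⊆ U := mem_powerset.mp hU'mem
  by_cases hpos : (0 : ℤ) ≤ ((U'.biUnion nb).card : ℤ) - (d : ℤ) * (U'.card : ℤ)
  · obtain ⟨T, hT1, hT2⟩ := h γ β nb d U (by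
      intro V hV
      have h1 := hmin V (mem_powerset.mpr hV)
      have h2 : (d : ℤ) * (V.card : ℤ) ≤ ((V.biUnion nb).card : ℤ) := by linarith
      exact_mod_cast h2)
    refine ⟨P, T, fun w hw => ⟨Subset.refl _, hq w hw⟩, ?_, ?_⟩
    · intro w hw u hu
      exact hT1 u (mem_biUnion.mpr ⟨w, hw, hu⟩)
    · intro w hw u hu w' hw' u' hu' hne
      exact hT2 u (mem_biUnion.mpr ⟨w, hw, hu⟩) u' (mem_biUnion.mpr ⟨w', hw', hu'⟩) hne
  · have hneg : ((U'.biUnion nb).card : ℤ) < (d : ℤ) * (U'.card : ℤ) := by
      push Not at hpos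
      linarith
    have hU'ne : U'.Nonempty := by
      rw [Finset.nonempty_iff_ne_empty]
      rintro rfl
      simp at hneg
    set A' := A.filter (fun w => (P w \ U').card < q w) with hA'
    set P' : α → Finset γ := fun w => P w ∩ U' with hP'
    set q' : α → ℕ := fun w => q w - (P w \ U').card with hq'
    have hsplit : ∀ w, (P w).card = (P w \ U').card + (P' w).card := by
      intro w
      have := Finset.card_sdiff_add_card_inter (P w) U'
      simp only [hP']
      omega
    have hA'A : A' ⊆ A := filter_subset _ _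
    have hA'lt : ∀ w ∈ A', (P w \ U').card < q w := fun w hw => (mem_filter.mp hw).2
    have hsub : A'.biUnion P' ⊆ U' := by
      intro u hu
      obtain ⟨w, _, hw⟩ := mem_biUnion.mp hu
      exact (mem_inter.mp hw).2
    have hne : A'.biUnion P' ≠ U' := by
      intro heq
      have hA'ne : A'.Nonempty := by
        obtain ⟨u, hu⟩ := hU'ne
        rw [← heq] at hu
        obtain ⟨w, hw, _⟩ := mem_biUnion.mp hu
        exact ⟨w, hw⟩
      have h1 := hyp A' hA'A hA'ne P' (by
        intro w hw
        refine ⟨inter_subset_left, ?_⟩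
        have := hsplit w
        have := hA'lt w hw
        omega)
      rw [heq] at h1
      have h2 : (d : ℤ) * (U'.card : ℤ) ≤ ((U'.biUnion nb).card : ℤ) := by exact_mod_cast h1
      linarith
    have hlt : (A'.biUnion P').card < n := by
      have h1 : (A'.biUnion P').card < U'.card :=
        Finset.card_lt_card (Finset.ssubset_iff_subset_ne.mpr ⟨hsub, hne⟩)
      have h2 := Finset.card_le_card hU'U
      omega
    obtain ⟨F', T', hF', hT', hTd'⟩ := ih _ hlt A' P' q' rfl
      (by
        intro w hw w' hw' hne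
        exact (hdis w (hA'A hw) w' (hA'A hw') hne).mono inter_subset_left inter_subset_left)
      (by
        intro w hw
        have h1 := hsplit w
        have h2 := hq w (hA'A hw)
        simp only [hq']
        omega)
      (by
        intro X hX hXne V hV
        refine hyp X (hX.trans hA'A) hXne V ?_
        intro w hw
        obtain ⟨h1, h2⟩ := hV w hw
        refine ⟨h1.trans inter_subset_left, ?_⟩
        have h3 := hsplit w
        have h4 := hA'lt w (hX hw)
        simp only [hq'] at h2
        omega)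
    obtain ⟨T'', hT1, hT2⟩ := h γ β (fun u => nb u \ U'.biUnion nb) d (U \ U') (by
      intro V hV
      rw [biUnion_sdiff_const]
      have hVU : V ∪ U' ⊆ U := by
        intro u hu
        rcases mem_union.mp hu with h1 | h1
        · exact (mem_sdiff.mp (hV h1)).1
        · exact hU'U h1
      have hdisj : Disjoint V U' := by
        rw [Finset.disjoint_left]
        intro u hu
        exact (mem_sdiff.mp (hV hu)).2
      have h1 := hmin (V ∪ U') (mem_powerset.mpr hVU)
      rw [Finset.card_union_of_disjoint hdisj, Finset.union_biUnion] at h1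
      have h2 : (V.biUnion nb ∪ U'.biUnion nb).card
          = (V.biUnion nb \ U'.biUnion nb).card + (U'.biUnion nb).card := by
        rw [← Finset.card_sdiff_add_card]
      rw [h2] at h1
      push_cast at h1
      have h3 : (d : ℤ) * (V.card : ℤ) ≤ ((V.biUnion nb \ U'.biUnion nb).card : ℤ) := by linarith
      exact_mod_cast h3)
    refine ⟨fun w => (P w \ U') ∪ (if w ∈ A' then F' w else ∅),
      fun u => if u ∈ U' then T' u else T'' u, ?_, ?_, ?_⟩
    · intro w hw
      constructor
      · intro u hu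
        rcases mem_union.mp hu with h1 | h1
        · exact (mem_sdiff.mp h1).1
        · by_cases hwA : w ∈ A'
          · rw [if_pos hwA] at h1
            exact (mem_inter.mp ((hF' w hwA).1 h1)).1
          · rw [if_neg hwA] at h1
            simp at h1
      · beta_reduce
        by_cases hwA : w ∈ A'
        · rw [if_pos hwA]
          have hd : Disjoint (P w \ U') (F' w) := by
            rw [Finset.disjoint_left]
            intro u hu hu'
            exact (mem_sdiff.mp hu).2 (mem_inter.mp ((hF' w hwA).1 hu')).2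
          rw [Finset.card_union_of_disjoint hd]
          have h1 := (hF' w hwA).2
          simp only [hq'] at h1
          omega
        · rw [if_neg hwA, Finset.union_empty]
          by_contra hcon
          exact hwA (mem_filter.mpr ⟨hw, by omega⟩)
    · intro w hw u hu
      beta_reduce
      rcases mem_union.mp hu with h1 | h1
      · have h2 := (mem_sdiff.mp h1).2
        rw [if_neg h2]
        have h3 := hT1 u (mem_sdiff.mpr ⟨mem_biUnion.mpr ⟨w, hw, (mem_sdiff.mp h1).1⟩, h2⟩)
        exact ⟨h3.1.trans sdiff_subset, h3.2⟩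
      · by_cases hwA : w ∈ A'
        · rw [if_pos hwA] at h1
          have h2 := (mem_inter.mp ((hF' w hwA).1 h1)).2
          rw [if_pos h2]
          exact hT' w hwA u h1
        · rw [if_neg hwA] at h1
          simp at h1
    · have key : ∀ w ∈ A, ∀ u ∈ (P w \ U') ∪ (if w ∈ A' then F' w else ∅),
          (u ∉ U' ∧ u ∈ U \ U') ∨ (u ∈ U' ∧ ∃ w ∈ A', u ∈ F' w) := by
        intro w hw u hu
        rcases mem_union.mp hu with h1 | h1
        · left
          exact ⟨(mem_sdiff.mp h1).2,
            mem_sdiff.mpr ⟨mem_biUnion.mpr ⟨w, hw, (mem_sdiff.mp h1).1⟩, (mem_sdiff.mp h1).2⟩⟩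
        · by_cases hwA : w ∈ A'
          · rw [if_pos hwA] at h1
            right
            exact ⟨(mem_inter.mp ((hF' w hwA).1 h1)).2, w, hwA, h1⟩
          · rw [if_neg hwA] at h1
            simp at h1
      intro w hw u hu w' hw' u' hu' hne
      have mixed : ∀ u u' : γ, u ∈ U' → (∃ w ∈ A', u ∈ F' w) → u' ∈ U \ U' →
          Disjoint (T' u) (T'' u') := by
        intro u u' hu ⟨w, hw, huF⟩ hu'
        rw [Finset.disjoint_left]
        intro y hy hy'
        have h1 := (hT' w hw u huF).1 hy
        have h2 := (hT1 u' hu').1 hy'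
        exact (mem_sdiff.mp h2).2 (mem_biUnion.mpr ⟨u, hu, h1⟩)
      rcases key w hw u hu with ⟨h1, h2⟩ | ⟨h1, h2⟩ <;>
        rcases key w' hw' u' hu' with ⟨h3, h4⟩ | ⟨h3, h4⟩
      · simp only [if_neg h1, if_neg h3]
        exact hT2 u h2 u' h4 hne
      · simp only [if_neg h1, if_pos h3]
        exact (mixed u' u h3 h4 h2).symm
      · simp only [if_pos h1, if_neg h3]
        exact mixed u u' h1 h2 h4
      · simp only [if_pos h1, if_pos h3]
        obtain ⟨v, hv, hvF⟩ := h2
        obtain ⟨v', hv', hvF'⟩ := h4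
        exact hTd' v hv u hvF v' hv' u' hvF' hne

end Pack0L

theorem pack0 (h : S_HALLD) : S_PACK0 := by
  intro α γ β _ _ _ A P q nb d h1 h2 h3
  exact Pack0L.main h α γ β nb d _ A P q rfl h1 h2 h3

end Pool.Agent.H973.SR
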