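import Pool.Agent.H973.SR.Stm

/-!
# Parent function of a rooted finite tree
-/

namespace Pool.Agent.H973.SR

open Finset

namespace ParentL

theorem exists_par {V : Type} {T : SimpleGraph V} (hT : T.IsTree) (v0 v : V) (hv : v ≠ v0) :
    ∃ y, T.Adj v y ∧ T.dist v0 v = T.dist v0 y + 1 := by
  obtain ⟨p, hp⟩ := (hT.connected v0 v).exists_walk_length_eq_dist
  have hn : ¬ p.Nil := fun h => hv h.eq.symm
  have hadj : T.Adj p.penultimate v := p.adj_penultimate hn
  refine ⟨p.penultimate, hadj.symm, ?_⟩
  have h1 : T.dist v0 p.penultimate ≤ p.dropLast.length := SimpleGraph.dist_le p.dropLast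
  have h2 : p.dropLast.length + 1 = p.length := by
    have h3 := p.concat_dropLast hadj
    have h4 := congrArg SimpleGraph.Walk.length h3
    rw [SimpleGraph.Walk.length_concat] at h4
    exact h4
  rcases hT.dist_eq_dist_add_one_of_adj v0 hadj.symm with h | h
  · exact h
  · omega

theorem not_mem {V : Type} {T : SimpleGraph V} {v0 v y : V} (q : T.Walk v0 y)
    (hq : q.length = T.dist v0 y) (h : T.dist v0 v = T.dist v0 y + 1) : v ∉ q.support := by
  classical
  intro hmem
  have h1 := SimpleGraph.dist_le (q.takeUntil v hmem)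
  have h2 := q.length_takeUntil_le_length hmem
  omega

theorem par_unique {V : Type} {T : SimpleGraph V} (hT : T.IsTree) (v0 v y y' : V)
    (h1 : T.Adj v y) (h2 : T.dist v0 v = T.dist v0 y + 1) (h3 : T.Adj v y')
    (h4 : T.dist v0 v = T.dist v0 y' + 1) : y = y' := by
  obtain ⟨q, hq, hql⟩ := (hT.connected v0 y).exists_path_of_dist
  obtain ⟨q', hq', hql'⟩ := (hT.connected v0 y').exists_path_of_dist
  have e := (hT.existsUnique_path v0 v).unique (hq.concat (not_mem q hql h2) h1.symm)
    (hq'.concat (not_mem q' hql' h4) h3.symm)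
  have e2 := congrArg SimpleGraph.Walk.penultimate e
  rw [SimpleGraph.Walk.penultimate_concat, SimpleGraph.Walk.penultimate_concat] at e2
  exact e2

end ParentL

open ParentL in
theorem parent : S_PARENT := by
  intro V _ _ T v0 hT
  have hex : ∀ v, v ≠ v0 → ∃ y, T.Adj v y ∧ T.dist v0 v = T.dist v0 y + 1 :=
    fun v hv => exists_par hT v0 v hv
  choose! par hpar using hex
  have key : ∀ x y, T.Adj x y → T.dist v0 x = T.dist v0 y + 1 → x ≠ v0 ∧ par x = y := by
    intro x y hxy h
    have hx : x ≠ v0 := by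
      rintro rfl
      rw [SimpleGraph.dist_self] at h
      omega
    exact ⟨hx, par_unique hT v0 x _ _ (hpar x hx).1 (hpar x hx).2 hxy h⟩
  refine ⟨par, fun v => T.dist v0 v, SimpleGraph.dist_self, fun v hv => hpar v hv,
    fun x y hxy => ?_⟩
  rcases hT.dist_eq_dist_add_one_of_adj v0 hxy with h | h
  · exact Or.inl (key x y hxy h)
  · exact Or.inr (key y x hxy.symm h)

end Pool.Agent.H973.SR
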