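import Pool.Agent.H973.SR.Stm

/-! The initial state and the serving of a non critical agent (helper747). -/

set_option autoImplicit false

namespace Pool.Agent.H973.SR

open Finset

theorem init : S_INIT := by
  intro C W _ _ _ N L D d q w0 hE
  constructor
  · intro X hX
    have h1 := hE.e1 X hX
    rw [sdiff_empty]
    have h2 : 8 * D * X.card ≤ (8 * D + D) * X.card := Nat.mul_le_mul_right _ (Nat.le_add_right _ _)
    exact (h2.trans h1).trans (Nat.le_add_right _ _)
  · exact Subset.refl _
  · exact Subset.refl _
  · exact Subset.refl _
  · simp
  · simp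
  · simp
  · intro w hw
    exact absurd hw (notMem_empty w)
  · intro w _ _
    refine ⟨rfl, ?_⟩
    intro hc
    unfold Critical at hc
    have h1 : 0 < ((N w).filter (fun u => ((Nr N u) \ ({w0} : Finset W)).card < 2 * q)).card :=
      lt_of_lt_of_le hE.hdD hc
    obtain ⟨u, hu⟩ := card_pos.1 h1
    have h2 := (mem_filter.1 hu).2
    have h3 := hE.deg u
    have h4 := le_card_sdiff ({w0} : Finset W) (Nr N u)
    rw [card_singleton] at h4
    have h5 := hE.hq
    have h6 := hE.hd
    omega
  · intro w hw
    exact absurd hw (notMem_empty w)
  · intro w hw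
    exact absurd hw (notMem_empty w)
  · intro w hw
    exact absurd hw (notMem_empty w)
  · intro w hw
    exact absurd hw (notMem_empty w)
  · intro w hw
    exact absurd hw (notMem_empty w)

theorem serve (h : S_FP) : S_SERVE := by
  intro C W ι _ _ _ _ N L D d q UC UW P ZC ZW Cr a F T w I K hE hS hwP hwC hID hKd hUC hUW u0
  obtain ⟨haw, hnc⟩ := hS.ncrit w hwC (Or.inl hwP)
  have hL := hE.hL
  have hd := hE.hd
  have hD := hE.hdD
  have hCr : 8 * D * Cr.card ≤ L := by
    have h1 := hS.cardCr
    have h2 : (8 * D * Cr.card) * d ≤ L * d := by
      calc (8 * D * Cr.card) * d = 8 * D * d * Cr.card := by ring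
        _ ≤ L * d := h1
    exact Nat.le_of_mul_le_mul_right h2 hd
  have main : ∀ J : Finset ι, J ⊆ I → ∃ (u : ι → C) (t : ι → Finset W),
      (∀ i ∈ J, u i ∈ N w ∧ u i ∉ ZC) ∧
      (∀ i ∈ J, ∀ j ∈ J, u i = u j → i = j) ∧
      (∀ i ∈ J, (t i).card = K i ∧ Disjoint (t i) ZW ∧ ∀ y ∈ t i, u i ∈ N y) ∧
      (∀ i ∈ J, ∀ j ∈ J, i ≠ j → Disjoint (t i) (t j)) ∧
      Good N (8 * D) (2 * (2 * L + 1)) (ZC ∪ J.image u) (Function.update a w J.card) := by
    intro J
    induction J using Finset.induction_on with
    | empty =>
      intro _
      refine ⟨fun _ => u0, fun _ => ∅, ?_, ?_, ?_, ?_, ?_⟩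
      · intro i hi
        exact absurd hi (notMem_empty i)
      · intro i hi
        exact absurd hi (notMem_empty i)
      · intro i hi
        exact absurd hi (notMem_empty i)
      · intro i hi
        exact absurd hi (notMem_empty i)
      · rw [image_empty, union_empty, card_empty, ← haw, Function.update_eq_self]
        exact hS.good
    | insert i J hi ih =>
      intro hJ
      have hJI : J ⊆ I := (subset_insert i J).trans hJ
      have hiI : i ∈ I := hJ (mem_insert_self i J)
      obtain ⟨u, t, h1, h2, h3, h4, h5⟩ := ih hJI
      have hJc : J.card < I.card :=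
        card_lt_card ⟨hJI, fun hcon => hi (hcon hiI)⟩
      -- the forbidden set is small
      have hZ : (ZC ∪ J.image u).card < D * (2 * L + 1) := by
        have e1 : (ZC ∪ J.image u).card ≤ ZC.card + J.card :=
          (card_union_le _ _).trans (Nat.add_le_add_left card_image_le _)
        have e2 := hS.cardC
        have e3 : L ≤ L * D := Nat.le_mul_of_pos_right L hD
        have e4 : D * (2 * L + 1) = 2 * (L * D) + D := by ring
        rw [e4]
        omega
      have hlt : Function.update a w J.card w < 8 * D := by
        rw [Function.update_self]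
        omega
      obtain ⟨S, hSs, hSc, hSg⟩ := h W C N (8 * D) D (2 * L + 1) (ZC ∪ J.image u)
        (Function.update a w J.card) hE.e1 hZ h5 w hlt
      rw [Function.update_self] at hSc hSg
      -- the children chosen before
      have hYc : (J.biUnion t).card ≤ ∑ j ∈ J, K j :=
        card_biUnion_le.trans (sum_le_sum fun j hj => ((h3 j hj).1).le)
      have hKJ : ∑ j ∈ J, K j ≤ J.card * d := by
        rw [← smul_eq_mul]
        exact sum_le_card_nsmul J K d fun j hj => hKd j (hJI hj)
      have hKI : ∑ j ∈ J, K j ≤ ∑ j ∈ I, K j := sum_le_sum_of_subset hJI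
      have hY1 : (J.biUnion t).card ≤ 24 * D * d * ({w} : Finset W).card := by
        rw [card_singleton, mul_one]
        have e1 : J.card * d ≤ D * d := Nat.mul_le_mul_right d (by omega)
        have e2 : 24 * D * d = 24 * (D * d) := by ring
        rw [e2]
        omega
      have hY2 : (J.biUnion t).card ≤ 3 * L * d := by
        have e2 : 3 * L * d = 3 * (L * d) := by ring
        rw [e2]
        omega
      obtain ⟨w', hw', hB2⟩ := hE.e3 {w} (J.biUnion t) (singleton_nonempty w) hY1 hY2
      rw [mem_singleton] at hw'
      subst hw'
      have hB1 : ((N w').filter (fun v => ((Nr N v) \ ZW).card < 2 * q)).card < D := by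
        unfold Critical at hnc
        exact not_le.1 hnc
      obtain ⟨v, hvS, hv⟩ : ∃ v ∈ S, v ∉ (N w').filter (fun v => ((Nr N v) \ ZW).card < 2 * q) ∪
          (N w').filter (fun v => q ≤ ((Nr N v) ∩ (J.biUnion t)).card) := by
        by_contra hcon
        push Not at hcon
        have e1 : S.card ≤ ((N w').filter (fun v => ((Nr N v) \ ZW).card < 2 * q) ∪
          (N w').filter (fun v => q ≤ ((Nr N v) ∩ (J.biUnion t)).card)).card := card_le_card hcon
        have e2 := e1.trans (card_union_le _ _)
        omega
      have hvN := hSs hvS
      rw [mem_sdiff, mem_union, not_or] at hvN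
      obtain ⟨hvw, hvZ, hvu⟩ := hvN
      rw [mem_union, not_or, mem_filter, mem_filter, not_and, not_and, not_lt, not_le] at hv
      have hv1 := hv.1 hvw
      have hv2 := hv.2 hvw
      have hcard : K i ≤ (((Nr N v) \ ZW) \ (J.biUnion t)).card := by
        have e1 : ((Nr N v) \ ZW).card ≤ (((Nr N v) \ ZW) \ (J.biUnion t)).card +
            ((Nr N v) ∩ (J.biUnion t)).card := by
          rw [← card_sdiff_add_card_inter ((Nr N v) \ ZW) (J.biUnion t)]
          refine Nat.add_le_add_left (card_le_card ?_) _
          exact inter_subset_inter_right sdiff_subset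
        have e2 := hE.hq
        have e3 := hKd i hiI
        omega
      obtain ⟨τ, hτs, hτc⟩ := exists_subset_card_eq hcard
      have hne : ∀ j ∈ J, j ≠ i := fun j hj hji => hi (hji ▸ hj)
      have hdisj : ∀ j ∈ J, Disjoint τ (t j) := by
        intro j hj
        rw [disjoint_left]
        intro y hy hyt
        exact (mem_sdiff.1 (hτs hy)).2 (mem_biUnion.2 ⟨j, hj, hyt⟩)
      have hun : ∀ j ∈ J, v ≠ u j := by
        intro j hj hvj
        exact hvu (mem_image.2 ⟨j, hj, hvj.symm⟩)
      refine ⟨Function.update u i v, Function.update t i τ, ?_, ?_, ?_, ?_, ?_⟩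
      · intro j hj
        rcases mem_insert.1 hj with rfl | hj
        · rw [Function.update_self]
          exact ⟨hvw, hvZ⟩
        · rw [Function.update_of_ne (hne j hj)]
          exact h1 j hj
      · intro j hj k hk hjk
        rcases mem_insert.1 hj with rfl | hj'
        · rcases mem_insert.1 hk with rfl | hk'
          · rfl
          · rw [Function.update_self, Function.update_of_ne (hne k hk')] at hjk
            exact absurd hjk (hun k hk')
        · rcases mem_insert.1 hk with rfl | hk'
          · rw [Function.update_self, Function.update_of_ne (hne j hj')] at hjk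
            exact absurd hjk.symm (hun j hj')
          · rw [Function.update_of_ne (hne j hj'), Function.update_of_ne (hne k hk')] at hjk
            exact h2 j hj' k hk' hjk
      · intro j hj
        rcases mem_insert.1 hj with rfl | hj
        · rw [Function.update_self, Function.update_self]
          refine ⟨hτc, ?_, ?_⟩
          · rw [disjoint_left]
            intro y hy
            exact (mem_sdiff.1 (mem_sdiff.1 (hτs hy)).1).2
          · intro y hy
            exact (mem_filter.1 (mem_sdiff.1 (mem_sdiff.1 (hτs hy)).1).1).2
        · rw [Function.update_of_ne (hne j hj), Function.update_of_ne (hne j hj)]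
          exact h3 j hj
      · intro j hj k hk hjk
        rcases mem_insert.1 hj with rfl | hj'
        · rcases mem_insert.1 hk with rfl | hk'
          · exact absurd rfl hjk
          · rw [Function.update_self, Function.update_of_ne (hne k hk')]
            exact hdisj k hk'
        · rcases mem_insert.1 hk with rfl | hk'
          · rw [Function.update_self, Function.update_of_ne (hne j hj')]
            exact (hdisj j hj').symm
          · rw [Function.update_of_ne (hne j hj'), Function.update_of_ne (hne k hk')]
            exact h4 j hj' k hk' hjk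
      · have e1 : ZC ∪ (insert i J).image (Function.update u i v) = insert v (ZC ∪ J.image u) := by
          rw [image_insert, Function.update_self, union_insert]
          congr 2
          refine image_congr fun j hj => ?_
          exact Function.update_of_ne (hne j hj) _ _
        have e2 := hSg v hvS
        rw [e1, card_insert_of_notMem hi]
        rw [Function.update_idem] at e2
        exact e2
  exact main I (Subset.refl I)

end Pool.Agent.H973.SR
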