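import Pool.Agent.H973.SR.Stm

namespace Pool.Agent.H973.SR

open Finset

namespace TightL

variable {γ β : Type} [DecidableEq γ] [DecidableEq β]

/-- the elements of `Q` with a neighbour in `S` -/
def Ga (nb : γ → Finset β) (Q : Finset γ) (S : Finset β) : Finset γ :=
  Q.filter (fun u => ∃ y ∈ S, y ∈ nb u)

theorem mem_Ga {nb : γ → Finset β} {Q : Finset γ} {S : Finset β} {u : γ} :
    u ∈ Ga nb Q S ↔ u ∈ Q ∧ ∃ y ∈ S, y ∈ nb u := by
  simp [Ga]

theorem Ga_mono {nb : γ → Finset β} {Q : Finset γ} {S S' : Finset β} (h : S ⊆ S') :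
    Ga nb Q S ⊆ Ga nb Q S' := by
  intro u hu
  rw [mem_Ga] at hu ⊢
  obtain ⟨h1, y, hy, h2⟩ := hu
  exact ⟨h1, y, h hy, h2⟩

theorem Ga_union (nb : γ → Finset β) (Q : Finset γ) (S S' : Finset β) :
    Ga nb Q (S ∪ S') = Ga nb Q S ∪ Ga nb Q S' := by
  ext u
  rw [mem_union, mem_Ga, mem_Ga, mem_Ga]
  constructor
  · rintro ⟨h1, y, hy, h2⟩
    rcases mem_union.1 hy with h | h
    · exact Or.inl ⟨h1, y, h, h2⟩
    · exact Or.inr ⟨h1, y, h, h2⟩
  · rintro (⟨h1, y, hy, h2⟩ | ⟨h1, y, hy, h2⟩)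
    · exact ⟨h1, y, mem_union_left _ hy, h2⟩
    · exact ⟨h1, y, mem_union_right _ hy, h2⟩

theorem card_Ga (nb : γ → Finset β) (Q : Finset γ) (S S' : Finset β) :
    (Ga nb Q (S ∪ S')).card + (Ga nb Q (S ∩ S')).card ≤ (Ga nb Q S).card + (Ga nb Q S').card := by
  rw [Ga_union, ← card_union_add_card_inter (Ga nb Q S) (Ga nb Q S')]
  apply Nat.add_le_add_left
  apply card_le_card
  exact subset_inter (Ga_mono inter_subset_left) (Ga_mono inter_subset_right)

theorem tight_union {nb : γ → Finset β} {d : ℕ} {Q : Finset γ} {R S S' : Finset β}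
    (hall : ∀ X ⊆ R, X.card ≤ d * (Ga nb Q X).card)
    (hS : S ⊆ R) (hS' : S' ⊆ R) (h : S.card = d * (Ga nb Q S).card)
    (h' : S'.card = d * (Ga nb Q S').card) :
    (S ∪ S').card = d * (Ga nb Q (S ∪ S')).card := by
  apply le_antisymm (hall _ (union_subset hS hS'))
  have h1 := card_union_add_card_inter S S'
  have h2 := hall (S ∩ S') (inter_subset_left.trans hS)
  have h3 := Nat.mul_le_mul_left d (card_Ga nb Q S S')
  rw [mul_add, mul_add] at h3
  omega

theorem exists_star {nb : γ → Finset β} {d : ℕ} {Q : Finset γ} {R : Finset β}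
    (hall : ∀ X ⊆ R, X.card ≤ d * (Ga nb Q X).card) :
    ∃ S ⊆ R, S.card = d * (Ga nb Q S).card ∧
      ∀ X ⊆ R, X.card = d * (Ga nb Q X).card → X ⊆ S := by
  classical
  let p : Finset β → Prop := fun X => X.card = d * (Ga nb Q X).card
  let F := R.powerset.filter p
  have key : ∀ G : Finset (Finset β), G ⊆ F → G.sup id ⊆ R ∧
      (G.sup id).card = d * (Ga nb Q (G.sup id)).card := by
    intro G
    induction G using Finset.induction_on with
    | empty =>
      intro _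
      refine ⟨by simp, ?_⟩
      simp [Ga]
    | insert X G hX ih =>
      intro hG
      obtain ⟨i1, i2⟩ := ih ((subset_insert X G).trans hG)
      have hXF := hG (mem_insert_self X G)
      obtain ⟨hXR, hXp⟩ := mem_filter.1 hXF
      rw [mem_powerset] at hXR
      rw [sup_insert, id, sup_eq_union]
      exact ⟨union_subset hXR i1, tight_union hall hXR i1 hXp i2⟩
  obtain ⟨k1, k2⟩ := key F (Subset.refl _)
  refine ⟨F.sup id, k1, k2, ?_⟩
  intro X hX hXp
  have : X ∈ F := mem_filter.2 ⟨mem_powerset.2 hX, hXp⟩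
  exact le_sup (f := id) this

end TightL

open TightL in
theorem tight (h : S_MATHALL) : S_TIGHT := by
  intro γ β _ _ nb d Q Z R hd hRZ hmat hmax
  have hall : ∀ X ⊆ R, X.card ≤ d * (Ga nb Q X).card := (h γ β nb d Q R).1 hmat
  obtain ⟨S, hSR, hSt, hSmax⟩ := exists_star hall
  obtain ⟨T0, h1, h2, h3⟩ := hmat
  have hsub : ∀ u ∈ Ga nb Q S, u ∈ Q := fun u hu => (mem_Ga.1 hu).1
  have hdis : ∀ u ∈ Ga nb Q S, ∀ v ∈ Ga nb Q S, u ≠ v → Disjoint (T0 u ∩ S) (T0 v ∩ S) := by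
    intro u hu v hv huv
    exact (h2 u (hsub u hu) v (hsub v hv) huv).mono inter_subset_left inter_subset_left
  have hcover : S ⊆ (Ga nb Q S).biUnion (fun u => T0 u ∩ S) := by
    intro y hy
    obtain ⟨u, hu, hyu⟩ := mem_biUnion.1 (h3 (hSR hy))
    refine mem_biUnion.2 ⟨u, mem_Ga.2 ⟨hu, y, hy, (h1 u hu).1 hyu⟩, mem_inter.2 ⟨hyu, hy⟩⟩
  have hle : ∀ u ∈ Ga nb Q S, (T0 u ∩ S).card ≤ d := fun u hu =>
    (card_le_card inter_subset_left).trans (h1 u (hsub u hu)).2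
  have hsum : ∑ u ∈ Ga nb Q S, (T0 u ∩ S).card = ∑ _u ∈ Ga nb Q S, d := by
    apply le_antisymm (sum_le_sum hle)
    rw [sum_const, smul_eq_mul, mul_comm, ← hSt, ← card_biUnion hdis]
    exact card_le_card hcover
  have heq := (sum_eq_sum_iff_of_le hle).1 hsum
  refine ⟨Ga nb Q S, fun u => T0 u ∩ S, S, fun u hu => hsub u hu, hSR, ?_, hdis, ?_⟩
  · intro u hu
    exact ⟨inter_subset_inter_right (h1 u (hsub u hu)).1, heq u hu⟩
  · intro u hu hug y hy
    obtain ⟨hyu, hyZ⟩ := mem_sdiff.1 hy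
    have hyS : y ∉ S := fun hyS => hug (mem_Ga.2 ⟨hu, y, hyS, hyu⟩)
    refine mem_sdiff.2 ⟨?_, hyS⟩
    by_contra hyR
    have hno := hmax y hyZ hyR
    rw [h γ β nb d Q (insert y R)] at hno
    push Not at hno
    obtain ⟨S₁, hS₁, hlt⟩ := hno
    change d * (Ga nb Q S₁).card < S₁.card at hlt
    have hyS₁ : y ∈ S₁ := by
      by_contra hyS₁
      have hsub1 : S₁ ⊆ R := (subset_insert_iff_of_notMem hyS₁).1 hS₁
      exact absurd (hall S₁ hsub1) (not_le.2 hlt)
    have hsub2 : S₁.erase y ⊆ R := subset_insert_iff.1 hS₁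
    have hc : (S₁.erase y).card + 1 = S₁.card := card_erase_add_one hyS₁
    have hm : Ga nb Q (S₁.erase y) ⊆ Ga nb Q S₁ := Ga_mono (erase_subset _ _)
    have hb := hall _ hsub2
    have hcm := Nat.mul_le_mul_left d (card_le_card hm)
    have heq1 : (S₁.erase y).card = d * (Ga nb Q (S₁.erase y)).card := by omega
    have heq2 : d * (Ga nb Q S₁).card ≤ d * (Ga nb Q (S₁.erase y)).card := by omega
    have heq3 : (Ga nb Q S₁).card ≤ (Ga nb Q (S₁.erase y)).card :=
      Nat.le_of_mul_le_mul_left heq2 hd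
    have heq4 := eq_of_subset_of_card_le hm heq3
    have hu1 : u ∈ Ga nb Q S₁ := mem_Ga.2 ⟨hu, y, hyS₁, hyu⟩
    rw [← heq4] at hu1
    exact hug (Ga_mono (hSmax _ hsub2 heq1) hu1)

end Pool.Agent.H973.SR
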