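import Pool.Agent.H973.SR.Stm

/-!
A winning serving game embeds every tree.
-/

namespace Pool.Agent.H973.SR

open Finset

namespace TreeL

variable {C W V : Type} [DecidableEq C] [DecidableEq W] [Fintype V] [DecidableEq V]

/-- the placed connectors -/
def DC (κ : V → Bool) (par : V → V) (S : Finset V) : Finset V :=
  univ.filter (fun c => κ c = false ∧ par c ∈ S)

/-- the placed agents -/
def DW (κ : V → Bool) (par : V → V) (v0 : V) (S : Finset V) : Finset V :=
  univ.filter (fun x => κ x = true ∧ (x = v0 ∨ par (par x) ∈ S))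

/-- the children of an agent -/
def Ich (κ : V → Bool) (par : V → V) (v : V) : Finset V :=
  univ.filter (fun c => κ c = false ∧ par c = v)

/-- the children of a connector -/
def Ch (κ : V → Bool) (par : V → V) (v0 : V) (c : V) : Finset V :=
  univ.filter (fun x => κ x = true ∧ x ≠ v0 ∧ par x = c)

theorem mem_DC {κ : V → Bool} {par : V → V} {S : Finset V} {c : V} :
    c ∈ DC κ par S ↔ κ c = false ∧ par c ∈ S := by simp [DC]

theorem mem_DW {κ : V → Bool} {par : V → V} {v0 : V} {S : Finset V} {x : V} :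
    x ∈ DW κ par v0 S ↔ κ x = true ∧ (x = v0 ∨ par (par x) ∈ S) := by simp [DW]

theorem mem_Ich {κ : V → Bool} {par : V → V} {v c : V} :
    c ∈ Ich κ par v ↔ κ c = false ∧ par c = v := by simp [Ich]

theorem mem_Ch {κ : V → Bool} {par : V → V} {v0 c x : V} :
    x ∈ Ch κ par v0 c ↔ κ x = true ∧ x ≠ v0 ∧ par x = c := by simp [Ch]

/-- the state of the construction -/
structure Sta (N : W → Finset C) (κ : V → Bool) (par : V → V) (v0 : V)
    (Inv : Finset C → Finset W → Finset W → Prop) (S : Finset V) (fc : V → C) (fw : V → W) :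
    Prop where
  sub : ∀ v ∈ S, v ∈ DW κ par v0 S
  injc : Set.InjOn fc (DC κ par S : Set V)
  injw : Set.InjOn fw (DW κ par v0 S : Set V)
  adjc : ∀ c ∈ DC κ par S, fc c ∈ N (fw (par c))
  adjw : ∀ x ∈ DW κ par v0 S, x ≠ v0 → fc (par x) ∈ N (fw x)
  inv : Inv ((DC κ par S).image fc) ((DW κ par v0 S).image fw) ((DW κ par v0 S \ S).image fw)

/-- a bijection between finite sets of the same size -/
theorem exists_bij {s : Finset V} {t : Finset W} (h : t.card = s.card) (w0 : W) :
    ∃ g : V → W, Set.InjOn g (s : Set V) ∧ s.image g = t := by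
  have e : s ≃ t := Finset.equivOfCardEq h.symm
  refine ⟨fun x => if hx : x ∈ s then (e ⟨x, hx⟩ : W) else w0, ?_, ?_⟩
  · intro x hx y hy hxy
    rw [Finset.mem_coe] at hx hy
    simp only [hx, hy, dif_pos] at hxy
    have := e.injective (Subtype.ext hxy)
    exact congrArg Subtype.val this
  · ext y
    rw [Finset.mem_image]
    constructor
    · rintro ⟨x, hx, rfl⟩
      simp only [hx, dif_pos]
      exact (e ⟨x, hx⟩).2
    · intro hy
      refine ⟨(e.symm ⟨y, hy⟩ : V), (e.symm ⟨y, hy⟩).2, ?_⟩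
      simp only [(e.symm ⟨y, hy⟩).2, dif_pos, Subtype.coe_eta, Equiv.apply_symm_apply]

theorem step {N : W → Finset C} {T : SimpleGraph V} [DecidableRel T.Adj] {κ : V → Bool}
    {Inv : Finset C → Finset W → Finset W → Prop} {n1 n2 D d : ℕ} {v0 : V} (w0 : W)
    (hκ : ∀ x y, T.Adj x y → κ x ≠ κ y) (hv0 : κ v0 = true)
    (hn1 : (univ.filter (fun v => κ v = false)).card ≤ n1)
    (hn2 : (univ.filter (fun v => κ v = true)).card ≤ n2)
    (hD : ∀ v, κ v = true → T.degree v ≤ D) (hd : ∀ v, κ v = false → T.degree v ≤ d)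
    (hstep : Step N Inv n1 n2 D d) {par : V → V} {ht : V → ℕ}
    (hpar : ∀ v, v ≠ v0 → T.Adj v (par v) ∧ ht v = ht (par v) + 1) {S : Finset V}
    {fc : V → C} {fw : V → W} (hS : Sta N κ par v0 Inv S fc fw) {v : V}
    (hvD : v ∈ DW κ par v0 S) (hvS : v ∉ S) :
    ∃ (fc' : V → C) (fw' : V → W), Sta N κ par v0 Inv (insert v S) fc' fw' := by
  have hκv : κ v = true := (mem_DW.mp hvD).1
  have hne0 : ∀ {c : V}, κ c = false → c ≠ v0 := by
    rintro c hc rfl
    rw [hv0] at hc
    exact Bool.noConfusion hc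
  have hflip : ∀ {x : V}, x ≠ v0 → κ x = true → κ (par x) = false := by
    intro x hx hx'
    have := hκ _ _ (hpar x hx).1
    rw [hx'] at this
    cases h : κ (par x)
    · rfl
    · exact absurd h.symm this
  -- the sets
  set I := Ich κ par v with hI
  set B := I.biUnion (Ch κ par v0) with hB
  have memB : ∀ x, x ∈ B ↔ κ x = true ∧ x ≠ v0 ∧ par (par x) = v := by
    intro x
    rw [hB, Finset.mem_biUnion]
    constructor
    · rintro ⟨c, hc, hx⟩
      obtain ⟨h1, h2, h3⟩ := mem_Ch.mp hx
      refine ⟨h1, h2, ?_⟩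
      rw [h3]
      exact (mem_Ich.mp hc).2
    · rintro ⟨h1, h2, h3⟩
      exact ⟨par x, mem_Ich.mpr ⟨hflip h2 h1, h3⟩, mem_Ch.mpr ⟨h1, h2, rfl⟩⟩
  have hBD : ∀ x ∈ DW κ par v0 S, x ∉ B := by
    intro x hx hxB
    obtain ⟨h1, h2, h3⟩ := (memB x).mp hxB
    rcases (mem_DW.mp hx).2 with h | h
    · exact h2 h
    · rw [h3] at h
      exact hvS h
  have hID : ∀ c ∈ DC κ par S, c ∉ I := by
    intro c hc hcI
    have h1 := (mem_DC.mp hc).2
    rw [(mem_Ich.mp hcI).2] at h1
    exact hvS h1
  have hDC' : DC κ par (insert v S) = DC κ par S ∪ I := by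
    ext c
    rw [Finset.mem_union, mem_DC, mem_DC, mem_Ich, Finset.mem_insert]
    tauto
  have hDW' : DW κ par v0 (insert v S) = DW κ par v0 S ∪ B := by
    ext x
    rw [Finset.mem_union, mem_DW, mem_DW, memB, Finset.mem_insert]
    constructor
    · rintro ⟨h1, h2 | h2 | h2⟩
      · exact Or.inl ⟨h1, Or.inl h2⟩
      · by_cases h3 : x = v0
        · exact Or.inl ⟨h1, Or.inl h3⟩
        · exact Or.inr ⟨h1, h3, h2⟩
      · exact Or.inl ⟨h1, Or.inr h2⟩
    · rintro (⟨h1, h2 | h2⟩ | ⟨h1, h2, h3⟩)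
      · exact ⟨h1, Or.inl h2⟩
      · exact ⟨h1, Or.inr (Or.inr h2)⟩
      · exact ⟨h1, Or.inr (Or.inl h3)⟩
  have hChdisj : Set.PairwiseDisjoint (I : Set V) (Ch κ par v0) := by
    intro c _ c' _ hcc'
    rw [Function.onFun, Finset.disjoint_left]
    intro x hx hx'
    exact hcc' ((mem_Ch.mp hx).2.2.symm.trans (mem_Ch.mp hx').2.2)
  -- counting
  have c1 : I.card ≤ D := by
    refine le_trans ?_ (hD v hκv)
    rw [← SimpleGraph.card_neighborFinset_eq_degree]
    refine Finset.card_le_card fun c hc => ?_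
    obtain ⟨h1, h2⟩ := mem_Ich.mp hc
    rw [SimpleGraph.mem_neighborFinset, ← h2]
    exact (hpar c (hne0 h1)).1.symm
  have c2 : ∀ c ∈ I, (Ch κ par v0 c).card ≤ d := by
    intro c hc
    refine le_trans ?_ (hd c (mem_Ich.mp hc).1)
    rw [← SimpleGraph.card_neighborFinset_eq_degree]
    refine Finset.card_le_card fun x hx => ?_
    obtain ⟨_, h2, h3⟩ := mem_Ch.mp hx
    rw [SimpleGraph.mem_neighborFinset, ← h3]
    exact (hpar x h2).1.symm
  have c3 : ((DC κ par S).image fc).card + I.card ≤ n1 := by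
    rw [Finset.card_image_of_injOn hS.injc, ← Finset.card_union_of_disjoint
      (Finset.disjoint_left.mpr hID)]
    refine le_trans (Finset.card_le_card fun c hc => ?_) hn1
    rw [Finset.mem_filter]
    refine ⟨Finset.mem_univ _, ?_⟩
    rcases Finset.mem_union.mp hc with h | h
    · exact (mem_DC.mp h).1
    · exact (mem_Ich.mp h).1
  have c4 : ((DW κ par v0 S).image fw).card + ∑ c ∈ I, (Ch κ par v0 c).card ≤ n2 := by
    rw [Finset.card_image_of_injOn hS.injw, ← Finset.card_biUnion
      (fun c hc c' hc' h => hChdisj hc hc' h), ← Finset.card_union_of_disjoint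
      (Finset.disjoint_left.mpr hBD)]
    refine le_trans (Finset.card_le_card fun c hc => ?_) hn2
    rw [Finset.mem_filter]
    refine ⟨Finset.mem_univ _, ?_⟩
    rcases Finset.mem_union.mp hc with h | h
    · exact (mem_DW.mp h).1
    · exact ((memB c).mp h).1
  have hwP : fw v ∈ (DW κ par v0 S \ S).image fw :=
    Finset.mem_image_of_mem _ (Finset.mem_sdiff.mpr ⟨hvD, hvS⟩)
  obtain ⟨u, t, s1, s2, s3, s4, s5⟩ := hstep _ _ _ hS.inv (fw v) hwP V I
    (fun c => (Ch κ par v0 c).card) c1 c2 c3 c4
  have hg : ∀ c : V, ∃ g : V → W, c ∈ I → Set.InjOn g (Ch κ par v0 c : Set V) ∧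
      (Ch κ par v0 c).image g = t c := by
    intro c
    by_cases hc : c ∈ I
    · obtain ⟨g, hg1, hg2⟩ := exists_bij (s3 c hc).1 w0
      exact ⟨g, fun _ => ⟨hg1, hg2⟩⟩
    · exact ⟨fun _ => w0, fun h => absurd h hc⟩
  choose g hg using hg
  have fcI : ∀ c ∈ I, (if c ∈ I then u c else fc c) = u c := fun c hc => if_pos hc
  have fcD : ∀ c ∈ DC κ par S, (if c ∈ I then u c else fc c) = fc c :=
    fun c hc => if_neg (hID c hc)
  have fwB : ∀ x ∈ B, (if x ∈ B then g (par x) x else fw x) = g (par x) x := fun x hx => if_pos hx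
  have fwD : ∀ x ∈ DW κ par v0 S, (if x ∈ B then g (par x) x else fw x) = fw x :=
    fun x hx => if_neg (hBD x hx)
  have parI : ∀ x ∈ B, par x ∈ I := by
    intro x hx
    obtain ⟨h1, h2, h3⟩ := (memB x).mp hx
    exact mem_Ich.mpr ⟨hflip h2 h1, h3⟩
  have memCh : ∀ x ∈ B, x ∈ Ch κ par v0 (par x) := by
    intro x hx
    obtain ⟨h1, h2, _⟩ := (memB x).mp hx
    exact mem_Ch.mpr ⟨h1, h2, rfl⟩
  have gt : ∀ x ∈ B, g (par x) x ∈ t (par x) := by
    intro x hx
    rw [← (hg (par x) (parI x hx)).2]
    exact Finset.mem_image_of_mem _ (memCh x hx)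
  have imB : B.image (fun x => if x ∈ B then g (par x) x else fw x) = I.biUnion t := by
    ext y
    rw [Finset.mem_image, Finset.mem_biUnion]
    constructor
    · rintro ⟨x, hx, rfl⟩
      rw [fwB x hx]
      exact ⟨par x, parI x hx, gt x hx⟩
    · rintro ⟨c, hc, hy⟩
      rw [← (hg c hc).2, Finset.mem_image] at hy
      obtain ⟨x, hx, rfl⟩ := hy
      have hxB : x ∈ B := Finset.mem_biUnion.mpr ⟨c, hc, hx⟩
      refine ⟨x, hxB, ?_⟩
      rw [fwB x hxB, (mem_Ch.mp hx).2.2]
  have hSD : ∀ x ∈ S, x ∈ DW κ par v0 S := hS.sub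
  refine ⟨fun c => if c ∈ I then u c else fc c, fun x => if x ∈ B then g (par x) x else fw x,
    ?_, ?_, ?_, ?_, ?_, ?_⟩
  · intro x hx
    rw [hDW', Finset.mem_union]
    left
    rcases Finset.mem_insert.mp hx with h | h
    · rw [h]; exact hvD
    · exact hSD x h
  · rw [hDC']
    intro x hx y hy hxy
    rw [Finset.mem_coe, Finset.mem_union] at hx hy
    dsimp only at hxy
    rcases hx with hx | hx <;> rcases hy with hy | hy
    · rw [fcD x hx, fcD y hy] at hxy
      exact hS.injc hx hy hxy
    · rw [fcD x hx, fcI y hy] at hxy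
      exact absurd (hxy ▸ Finset.mem_image_of_mem fc hx) (s1 y hy).2
    · rw [fcI x hx, fcD y hy] at hxy
      exact absurd (hxy.symm ▸ Finset.mem_image_of_mem fc hy) (s1 x hx).2
    · rw [fcI x hx, fcI y hy] at hxy
      exact s2 x hx y hy hxy
  · rw [hDW']
    intro x hx y hy hxy
    rw [Finset.mem_coe, Finset.mem_union] at hx hy
    dsimp only at hxy
    rcases hx with hx | hx <;> rcases hy with hy | hy
    · rw [fwD x hx, fwD y hy] at hxy
      exact hS.injw hx hy hxy
    · rw [fwD x hx, fwB y hy] at hxy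
      have h1 := gt y hy
      rw [← hxy] at h1
      exact absurd (Finset.mem_image_of_mem fw hx)
        (Finset.disjoint_left.mp (s3 _ (parI y hy)).2.1 h1)
    · rw [fwB x hx, fwD y hy] at hxy
      have h1 := gt x hx
      rw [hxy] at h1
      exact absurd (Finset.mem_image_of_mem fw hy)
        (Finset.disjoint_left.mp (s3 _ (parI x hx)).2.1 h1)
    · rw [fwB x hx, fwB y hy] at hxy
      by_cases hp : par x = par y
      · have h1 := memCh y hy
        rw [← hp] at h1 hxy
        exact (hg (par x) (parI x hx)).1 (memCh x hx) h1 hxy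
      · have h1 := gt y hy
        rw [← hxy] at h1
        exact absurd h1 (Finset.disjoint_left.mp (s4 _ (parI x hx) _ (parI y hy) hp) (gt x hx))
  · intro c hc
    rw [hDC', Finset.mem_union] at hc
    rcases hc with hc | hc
    · rw [fcD c hc, fwD _ (hSD _ (mem_DC.mp hc).2)]
      exact hS.adjc c hc
    · rw [fcI c hc, (mem_Ich.mp hc).2, fwD _ hvD]
      exact (s1 c hc).1
  · intro x hx hx0
    rw [hDW', Finset.mem_union] at hx
    rcases hx with hx | hx
    · have h1 : par x ∈ DC κ par S := by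
        obtain ⟨h1, h2⟩ := mem_DW.mp hx
        exact mem_DC.mpr ⟨hflip hx0 h1, h2.resolve_left hx0⟩
      rw [fcD _ h1, fwD x hx]
      exact hS.adjw x hx hx0
    · rw [fcI _ (parI x hx), fwB x hx]
      exact (s3 _ (parI x hx)).2.2 _ (gt x hx)
  · have e1 : (DC κ par (insert v S)).image (fun c => if c ∈ I then u c else fc c) =
        (DC κ par S).image fc ∪ I.image u := by
      rw [hDC', Finset.image_union, Finset.image_congr (fun c hc => fcD c hc),
        Finset.image_congr (fun c hc => fcI c hc)]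
    have e2 : (DW κ par v0 (insert v S)).image (fun x => if x ∈ B then g (par x) x else fw x) =
        (DW κ par v0 S).image fw ∪ I.biUnion t := by
      rw [hDW', Finset.image_union, Finset.image_congr (fun x hx => fwD x hx), imB]
    have e3 : DW κ par v0 (insert v S) \ insert v S = (DW κ par v0 S \ S).erase v ∪ B := by
      ext x
      rw [hDW', Finset.mem_sdiff, Finset.mem_union, Finset.mem_union, Finset.mem_erase,
        Finset.mem_sdiff, Finset.mem_insert]
      constructor
      · rintro ⟨h1 | h1, h2⟩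
        · left
          exact ⟨fun h => h2 (Or.inl h), h1, fun h => h2 (Or.inr h)⟩
        · exact Or.inr h1
      · rintro (⟨h1, h2, h3⟩ | h1)
        · exact ⟨Or.inl h2, fun h => h.elim h1 h3⟩
        · refine ⟨Or.inr h1, ?_⟩
          rintro (h | h)
          · rw [h] at h1
            exact hBD v hvD h1
          · exact hBD x (hSD x h) h1
    have e4 : ((DW κ par v0 S \ S).erase v).image
        (fun x => if x ∈ B then g (par x) x else fw x) =
        ((DW κ par v0 S \ S).image fw).erase (fw v) := by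
      rw [Finset.image_congr (g := fw) (fun x hx => fwD x
        (Finset.mem_sdiff.mp (Finset.mem_of_mem_erase hx)).1)]
      ext y
      rw [Finset.mem_image, Finset.mem_erase, Finset.mem_image]
      constructor
      · rintro ⟨x, hx, rfl⟩
        obtain ⟨h1, h2⟩ := Finset.mem_erase.mp hx
        refine ⟨fun h => h1 (hS.injw (Finset.mem_sdiff.mp h2).1 hvD h), x, h2, rfl⟩
      · rintro ⟨h1, x, h2, rfl⟩
        exact ⟨x, Finset.mem_erase.mpr ⟨fun h => h1 (by rw [h]), h2⟩, rfl⟩
    rw [e1, e2, e3, Finset.image_union, e4, imB]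
    exact s5

end TreeL

open TreeL in
theorem tree (h : S_PARENT) : S_TREE := by
  intro C W V _ _ _ _ N T _ κ Inv n1 n2 D d v0 w0 u0 hT hκ hv0 hn1 hn2 hD hd hInv hstep
  obtain ⟨par, ht, -, hpar, hedge⟩ := h V T v0 hT
  have hne0 : ∀ {c : V}, κ c = false → c ≠ v0 := by
    rintro c hc rfl
    rw [hv0] at hc
    exact Bool.noConfusion hc
  have hflip : ∀ {x : V}, x ≠ v0 → κ x = true → κ (par x) = false := by
    intro x hx hx'
    have := hκ _ _ (hpar x hx).1
    rw [hx'] at this
    cases h : κ (par x)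
    · rfl
    · exact absurd h.symm this
  have hflip' : ∀ {x : V}, κ x = false → κ (par x) = true := by
    intro x hx'
    have := hκ _ _ (hpar x (hne0 hx')).1
    rw [hx'] at this
    cases h : κ (par x)
    · exact absurd h.symm this
    · rfl
  have key : ∀ m : ℕ, m ≤ (univ.filter (fun v => κ v = true)).card →
      ∃ (S : Finset V) (fc : V → C) (fw : V → W), S.card = m ∧ Sta N κ par v0 Inv S fc fw := by
    intro m
    induction m with
    | zero =>
      intro _
      have hDW : DW κ par v0 ∅ = {v0} := by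
        ext x
        rw [mem_DW, Finset.mem_singleton]
        constructor
        · rintro ⟨_, h | h⟩
          · exact h
          · exact absurd h (Finset.notMem_empty _)
        · rintro rfl
          exact ⟨hv0, Or.inl rfl⟩
      have hDC : DC κ par ∅ = ∅ := by
        ext x
        rw [mem_DC]
        simp
      refine ⟨∅, fun _ => u0, fun _ => w0, rfl, ?_, ?_, ?_, ?_, ?_, ?_⟩
      · intro v hv
        exact absurd hv (Finset.notMem_empty _)
      · rw [hDC]; simp
      · rw [hDW]
        simp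
      · rw [hDC]
        intro c hc
        exact absurd hc (Finset.notMem_empty _)
      · rw [hDW]
        intro x hx hx0
        exact absurd (Finset.mem_singleton.mp hx) hx0
      · rw [hDW, hDC]
        simpa using hInv
    | succ m ih =>
      intro hm
      obtain ⟨S, fc, fw, hSm, hS⟩ := ih (by omega)
      have hSsub : S ⊆ univ.filter (fun v => κ v = true) := by
        intro x hx
        rw [Finset.mem_filter]
        exact ⟨Finset.mem_univ _, (mem_DW.mp (hS.sub x hx)).1⟩
      have hne : ((univ.filter (fun v => κ v = true)) \ S).Nonempty := by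
        rw [← Finset.card_pos, Finset.card_sdiff_of_subset hSsub]
        omega
      obtain ⟨v, hv, hmin⟩ := Finset.exists_min_image _ ht hne
      obtain ⟨hv1, hv2⟩ := Finset.mem_sdiff.mp hv
      have hκv : κ v = true := (Finset.mem_filter.mp hv1).2
      have hvD : v ∈ DW κ par v0 S := by
        rw [mem_DW]
        refine ⟨hκv, ?_⟩
        by_cases h0 : v = v0
        · exact Or.inl h0
        · right
          by_contra hcon
          have h1 := hflip h0 hκv
          have h2 := hflip' h1
          have h3 := hmin (par (par v)) (Finset.mem_sdiff.mpr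
            ⟨Finset.mem_filter.mpr ⟨Finset.mem_univ _, h2⟩, hcon⟩)
          have h4 := (hpar v h0).2
          have h5 := (hpar (par v) (hne0 h1)).2
          omega
      obtain ⟨fc', fw', hS'⟩ := step w0 hκ hv0 hn1 hn2 hD hd hstep hpar hS hvD hv2
      exact ⟨insert v S, fc', fw', by rw [Finset.card_insert_of_notMem hv2, hSm], hS'⟩
  obtain ⟨S, fc, fw, hSm, hS⟩ := key _ le_rfl
  have hSsub : S ⊆ univ.filter (fun v => κ v = true) := by
    intro x hx
    rw [Finset.mem_filter]
    exact ⟨Finset.mem_univ _, (mem_DW.mp (hS.sub x hx)).1⟩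
  have hSall : S = univ.filter (fun v => κ v = true) :=
    Finset.eq_of_subset_of_card_le hSsub hSm.ge
  have hmem : ∀ x, κ x = true → x ∈ S := by
    intro x hx
    rw [hSall, Finset.mem_filter]
    exact ⟨Finset.mem_univ _, hx⟩
  have hDC : ∀ x, κ x = false → x ∈ DC κ par S := fun x hx =>
    mem_DC.mpr ⟨hx, hmem _ (hflip' hx)⟩
  have hDW : ∀ x, κ x = true → x ∈ DW κ par v0 S := fun x hx => hS.sub x (hmem x hx)
  refine ⟨fc, fw, fun x y hx hy hxy => hS.injc (hDC x hx) (hDC y hy) hxy,
    fun x y hx hy hxy => hS.injw (hDW x hx) (hDW y hy) hxy, fun x y hx hy hxy => ?_⟩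
  rcases hedge x y hxy with ⟨h1, h2⟩ | ⟨h1, h2⟩
  · rw [← h2]
    exact hS.adjw x (hDW x hx) h1
  · rw [← h2]
    exact hS.adjc y (hDC y hy)

end Pool.Agent.H973.SR
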