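import Pool.Agent.H973.SR.Stm2

/-!
# Witness union bound in the random `s`-subset model (`S_WIT`)
-/

namespace Pool.Agent.H973.SR

open Finset

namespace WitL

lemma desc_le (s N : ℕ) (hs : s ≤ N) : ∀ t : ℕ, t ≤ s →
    s.descFactorial t * N ^ t ≤ s ^ t * N.descFactorial t := by
  intro t
  induction t with
  | zero => intro _; simp
  | succ t ih =>
    intro ht
    have h1 := ih (by omega)
    rw [Nat.descFactorial_succ, Nat.descFactorial_succ, pow_succ, pow_succ]
    have h2 : (s - t) * N ≤ s * (N - t) := by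
      have e1 : (s - t) * N + t * N = s * N := by
        rw [← Nat.add_mul]; congr 1; omega
      have e2 : s * (N - t) + s * t = s * N := by
        rw [← Nat.mul_add]; congr 1; omega
      have e3 : s * t ≤ t * N := by
        rw [Nat.mul_comm]; exact Nat.mul_le_mul_left _ hs
      omega
    calc (s - t) * s.descFactorial t * (N ^ t * N)
        = (s.descFactorial t * N ^ t) * ((s - t) * N) := by ring
      _ ≤ (s ^ t * N.descFactorial t) * (s * (N - t)) := Nat.mul_le_mul h1 h2
      _ = s ^ t * s * ((N - t) * N.descFactorial t) := by ring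

lemma choose_le (s N : ℕ) (hs : s ≤ N) (t : ℕ) (ht : t ≤ s) :
    (N - t).choose (s - t) * N ^ t ≤ s ^ t * N.choose s := by
  have h1 := desc_le s N hs t ht
  rw [Nat.descFactorial_eq_factorial_mul_choose, Nat.descFactorial_eq_factorial_mul_choose] at h1
  have hf : 0 < t.factorial := Nat.factorial_pos t
  have h2 : s.choose t * N ^ t ≤ s ^ t * N.choose t := by
    apply Nat.le_of_mul_le_mul_left _ hf
    calc t.factorial * (s.choose t * N ^ t) = t.factorial * s.choose t * N ^ t := by ring
      _ ≤ s ^ t * (t.factorial * N.choose t) := h1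
      _ = t.factorial * (s ^ t * N.choose t) := by ring
  have h3 : N.choose s * s.choose t = N.choose t * (N - t).choose (s - t) :=
    Nat.choose_mul ht
  have h4 : 0 < N.choose t := Nat.choose_pos (le_trans ht hs)
  apply Nat.le_of_mul_le_mul_left _ h4
  calc N.choose t * ((N - t).choose (s - t) * N ^ t)
      = (N.choose t * (N - t).choose (s - t)) * N ^ t := by ring
    _ = N.choose s * s.choose t * N ^ t := by rw [← h3]
    _ = N.choose s * (s.choose t * N ^ t) := by ring
    _ ≤ N.choose s * (s ^ t * N.choose t) := Nat.mul_le_mul_left _ h2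
    _ = N.choose t * (s ^ t * N.choose s) := by ring

lemma card_super (N s : ℕ) (hs : s ≤ N) (T : Finset (Fin N)) :
    ((univ.filter (fun A : {A : Finset (Fin N) // A.card = s} => T ⊆ A.1)).card) * N ^ T.card
      ≤ s ^ T.card * N.choose s := by
  classical
  by_cases ht : T.card ≤ s
  · have h1 : (univ.filter (fun A : {A : Finset (Fin N) // A.card = s} => T ⊆ A.1)).card
        ≤ (powersetCard (s - T.card) (univ \ T)).card := by
      apply Finset.card_le_card_of_injOn (fun A => A.1 \ T)
      · intro A hA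
        have hA' : T ⊆ A.1 := by simpa using hA
        simp only [Finset.mem_coe,
          Finset.mem_powersetCard]
        constructor
        · exact Finset.sdiff_subset_sdiff (Finset.subset_univ _) (Finset.Subset.refl _)
        · rw [Finset.card_sdiff_of_subset hA', A.2]
      · intro A hA A' hA' h
        have hAT : T ⊆ A.1 := by simpa using hA
        have hAT' : T ⊆ A'.1 := by simpa using hA'
        apply Subtype.ext
        have h' : A.1 \ T = A'.1 \ T := h
        rw [← Finset.sdiff_union_of_subset hAT, ← Finset.sdiff_union_of_subset hAT', h']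
    have h2 : (powersetCard (s - T.card) (univ \ T)).card = (N - T.card).choose (s - T.card) := by
      rw [Finset.card_powersetCard, Finset.card_sdiff_of_subset (Finset.subset_univ _),
        Finset.card_univ, Fintype.card_fin]
    rw [h2] at h1
    exact le_trans (Nat.mul_le_mul_right _ h1) (choose_le s N hs T.card ht)
  · have h0 : univ.filter (fun A : {A : Finset (Fin N) // A.card = s} => T ⊆ A.1) = ∅ := by
      apply Finset.filter_eq_empty_iff.mpr
      intro A _ hA
      have := Finset.card_le_card hA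
      rw [A.2] at this
      exact ht this
    rw [h0]
    simp

/-- the set of second coordinates of the elements of `E` over `u` -/
def fib {N1 N2 : ℕ} (E : Finset (Fin N1 × Fin N2)) (u : Fin N1) : Finset (Fin N2) :=
  univ.filter (fun w => (u, w) ∈ E)

lemma sum_fib {N1 N2 : ℕ} (E : Finset (Fin N1 × Fin N2)) :
    ∑ u, (fib E u).card = E.card := by
  classical
  rw [Finset.card_eq_sum_card_fiberwise (f := Prod.fst) (t := univ) (fun _ _ => by simp)]
  apply Finset.sum_congr rfl
  intro u _
  apply Finset.card_bij (fun w _ => (u, w))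
  · intro w hw
    simp only [fib, Finset.mem_filter, Finset.mem_univ, true_and] at hw ⊢
    exact ⟨hw, trivial⟩
  · intro a _ b _ h
    exact (Prod.mk.inj h).2
  · intro p hp
    simp only [Finset.mem_filter] at hp
    refine ⟨p.2, ?_, ?_⟩
    · simp only [fib, Finset.mem_filter, Finset.mem_univ, true_and]
      rw [← hp.2]; exact hp.1
    · rw [← hp.2]

open Classical in
lemma one (N1 N2 s : ℕ) (hs : s ≤ N2) (E : Finset (Fin N1 × Fin N2)) :
    ((univ.filter (fun S : Om N1 N2 s => ∀ p ∈ E, p.2 ∈ (S p.1).1)).card) * N2 ^ E.card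
      ≤ s ^ E.card * Fintype.card (Om N1 N2 s) := by
  have hcardA : Fintype.card {A : Finset (Fin N2) // A.card = s} = N2.choose s := by
    rw [Fintype.card_finset_len, Fintype.card_fin]
  have h1 : (univ.filter (fun S : Om N1 N2 s => ∀ p ∈ E, p.2 ∈ (S p.1).1))
      = Fintype.piFinset (fun u : Fin N1 =>
        univ.filter (fun A : {A : Finset (Fin N2) // A.card = s} => fib E u ⊆ A.1)) := by
    ext S
    simp only [Finset.mem_filter, Finset.mem_univ, true_and, Fintype.mem_piFinset]
    constructor
    · intro h u w hw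
      simp only [fib, Finset.mem_filter, Finset.mem_univ, true_and] at hw
      exact h (u, w) hw
    · intro h p hp
      apply h p.1
      simp only [fib, Finset.mem_filter, Finset.mem_univ, true_and]
      exact hp
  rw [h1, Fintype.card_piFinset]
  have h2 : Fintype.card (Om N1 N2 s) = ∏ _u : Fin N1, N2.choose s := by
    show Fintype.card (Fin N1 → {A : Finset (Fin N2) // A.card = s}) = _
    rw [Fintype.card_fun, hcardA, Finset.prod_const, Finset.card_univ]
  rw [h2, ← sum_fib E, ← Finset.prod_pow_eq_pow_sum, ← Finset.prod_pow_eq_pow_sum,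
    ← Finset.prod_mul_distrib, ← Finset.prod_mul_distrib]
  apply Finset.prod_le_prod'
  intro u _
  exact card_super N2 s hs (fib E u)

lemma card_pos (N1 N2 s : ℕ) (hs : s ≤ N2) : 0 < Fintype.card (Om N1 N2 s) := by
  have hcardA : Fintype.card {A : Finset (Fin N2) // A.card = s} = N2.choose s := by
    rw [Fintype.card_finset_len, Fintype.card_fin]
  show 0 < Fintype.card (Fin N1 → {A : Finset (Fin N2) // A.card = s})
  rw [Fintype.card_fun, hcardA]
  exact pow_pos (Nat.choose_pos hs) _

end WitL

theorem wit : S_WIT := by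
  classical
  intro N1 N2 s k 𝒲 hs hk
  have hpos := WitL.card_pos N1 N2 s hs
  have hposR : (0 : ℝ) < (Fintype.card (Om N1 N2 s) : ℝ) := by exact_mod_cast hpos
  have hone : ∀ E ∈ 𝒲,
      ((univ.filter (fun S : Om N1 N2 s => ∀ p ∈ E, p.2 ∈ (S p.1).1)).card : ℝ)
        ≤ ((s : ℝ) / N2) ^ k * (Fintype.card (Om N1 N2 s) : ℝ) := by
    intro E hE
    have h := WitL.one N1 N2 s hs E
    rw [hk E hE] at h
    rcases Nat.eq_zero_or_pos N2 with h0 | hN
    · subst h0
      have hs0 : s = 0 := by omega
      rcases Nat.eq_zero_or_pos k with hk0 | hkp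
      · subst hk0
        simp only [pow_zero, one_mul]
        exact_mod_cast Finset.card_le_univ _
      · exfalso
        have hc := hk E hE
        have hne : E.Nonempty := by
          rw [← Finset.card_pos]; omega
        obtain ⟨p, _⟩ := hne
        exact Fin.elim0 p.2
    · have hNR : (0 : ℝ) < (N2 : ℝ) := by exact_mod_cast hN
      have hR : ((univ.filter (fun S : Om N1 N2 s => ∀ p ∈ E, p.2 ∈ (S p.1).1)).card : ℝ)
          * (N2 : ℝ) ^ k ≤ (s : ℝ) ^ k * (Fintype.card (Om N1 N2 s) : ℝ) := by
        exact_mod_cast h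
      rw [div_pow, div_mul_eq_mul_div, le_div_iff₀ (pow_pos hNR k)]
      exact hR
  unfold Pr
  rw [div_le_iff₀ hposR]
  have hsub : (univ.filter (fun S : Om N1 N2 s => ∃ E ∈ 𝒲, ∀ p ∈ E, p.2 ∈ (S p.1).1))
      ⊆ 𝒲.biUnion (fun E => univ.filter (fun S : Om N1 N2 s => ∀ p ∈ E, p.2 ∈ (S p.1).1)) := by
    intro S hS
    simp only [Finset.mem_filter, Finset.mem_univ, true_and, Finset.mem_biUnion] at hS ⊢
    exact hS
  have hle : ((univ.filter (fun S : Om N1 N2 s => ∃ E ∈ 𝒲, ∀ p ∈ E, p.2 ∈ (S p.1).1)).card : ℝ)
      ≤ ∑ E ∈ 𝒲, ((univ.filter (fun S : Om N1 N2 s => ∀ p ∈ E, p.2 ∈ (S p.1).1)).card : ℝ) := by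
    have := le_trans (Finset.card_le_card hsub) Finset.card_biUnion_le
    exact_mod_cast this
  calc _ ≤ ∑ E ∈ 𝒲, ((univ.filter (fun S : Om N1 N2 s => ∀ p ∈ E, p.2 ∈ (S p.1).1)).card : ℝ) := by
        refine le_trans (le_of_eq (congrArg (fun n : ℕ => (n : ℝ))
          (congrArg Finset.card (Finset.filter_congr_decidable _ _ _)))) hle
    _ ≤ ∑ _E ∈ 𝒲, ((s : ℝ) / N2) ^ k * (Fintype.card (Om N1 N2 s) : ℝ) :=
        Finset.sum_le_sum hone
    _ = (𝒲.card : ℝ) * ((s : ℝ) / N2) ^ k * (Fintype.card (Om N1 N2 s) : ℝ) := by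
        rw [Finset.sum_const, nsmul_eq_mul]; ring

end Pool.Agent.H973.SR
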